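import Pool.Agent.Helper432.MIS.Base

namespace Pool.Agent.Helper432.MISExtra

open Finset Pool.Agent.Helper432.MISBase

attribute [local instance] Classical.propDecidable

/-- the Moon and Moser numbers -/
def MM : ℕ → ℕ
  | 0 => 1
  | 1 => 1
  | 2 => 2
  | 3 => 3
  | 4 => 4
  | (n + 5) => 3 * MM (n + 2)

lemma MM_rec (n : ℕ) : MM (n + 5) = 3 * MM (n + 2) := by rw [MM]

lemma MM_add1 (n : ℕ) : MM n ≤ MM (n + 1) := by
  induction n using Nat.strong_induction_on with
  | _ n ih =>
    rcases Nat.lt_or_ge n 5 with h | h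
    · interval_cases n <;> decide
    · obtain ⟨m, rfl⟩ : ∃ m, n = m + 5 := ⟨n - 5, by omega⟩
      have e1 : m + 5 + 1 = (m + 1) + 5 := by ring
      rw [e1, MM_rec, MM_rec]
      exact Nat.mul_le_mul_left 3 (ih (m + 2) (by omega))

lemma MM_add2 (n : ℕ) : 2 * MM n ≤ MM (n + 2) := by
  induction n using Nat.strong_induction_on with
  | _ n ih =>
    rcases Nat.lt_or_ge n 5 with h | h
    · interval_cases n <;> decide
    · obtain ⟨m, rfl⟩ : ∃ m, n = m + 5 := ⟨n - 5, by omega⟩
      have e1 : m + 5 + 2 = (m + 2) + 5 := by ring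
      rw [e1, MM_rec, MM_rec]
      have := ih (m + 2) (by omega)
      omega

lemma MM_add3 (n : ℕ) : 3 * MM n ≤ MM (n + 3) := by
  induction n using Nat.strong_induction_on with
  | _ n ih =>
    rcases Nat.lt_or_ge n 5 with h | h
    · interval_cases n <;> decide
    · obtain ⟨m, rfl⟩ : ∃ m, n = m + 5 := ⟨n - 5, by omega⟩
      have e1 : m + 5 + 3 = (m + 3) + 5 := by ring
      rw [e1, MM_rec, MM_rec]
      have := ih (m + 2) (by omega)
      have e2 : m + 2 + 3 = m + 3 + 2 := by ring
      rw [e2] at this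
      omega

lemma MM_add4 (n : ℕ) : 4 * MM n ≤ MM (n + 4) := by
  induction n using Nat.strong_induction_on with
  | _ n ih =>
    rcases Nat.lt_or_ge n 5 with h | h
    · interval_cases n <;> decide
    · obtain ⟨m, rfl⟩ : ∃ m, n = m + 5 := ⟨n - 5, by omega⟩
      have e1 : m + 5 + 4 = (m + 4) + 5 := by ring
      rw [e1, MM_rec, MM_rec]
      have := ih (m + 2) (by omega)
      have e2 : m + 2 + 4 = m + 4 + 2 := by ring
      rw [e2] at this
      omega

lemma MM_mono {a b : ℕ} (h : a ≤ b) : MM a ≤ MM b := monotone_nat_of_le_succ MM_add1 h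

lemma MM_add (k n : ℕ) : k * MM n ≤ MM (n + k) := by
  induction k using Nat.strong_induction_on with
  | _ k ih =>
    rcases Nat.lt_or_ge k 5 with h | h
    · interval_cases k
      · omega
      · have := MM_add1 n; omega
      · exact MM_add2 n
      · exact MM_add3 n
      · exact MM_add4 n
    · obtain ⟨m, rfl⟩ : ∃ m, k = m + 3 := ⟨k - 3, by omega⟩
      have h1 := ih m (by omega)
      have h2 := MM_add3 (n + m)
      have e1 : n + m + 3 = n + (m + 3) := by ring
      rw [e1] at h2
      have h3 : (m + 3) * MM n ≤ 3 * (m * MM n) := by nlinarith [Nat.zero_le (MM n)]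
      omega

lemma MM_three_mul (q : ℕ) : MM (3 * q) = 3 ^ q := by
  induction q using Nat.strong_induction_on with
  | _ q ih =>
    rcases Nat.lt_or_ge q 2 with h | h
    · interval_cases q <;> decide
    · obtain ⟨m, rfl⟩ : ∃ m, q = m + 2 := ⟨q - 2, by omega⟩
      have e1 : 3 * (m + 2) = (3 * m + 1) + 5 := by ring
      have e2 : 3 * m + 1 + 2 = 3 * (m + 1) := by ring
      rw [e1, MM_rec, e2, ih (m + 1) (by omega)]
      ring

lemma MM_three_mul_add_four (q : ℕ) : MM (3 * q + 4) = 4 * 3 ^ q := by
  induction q with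
  | zero => decide
  | succ n ih =>
    have e1 : 3 * (n + 1) + 4 = (3 * n + 2) + 5 := by ring
    have e2 : 3 * n + 2 + 2 = 3 * n + 4 := by ring
    rw [e1, MM_rec, e2, ih]
    ring

lemma MM_three_mul_add_two (q : ℕ) : MM (3 * q + 2) = 2 * 3 ^ q := by
  induction q with
  | zero => decide
  | succ n ih =>
    have e1 : 3 * (n + 1) + 2 = (3 * n) + 5 := by ring
    rw [e1, MM_rec, ih]
    ring

/-- the theorem of Miller, Muller, Moon and Moser, integer form -/
lemma moon_moser_nat {V : Type*} (G : SimpleGraph V) (A : Finset V) :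
    (MI G A).card ≤ MM A.card := by
  induction A using Finset.strongInduction with
  | H A ih =>
    rcases A.eq_empty_or_nonempty with rfl | hA
    · rw [MI_empty, Finset.card_empty]; decide
    · obtain ⟨x, hx, hmin⟩ := exists_min_dg G hA
      set d := dg G A x with hd
      have h1 := rec1 G hx
      have hcardA := card_away G hx
      have h2 : ∀ y ∈ nb G A x, (MI G (away G A y)).card ≤ MM (A.card - (d + 1)) := by
        intro y hy
        have hyA := nb_subset G A x hy
        have hlt : away G A y ⊂ A :=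
          lt_of_le_of_lt (away_subset_erase G A y) (Finset.erase_ssubset hyA)
        refine (ih _ hlt).trans (MM_mono ?_)
        have h3 := card_away G hyA
        have h4 := hmin y hyA
        omega
      calc (MI G A).card ≤ ∑ y ∈ nb G A x, MM (A.card - (d + 1)) :=
            h1.trans (Finset.sum_le_sum h2)
        _ = (d + 1) * MM (A.card - (d + 1)) := by
            rw [Finset.sum_const, card_nb G hx, smul_eq_mul]
        _ ≤ MM (A.card - (d + 1) + (d + 1)) := MM_add _ _
        _ = MM A.card := by congr 1; omega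

/-- blocks plus dominating vertices -/
lemma full_core {v : ℕ} {ι : Type} [Fintype ι] [Nonempty ι] (s : ι → ℕ) (hm : ∑ i, s i ≤ v) :
    ∏ i, s i + (v - ∑ i, s i) ≤
      mu v (∑ i, (s i).choose 2 + (v.choose 2 - (∑ i, s i).choose 2)) := by
  obtain ⟨f⟩ : Nonempty ((Σ i, Fin (s i)) ↪ Fin v) := by
    apply Function.Embedding.nonempty_of_card_le
    simpa [Fintype.card_sigma] using hm
  set blk : ι → Finset (Fin v) := fun i => Finset.univ.image (fun p : Fin (s i) => f ⟨i, p⟩)
    with hblk
  have hblkmem : ∀ i x, f x ∈ blk i ↔ x.1 = i := by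
    intro i x
    simp only [hblk, Finset.mem_image, Finset.mem_univ, true_and]
    constructor
    · rintro ⟨p, hp⟩
      have := f.injective hp
      rw [← this]
    · rintro rfl
      exact ⟨x.2, rfl⟩
  have hblkcard : ∀ i, (blk i).card = s i := by
    intro i
    rw [hblk]
    simp only
    rw [Finset.card_image_of_injective, Finset.card_univ, Fintype.card_fin]
    intro p q hpq
    have := f.injective hpq
    simpa using this
  set F0 : Finset (Sym2 (Fin v)) := Finset.univ.biUnion (fun i => prs (blk i)) with hF0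
  set C : Finset (Fin v) := Finset.univ.image f with hC
  have hblkC : ∀ i, blk i ⊆ C := by
    intro i z hz
    simp only [hblk, Finset.mem_image, Finset.mem_univ, true_and] at hz
    obtain ⟨p, rfl⟩ := hz
    exact Finset.mem_image_of_mem _ (Finset.mem_univ _)
  have hCcard : C.card = ∑ i, s i := by
    rw [hC, Finset.card_image_of_injective _ f.injective, Finset.card_univ, Fintype.card_sigma]
    simp
  have hF0card : F0.card = ∑ i, (s i).choose 2 := by
    rw [hF0, Finset.card_biUnion]
    · refine Finset.sum_congr rfl (fun i _ => ?_)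
      rw [card_prs, hblkcard]
    · intro i _ j _ hij
      rw [Function.onFun, Finset.disjoint_left]
      intro z hz hz'
      induction z with
      | h x y =>
        rw [mk_mem_prs] at hz hz'
        have hx : x ∈ C := hblkC i hz.1
        obtain ⟨w, -, rfl⟩ := Finset.mem_image.1 hx
        exact hij (((hblkmem i w).1 hz.1).symm.trans ((hblkmem j w).1 hz'.1))
  have hF0C : F0 ⊆ prs C := by
    rw [hF0]
    intro z hz
    obtain ⟨i, -, hi⟩ := Finset.mem_biUnion.1 hz
    exact prs_mono (hblkC i) hi
  set F1 := prs (Finset.univ : Finset (Fin v)) \ prs C with hF1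
  have hF1card : F1.card = v.choose 2 - (∑ i, s i).choose 2 := by
    rw [hF1, Finset.card_sdiff_of_subset (prs_mono (Finset.subset_univ C)), card_prs, card_prs,
      hCcard, Finset.card_univ, Fintype.card_fin]
  have hdisj : Disjoint F0 F1 := by
    rw [Finset.disjoint_left]
    intro z hz hz'
    exact (Finset.mem_sdiff.1 hz').2 (hF0C hz)
  set F := F0 ∪ F1 with hF
  have hFcard : F.card = ∑ i, (s i).choose 2 + (v.choose 2 - (∑ i, s i).choose 2) := by
    rw [hF, Finset.card_union_of_disjoint hdisj, hF0card, hF1card]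
  have hFsub : F ⊆ prs Finset.univ := by
    rw [hF]
    refine Finset.union_subset (hF0C.trans (prs_mono (Finset.subset_univ C))) ?_
    exact Finset.sdiff_subset
  have hedge := card_fromEdge F hFsub
  rw [hFcard] at hedge
  refine le_trans ?_ (le_mu hedge)
  set G := SimpleGraph.fromEdgeSet (F : Set (Sym2 (Fin v))) with hG
  have hadj : ∀ x y, G.Adj (f x) (f y) ↔ (x.1 = y.1 ∧ x ≠ y) := by
    intro x y
    rw [hG, SimpleGraph.fromEdgeSet_adj]
    constructor
    · rintro ⟨h3, h4⟩
      refine ⟨?_, fun h => h4 (by rw [h])⟩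
      rw [Finset.mem_coe, hF, Finset.mem_union] at h3
      rcases h3 with h3 | h3
      · obtain ⟨i, -, hi⟩ := Finset.mem_biUnion.1 h3
        rw [mk_mem_prs] at hi
        exact ((hblkmem i x).1 hi.1).trans ((hblkmem i y).1 hi.2.1).symm
      · exfalso
        apply (Finset.mem_sdiff.1 h3).2
        rw [mk_mem_prs]
        exact ⟨Finset.mem_image_of_mem _ (Finset.mem_univ _),
          Finset.mem_image_of_mem _ (Finset.mem_univ _), h4⟩
    · rintro ⟨h3, h4⟩
      have h5 : f x ≠ f y := fun h => h4 (f.injective h)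
      refine ⟨?_, h5⟩
      rw [Finset.mem_coe, hF, Finset.mem_union]
      left
      rw [hF0, Finset.mem_biUnion]
      refine ⟨x.1, Finset.mem_univ _, ?_⟩
      rw [mk_mem_prs]
      exact ⟨(hblkmem _ _).2 rfl, (hblkmem _ _).2 h3.symm, h5⟩
  have hMIS : ∀ x : Fin v, x ∉ C → IsMIS G {x} := by
    intro x hx
    rw [isMIS_iff]
    refine ⟨?_, ?_⟩
    · intro a ha b hb hab
      rw [Finset.mem_singleton] at ha hb
      subst ha; subst hb
      exact G.loopless.irrefl _ hab
    · intro z hz
      rw [Finset.mem_singleton] at hz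
      refine ⟨x, Finset.mem_singleton_self x, ?_⟩
      rw [hG, SimpleGraph.fromEdgeSet_adj]
      refine ⟨?_, hz⟩
      rw [Finset.mem_coe, hF, Finset.mem_union]
      right
      rw [hF1, Finset.mem_sdiff]
      refine ⟨mk_mem_prs.2 ⟨Finset.mem_univ _, Finset.mem_univ _, hz⟩, fun hc => ?_⟩
      rw [mk_mem_prs] at hc
      exact hx hc.2.1
  have h0 : ∀ g : (i : ι) → Fin (s i), ∃ T : Finset (Fin v),
      (Finset.univ.image (fun i => f ⟨i, g i⟩)) ⊆ T ∧ IsMIS G T := by
    intro g
    apply exists_mis_ge
    intro a ha b hb hab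
    obtain ⟨i, -, rfl⟩ := Finset.mem_image.1 ha
    obtain ⟨j, -, rfl⟩ := Finset.mem_image.1 hb
    have h := (hadj _ _).1 hab
    obtain ⟨h1, h2⟩ := h
    simp only at h1
    subst h1
    exact h2 rfl
  choose T hT1 hT2 using h0
  have hinj : Function.Injective
      (fun z : ((i : ι) → Fin (s i)) ⊕ {x : Fin v // x ∉ C} =>
        (Sum.elim (fun g => ⟨T g, hT2 g⟩) (fun x => ⟨{x.1}, hMIS x.1 x.2⟩) z :
          {S : Finset (Fin v) // IsMIS G S})) := by
    rintro (g | x) (g' | y) hgg
    · have hTT : T g = T g' := congrArg Subtype.val hgg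
      congr 1
      funext i
      by_contra hne
      have h1 : f ⟨i, g i⟩ ∈ T g := hT1 g (Finset.mem_image_of_mem _ (Finset.mem_univ i))
      have h2 : f ⟨i, g' i⟩ ∈ T g := by
        rw [hTT]; exact hT1 g' (Finset.mem_image_of_mem _ (Finset.mem_univ i))
      refine (hT2 g).1 _ h1 _ h2 ((hadj _ _).2 ⟨rfl, ?_⟩)
      intro h
      apply hne
      simpa using h
    · exfalso
      have hTT : T g = {y.1} := congrArg Subtype.val hgg
      let i : ι := Classical.arbitrary ι
      have h1 : f ⟨i, g i⟩ ∈ T g := hT1 g (Finset.mem_image_of_mem _ (Finset.mem_univ i))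
      rw [hTT, Finset.mem_singleton] at h1
      apply y.2
      rw [← h1]
      exact Finset.mem_image_of_mem _ (Finset.mem_univ _)
    · exfalso
      have hTT : {x.1} = T g' := congrArg Subtype.val hgg
      let i : ι := Classical.arbitrary ι
      have h1 : f ⟨i, g' i⟩ ∈ T g' := hT1 g' (Finset.mem_image_of_mem _ (Finset.mem_univ i))
      rw [← hTT, Finset.mem_singleton] at h1
      apply x.2
      rw [← h1]
      exact Finset.mem_image_of_mem _ (Finset.mem_univ _)
    · have hxy : ({x.1} : Finset (Fin v)) = {y.1} := congrArg Subtype.val hgg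
      rw [Finset.singleton_inj] at hxy
      congr 1
      exact Subtype.ext hxy
  have h3 := Nat.card_le_card_of_injective _ hinj
  rw [misCount]
  refine le_trans (le_of_eq ?_) h3
  rw [Nat.card_eq_fintype_card, Fintype.card_sum, Fintype.card_pi, Fintype.card_subtype_compl,
    Fintype.card_coe, hCcard, Fintype.card_fin]
  simp

/-- `t` disjoint triangles and `v - 3t` dominating vertices -/
lemma exact_lower {v t : ℕ} (ht : 1 ≤ t) (h : 3 * t ≤ v) :
    3 ^ t + (v - 3 * t) ≤ mu v (v.choose 2 - 9 * t * (t - 1) / 2) := by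
  have : Nonempty (Fin t) := ⟨⟨0, ht⟩⟩
  have h1 := full_core (v := v) (ι := Fin t) (fun _ => 3) (by simp; omega)
  have h32 : Nat.choose 3 2 = 3 := by decide
  simp only [Finset.prod_const, Finset.card_univ, Fintype.card_fin, Finset.sum_const,
    smul_eq_mul, h32] at h1
  have h2 : t * 3 + (v.choose 2 - (t * 3).choose 2) = v.choose 2 - 9 * t * (t - 1) / 2 := by
    have h3 : (t * 3).choose 2 ≤ v.choose 2 := Nat.choose_le_choose 2 (by omega)
    have h4 := two_choose (t * 3)
    obtain ⟨k, rfl⟩ : ∃ k, t = k + 1 := ⟨t - 1, by omega⟩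
    have e1 : (k + 1) * 3 - 1 = 3 * k + 2 := by omega
    rw [e1] at h4
    simp only [Nat.add_sub_cancel]
    have h5 : 2 * ((k + 1) * 3).choose 2 = 9 * (k + 1) * k + 2 * ((k + 1) * 3) := by
      rw [h4]; ring
    omega
  rw [h2] at h1
  have e2 : t * 3 = 3 * t := by ring
  rwa [e2] at h1

end Pool.Agent.Helper432.MISExtra
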