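import Mathlib
import Pool.Agent.Helper432.MIS.Extra

namespace Pool.Agent.Helper432.MISExtra

open Finset Pool.Agent.Helper432.MISBase

attribute [local instance] Classical.propDecidable

/-- Blocks `s i` (cliques, no edges between different blocks), one outside vertex `x` which is not
adjacent to exactly `r i` chosen vertices of block `i` and adjacent to everything else, and all the
other outside vertices dominating. -/
lemma attach_core {v : ℕ} {ι : Type} [Fintype ι] (s r : ι → ℕ) (hr : ∀ i, r i ≤ s i)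
    (i0 : ι) (h0 : r i0 = 0) (hs0 : 0 < s i0) (hm : ∑ i, s i + 1 ≤ v) :
    ∏ i, s i + (v - ∑ i, s i - 1) + ∏ i, max 1 (r i) ≤
      mu v (∑ i, (s i).choose 2 + (v.choose 2 - (∑ i, s i).choose 2) - ∑ i, r i) := by
  obtain ⟨f⟩ : Nonempty ((Σ i, Fin (s i)) ↪ Fin v) := by
    apply Function.Embedding.nonempty_of_card_le
    simpa [Fintype.card_sigma] using (Nat.le_of_succ_le hm)
  set blk : ι → Finset (Fin v) := fun i => Finset.univ.image (fun p : Fin (s i) => f ⟨i, p⟩)
    with hblk
  have hblkmem : ∀ i x, f x ∈ blk i ↔ x.1 = i := by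
    intro i x
    simp only [hblk, Finset.mem_image, Finset.mem_univ, true_and]
    constructor
    · rintro ⟨p, hp⟩
      have := f.injective hp
      rw [← this]
    · rintro rfl
      exact ⟨x.2, rfl⟩
  have hblkcard : ∀ i, (blk i).card = s i := by
    intro i
    rw [hblk]
    simp only
    rw [Finset.card_image_of_injective, Finset.card_univ, Fintype.card_fin]
    intro p q hpq
    have := f.injective hpq
    simpa using this
  set F0 : Finset (Sym2 (Fin v)) := Finset.univ.biUnion (fun i => prs (blk i)) with hF0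
  set C : Finset (Fin v) := Finset.univ.image f with hC
  have hblkC : ∀ i, blk i ⊆ C := by
    intro i z hz
    simp only [hblk, Finset.mem_image, Finset.mem_univ, true_and] at hz
    obtain ⟨p, rfl⟩ := hz
    exact Finset.mem_image_of_mem _ (Finset.mem_univ _)
  have hCcard : C.card = ∑ i, s i := by
    rw [hC, Finset.card_image_of_injective _ f.injective, Finset.card_univ, Fintype.card_sigma]
    simp
  have hF0card : F0.card = ∑ i, (s i).choose 2 := by
    rw [hF0, Finset.card_biUnion]
    · refine Finset.sum_congr rfl (fun i _ => ?_)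
      rw [card_prs, hblkcard]
    · intro i _ j _ hij
      rw [Function.onFun, Finset.disjoint_left]
      intro z hz hz'
      induction z with
      | h x y =>
        rw [mk_mem_prs] at hz hz'
        have hx : x ∈ C := hblkC i hz.1
        obtain ⟨w, -, rfl⟩ := Finset.mem_image.1 hx
        exact hij (((hblkmem i w).1 hz.1).symm.trans ((hblkmem j w).1 hz'.1))
  have hF0C : F0 ⊆ prs C := by
    rw [hF0]
    intro z hz
    obtain ⟨i, -, hi⟩ := Finset.mem_biUnion.1 hz
    exact prs_mono (hblkC i) hi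
  set F1 := prs (Finset.univ : Finset (Fin v)) \ prs C with hF1
  have hF1card : F1.card = v.choose 2 - (∑ i, s i).choose 2 := by
    rw [hF1, Finset.card_sdiff_of_subset (prs_mono (Finset.subset_univ C)), card_prs, card_prs,
      hCcard, Finset.card_univ, Fintype.card_fin]
  have hdisj : Disjoint F0 F1 := by
    rw [Finset.disjoint_left]
    intro z hz hz'
    exact (Finset.mem_sdiff.1 hz').2 (hF0C hz)
  obtain ⟨x, hxC⟩ : ∃ x : Fin v, x ∉ C := by
    by_contra hcon
    push Not at hcon
    have h1 : C = Finset.univ := Finset.eq_univ_iff_forall.2 hcon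
    rw [h1, Finset.card_univ, Fintype.card_fin] at hCcard
    omega
  have hfC : ∀ q, f q ∈ C := fun q => Finset.mem_image_of_mem _ (Finset.mem_univ _)
  have hxf : ∀ q, x ≠ f q := fun q h => hxC (by rw [h]; exact hfC q)
  set R : Finset (Sym2 (Fin v)) := Finset.univ.image
    (fun p : Σ i, Fin (r i) => s(x, f ⟨p.1, Fin.castLE (hr p.1) p.2⟩)) with hR
  have hRcard : R.card = ∑ i, r i := by
    rw [hR, Finset.card_image_of_injective, Finset.card_univ, Fintype.card_sigma]
    · simp
    · rintro ⟨i, a⟩ ⟨j, b⟩ hab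
      simp only [Sym2.eq_iff] at hab
      rcases hab with ⟨_, h⟩ | ⟨h, _⟩
      · have h1 := f.injective h
        rw [Sigma.mk.injEq] at h1
        obtain ⟨h2, h3⟩ := h1
        subst h2
        have h4 := eq_of_heq h3
        have h5 : a = b := Fin.ext (by
          have := congrArg Fin.val h4
          simpa using this)
        rw [h5]
      · exact absurd h (hxf _)
  have hRmem : ∀ q : Σ i, Fin (s i), s(x, f q) ∈ R ↔ (q.2 : ℕ) < r q.1 := by
    intro q
    rw [hR, Finset.mem_image]
    constructor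
    · rintro ⟨p, -, hp⟩
      rw [Sym2.eq_iff] at hp
      rcases hp with ⟨_, h⟩ | ⟨h, _⟩
      · have h1 := f.injective h
        rw [← h1]
        exact p.2.2
      · exact absurd h (hxf _)
    · intro h
      exact ⟨⟨q.1, ⟨q.2, h⟩⟩, Finset.mem_univ _, rfl⟩
  have hRx : ∀ a b : Fin v, s(a, b) ∈ R → (a = x ∧ b ∈ C) ∨ (b = x ∧ a ∈ C) := by
    intro a b h
    rw [hR, Finset.mem_image] at h
    obtain ⟨p, -, hp⟩ := h
    rw [Sym2.eq_iff] at hp
    rcases hp with ⟨h1, h2⟩ | ⟨h1, h2⟩
    · exact Or.inl ⟨h1.symm, by rw [← h2]; exact hfC _⟩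
    · exact Or.inr ⟨h1.symm, by rw [← h2]; exact hfC _⟩
  have hRF1 : R ⊆ F1 := by
    intro z hz
    induction z with
    | h a b =>
      rw [hF1, Finset.mem_sdiff, mk_mem_prs, mk_mem_prs]
      rcases hRx a b hz with ⟨h1, h2⟩ | ⟨h1, h2⟩
      · exact ⟨⟨Finset.mem_univ _, Finset.mem_univ _, fun h => hxC (by rw [← h1, h]; exact h2)⟩,
          fun h => hxC (by rw [← h1]; exact h.1)⟩
      · exact ⟨⟨Finset.mem_univ _, Finset.mem_univ _, fun h => hxC (by rw [← h1, ← h]; exact h2)⟩,
          fun h => hxC (by rw [← h1]; exact h.2.1)⟩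
  set F := (F0 ∪ F1) \ R with hF
  have hFcard : F.card = ∑ i, (s i).choose 2 + (v.choose 2 - (∑ i, s i).choose 2) -
      ∑ i, r i := by
    rw [hF, Finset.card_sdiff_of_subset (hRF1.trans Finset.subset_union_right),
      Finset.card_union_of_disjoint hdisj, hF0card, hF1card, hRcard]
  have hFsub : F ⊆ prs Finset.univ := by
    rw [hF]
    refine Finset.sdiff_subset.trans ?_
    refine Finset.union_subset (hF0C.trans (prs_mono (Finset.subset_univ C))) ?_
    exact Finset.sdiff_subset
  have hedge := card_fromEdge F hFsub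
  rw [hFcard] at hedge
  refine le_trans ?_ (le_mu hedge)
  set G := SimpleGraph.fromEdgeSet (F : Set (Sym2 (Fin v))) with hG
  have hadj : ∀ a b, G.Adj (f a) (f b) ↔ (a.1 = b.1 ∧ a ≠ b) := by
    intro a b
    rw [hG, SimpleGraph.fromEdgeSet_adj]
    constructor
    · rintro ⟨h3, h4⟩
      refine ⟨?_, fun h => h4 (by rw [h])⟩
      rw [Finset.mem_coe, hF, Finset.mem_sdiff, Finset.mem_union] at h3
      rcases h3.1 with h3 | h3
      · obtain ⟨i, -, hi⟩ := Finset.mem_biUnion.1 h3
        rw [mk_mem_prs] at hi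
        exact ((hblkmem i a).1 hi.1).trans ((hblkmem i b).1 hi.2.1).symm
      · exfalso
        apply (Finset.mem_sdiff.1 h3).2
        rw [mk_mem_prs]
        exact ⟨hfC _, hfC _, h4⟩
    · rintro ⟨h3, h4⟩
      have h5 : f a ≠ f b := fun h => h4 (f.injective h)
      refine ⟨?_, h5⟩
      rw [Finset.mem_coe, hF, Finset.mem_sdiff, Finset.mem_union]
      constructor
      · left
        rw [hF0, Finset.mem_biUnion]
        refine ⟨a.1, Finset.mem_univ _, ?_⟩
        rw [mk_mem_prs]
        exact ⟨(hblkmem _ _).2 rfl, (hblkmem _ _).2 h3.symm, h5⟩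
      · intro h
        rcases hRx _ _ h with ⟨h6, _⟩ | ⟨h6, _⟩
        · exact hxf _ h6.symm
        · exact hxf _ h6.symm
  have hF1mem : ∀ a b : Fin v, a ∉ C → a ≠ b → s(a, b) ∈ F1 := by
    intro a b ha hab
    rw [hF1, Finset.mem_sdiff]
    refine ⟨mk_mem_prs.2 ⟨Finset.mem_univ _, Finset.mem_univ _, hab⟩, fun hc => ?_⟩
    rw [mk_mem_prs] at hc
    exact ha hc.1
  have hadjx : ∀ q, G.Adj x (f q) ↔ r q.1 ≤ (q.2 : ℕ) := by
    intro q
    rw [hG, SimpleGraph.fromEdgeSet_adj, Finset.mem_coe, hF, Finset.mem_sdiff, hRmem,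
      Finset.mem_union]
    constructor
    · rintro ⟨⟨_, h⟩, _⟩
      exact not_lt.1 h
    · intro h
      exact ⟨⟨Or.inr (hF1mem x (f q) hxC (hxf q)), not_lt.2 h⟩, hxf q⟩
  have hMIS : ∀ y : Fin v, (y ∉ C ∧ y ≠ x) → IsMIS G {y} := by
    rintro y ⟨hy, hyx⟩
    rw [isMIS_iff]
    refine ⟨?_, ?_⟩
    · intro a ha b hb hab
      rw [Finset.mem_singleton] at ha hb
      subst ha; subst hb
      exact G.loopless.irrefl _ hab
    · intro z hz
      rw [Finset.mem_singleton] at hz
      refine ⟨y, Finset.mem_singleton_self y, ?_⟩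
      apply SimpleGraph.Adj.symm
      rw [hG, SimpleGraph.fromEdgeSet_adj]
      refine ⟨?_, fun h => hz h.symm⟩
      rw [Finset.mem_coe, hF, Finset.mem_sdiff, Finset.mem_union]
      refine ⟨Or.inr (hF1mem y z hy (fun h => hz h.symm)), ?_⟩
      intro h
      rcases hRx _ _ h with ⟨h6, _⟩ | ⟨_, h6⟩
      · exact hyx h6
      · exact hy h6
  have h1T : ∀ g : (i : ι) → Fin (s i), ∃ T : Finset (Fin v),
      (Finset.univ.image (fun i => f ⟨i, g i⟩)) ⊆ T ∧ IsMIS G T := by
    intro g
    apply exists_mis_ge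
    intro a ha b hb hab
    obtain ⟨i, -, rfl⟩ := Finset.mem_image.1 ha
    obtain ⟨j, -, rfl⟩ := Finset.mem_image.1 hb
    have h := (hadj _ _).1 hab
    obtain ⟨h1, h2⟩ := h
    simp only at h1
    subst h1
    exact h2 rfl
  choose T hT1 hT2 using h1T
  have h1W : ∀ g : (i : {i // 0 < r i}) → Fin (r i.1), ∃ T : Finset (Fin v),
      (insert x (Finset.univ.image (fun i : {i // 0 < r i} =>
        f ⟨i.1, Fin.castLE (hr i.1) (g i)⟩))) ⊆ T ∧ IsMIS G T := by
    intro g
    apply exists_mis_ge
    have hxn : ∀ i : {i // 0 < r i}, ¬ G.Adj x (f ⟨i.1, Fin.castLE (hr i.1) (g i)⟩) := by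
      intro i h
      rw [hadjx] at h
      have h2 := (g i).2
      have h3 : ((Fin.castLE (hr i.1) (g i) : Fin (s i.1)) : ℕ) = (g i : ℕ) := rfl
      simp only [h3] at h
      omega
    intro a ha b hb hab
    rw [Finset.mem_insert] at ha hb
    rcases ha with rfl | ha
    · rcases hb with rfl | hb
      · exact G.loopless.irrefl _ hab
      · obtain ⟨j, -, rfl⟩ := Finset.mem_image.1 hb
        exact hxn j hab
    · obtain ⟨i, -, rfl⟩ := Finset.mem_image.1 ha
      rcases hb with rfl | hb
      · exact hxn i hab.symm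
      · obtain ⟨j, -, rfl⟩ := Finset.mem_image.1 hb
        have h := (hadj _ _).1 hab
        obtain ⟨h1, h2⟩ := h
        simp only at h1
        have h3 : i = j := Subtype.ext h1
        subst h3
        exact h2 rfl
  choose W hW1 hW2 using h1W
  have hxW : ∀ g, x ∈ W g := fun g => hW1 g (Finset.mem_insert_self _ _)
  have hfT : ∀ g i, f ⟨i, g i⟩ ∈ T g := fun g i =>
    hT1 g (Finset.mem_image_of_mem _ (Finset.mem_univ i))
  have hfW : ∀ g (i : {i // 0 < r i}), f ⟨i.1, Fin.castLE (hr i.1) (g i)⟩ ∈ W g := fun g i =>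
    hW1 g (Finset.mem_insert_of_mem (Finset.mem_image_of_mem
      (fun i : {i // 0 < r i} => f ⟨i.1, Fin.castLE (hr i.1) (g i)⟩) (Finset.mem_univ i)))
  have hTW : ∀ g g', T g ≠ W g' := by
    intro g g' h
    have h1 := hfT g i0
    have h2 := hxW g'
    rw [← h] at h2
    refine (hT2 g).1 _ h2 _ h1 ((hadjx _).2 ?_)
    simp only [h0]
    exact Nat.zero_le _
  have hTy : ∀ g (y : {y : Fin v // y ∉ C ∧ y ≠ x}), T g ≠ {y.1} := by
    intro g y h
    have h1 := hfT g i0
    rw [h, Finset.mem_singleton] at h1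
    exact y.2.1 (by rw [← h1]; exact hfC _)
  have hWy : ∀ g (y : {y : Fin v // y ∉ C ∧ y ≠ x}), W g ≠ {y.1} := by
    intro g y h
    have h1 := hxW g
    rw [h, Finset.mem_singleton] at h1
    exact y.2.2 h1.symm
  have hinj : Function.Injective
      (fun z : (((i : ι) → Fin (s i)) ⊕ {y : Fin v // y ∉ C ∧ y ≠ x}) ⊕
          ((i : {i // 0 < r i}) → Fin (r i.1)) =>
        (Sum.elim (Sum.elim (fun g => ⟨T g, hT2 g⟩) (fun y => ⟨{y.1}, hMIS y.1 y.2⟩))
          (fun g => ⟨W g, hW2 g⟩) z : {S : Finset (Fin v) // IsMIS G S})) := by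
    rintro ((g | y) | g) ((g' | y') | g') hgg
    · have hTT : T g = T g' := congrArg Subtype.val hgg
      congr 2
      funext i
      by_contra hne
      have h1 := hfT g i
      have h2 : f ⟨i, g' i⟩ ∈ T g := by
        rw [hTT]; exact hfT g' i
      refine (hT2 g).1 _ h1 _ h2 ((hadj _ _).2 ⟨rfl, ?_⟩)
      intro h
      apply hne
      simpa using h
    · exact absurd (congrArg Subtype.val hgg) (hTy g y')
    · exact absurd (congrArg Subtype.val hgg) (hTW g g')
    · exact absurd (congrArg Subtype.val hgg).symm (hTy g' y)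
    · have hxy : ({y.1} : Finset (Fin v)) = {y'.1} := congrArg Subtype.val hgg
      rw [Finset.singleton_inj] at hxy
      congr 2
      exact Subtype.ext hxy
    · exact absurd (congrArg Subtype.val hgg).symm (hWy g' y)
    · exact absurd (congrArg Subtype.val hgg).symm (hTW g' g)
    · exact absurd (congrArg Subtype.val hgg) (hWy g y')
    · have hTT : W g = W g' := congrArg Subtype.val hgg
      congr 1
      funext i
      by_contra hne
      have h1 := hfW g i
      have h2 : f ⟨i.1, Fin.castLE (hr i.1) (g' i)⟩ ∈ W g := by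
        rw [hTT]; exact hfW g' i
      refine (hW2 g).1 _ h1 _ h2 ((hadj _ _).2 ⟨rfl, ?_⟩)
      intro h
      apply hne
      rw [Sigma.mk.injEq] at h
      have h3 := eq_of_heq h.2
      exact Fin.ext (by
        have := congrArg Fin.val h3
        simpa using this)
  have h3 := Nat.card_le_card_of_injective _ hinj
  rw [misCount]
  refine le_trans (le_of_eq ?_) h3
  have hc1 : Fintype.card {y : Fin v // y ∉ C ∧ y ≠ x} = v - ∑ i, s i - 1 := by
    rw [Fintype.card_subtype]
    have h4 : (Finset.univ.filter (fun y : Fin v => y ∉ C ∧ y ≠ x)) = (insert x C)ᶜ := by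
      ext y
      simp only [Finset.mem_filter, Finset.mem_univ, true_and, Finset.mem_compl,
        Finset.mem_insert, not_or]
      exact and_comm
    rw [h4, Finset.card_compl, Finset.card_insert_of_notMem hxC, hCcard, Fintype.card_fin]
    omega
  have hc2 : ∏ i : {i // 0 < r i}, r i.1 = ∏ i, max 1 (r i) := by
    rw [← Finset.prod_subtype (Finset.univ.filter (fun i => 0 < r i)) (by simp) r,
      Finset.prod_filter]
    apply Finset.prod_congr rfl
    intro i _
    split_ifs with h
    · exact (max_eq_right h).symm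
    · have h5 : r i = 0 := by omega
      rw [h5]
      rfl
  rw [Nat.card_eq_fintype_card, Fintype.card_sum, Fintype.card_sum, Fintype.card_pi,
    Fintype.card_pi, hc1]
  simp only [Fintype.card_fin]
  rw [hc2]

end Pool.Agent.Helper432.MISExtra
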