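import Mathlib
import Pool.Agent.Helper432.MIS.Extra

namespace Pool.Agent.Helper432.MISExtra

open Finset Pool.Agent.Helper432.MISBase

attribute [local instance] Classical.propDecidable


/-- removing the closed neighbourhood of `y` destroys at most `∑ deg` edges -/
lemma e2_away_ge {V : Type*} (G : SimpleGraph V) {A : Finset V} {y : V} (hy : y ∈ A) :
    e2 G A ≤ e2 G (away G A y) + 2 * ∑ z ∈ A.filter (fun z => G.Adj y z), dg G A z := by
  have h1 : e2 G A = ∑ z ∈ nb G A y, dg G A z + ∑ z ∈ away G A y, dg G A z := by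
    rw [e2, nb, away]
    exact (Finset.sum_filter_add_sum_filter_not _ _ _).symm
  have h2 : nb G A y = insert y (A.filter (fun z => G.Adj y z)) := by
    ext z
    simp only [nb, Finset.mem_filter, Finset.mem_insert]
    constructor
    · rintro ⟨h1, h2 | h2⟩
      · exact Or.inl h2
      · exact Or.inr ⟨h1, h2⟩
    · rintro (h | h)
      · subst h; exact ⟨hy, Or.inl rfl⟩
      · exact ⟨h.1, Or.inr h.2⟩
  have h3 : ∑ z ∈ nb G A y, dg G A z =
      dg G A y + ∑ z ∈ A.filter (fun z => G.Adj y z), dg G A z := by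
    rw [h2, Finset.sum_insert]
    simp
  have h4 : dg G A y = ∑ z ∈ A.filter (fun z => G.Adj y z), 1 := by
    rw [Finset.sum_const, smul_eq_mul, mul_one, dg]
  have h5 : ∀ z ∈ away G A y, dg G A z ≤ dg G (away G A y) z +
      ∑ w ∈ A.filter (fun w => G.Adj y w), (if G.Adj z w then 1 else 0) := by
    intro z hz
    rw [← Finset.card_filter, dg, dg]
    refine (Finset.card_le_card ?_).trans (Finset.card_union_le _ _)
    intro w hw
    rw [Finset.mem_filter] at hw
    simp only [Finset.mem_union, Finset.mem_filter, away, not_or] at hz ⊢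
    by_cases hyw : G.Adj y w
    · exact Or.inr ⟨⟨hw.1, hyw⟩, hw.2⟩
    · refine Or.inl ⟨⟨hw.1, ?_, hyw⟩, hw.2⟩
      rintro rfl
      exact hz.2.2 hw.2.symm
  have h6 : ∑ z ∈ away G A y, ∑ w ∈ A.filter (fun w => G.Adj y w),
      (if G.Adj z w then 1 else 0) ≤
      ∑ w ∈ A.filter (fun w => G.Adj y w), (dg G A w - 1) := by
    rw [Finset.sum_comm]
    refine Finset.sum_le_sum fun w hw => ?_
    rw [Finset.mem_filter] at hw
    rw [← Finset.card_filter]
    have h7 : ((away G A y).filter (fun z => G.Adj z w)).card + 1 ≤ dg G A w := by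
      rw [dg, ← Finset.card_insert_of_notMem (a := y)]
      · refine Finset.card_le_card ?_
        intro z hz
        rw [Finset.mem_insert] at hz
        rcases hz with rfl | hz
        · exact Finset.mem_filter.2 ⟨hy, hw.2.symm⟩
        · simp only [Finset.mem_filter, away] at hz
          exact Finset.mem_filter.2 ⟨hz.1.1, hz.2.symm⟩
      · simp [away]
    omega
  have h8 : ∑ w ∈ A.filter (fun w => G.Adj y w), (dg G A w - 1) +
      ∑ z ∈ A.filter (fun z => G.Adj y z), 1 = ∑ z ∈ A.filter (fun z => G.Adj y z), dg G A z := by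
    rw [← Finset.sum_add_distrib]
    refine Finset.sum_congr rfl fun w hw => ?_
    rw [Finset.mem_filter] at hw
    have : 0 < dg G A w := by
      rw [dg, Finset.card_pos]
      exact ⟨y, Finset.mem_filter.2 ⟨hy, hw.2.symm⟩⟩
    omega
  have h9 : ∑ z ∈ away G A y, dg G A z ≤ e2 G (away G A y) +
      ∑ z ∈ away G A y, ∑ w ∈ A.filter (fun w => G.Adj y w), (if G.Adj z w then 1 else 0) := by
    rw [e2, ← Finset.sum_add_distrib]
    exact Finset.sum_le_sum h5
  omega

/-- a triangle whose three vertices have degree two -/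
lemma e2_tri {V : Type*} (G : SimpleGraph V) {A : Finset V} {x a b : V} (hx : x ∈ A)
    (ha : a ∈ A) (hb : b ∈ A) (hxa : G.Adj x a) (hxb : G.Adj x b) (hab : G.Adj a b)
    (dx : dg G A x = 2) (da : dg G A a = 2) (db : dg G A b = 2) :
    e2 G A = e2 G (away G A x) + 6 := by
  have hN : ∀ u v w : V, v ∈ A → w ∈ A → G.Adj u v → G.Adj u w → v ≠ w → dg G A u = 2 →
      ({v, w} : Finset V) = A.filter (fun z => G.Adj u z) := by
    intro u v w hv hw huv huw hvw hd
    apply Finset.eq_of_subset_of_card_le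
    · intro z hz
      simp only [Finset.mem_insert, Finset.mem_singleton] at hz
      rcases hz with rfl | rfl
      · exact Finset.mem_filter.2 ⟨hv, huv⟩
      · exact Finset.mem_filter.2 ⟨hw, huw⟩
    · rw [Finset.card_pair hvw]
      exact le_of_eq hd
  have Nx := hN x a b ha hb hxa hxb hab.ne dx
  have Na := hN a x b hx hb hxa.symm hab hxb.ne da
  have Nb := hN b x a hx ha hxb.symm hab.symm hxa.ne db
  have mx : ∀ z ∈ A, G.Adj x z → z = a ∨ z = b := fun z hz h => by
    have : z ∈ ({a, b} : Finset V) := by rw [Nx]; exact Finset.mem_filter.2 ⟨hz, h⟩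
    simpa using this
  have ma : ∀ z ∈ A, G.Adj a z → z = x ∨ z = b := fun z hz h => by
    have : z ∈ ({x, b} : Finset V) := by rw [Na]; exact Finset.mem_filter.2 ⟨hz, h⟩
    simpa using this
  have mb : ∀ z ∈ A, G.Adj b z → z = x ∨ z = a := fun z hz h => by
    have : z ∈ ({x, a} : Finset V) := by rw [Nb]; exact Finset.mem_filter.2 ⟨hz, h⟩
    simpa using this
  have h1 : e2 G A = ∑ z ∈ nb G A x, dg G A z + ∑ z ∈ away G A x, dg G A z := by
    rw [e2, nb, away]
    exact (Finset.sum_filter_add_sum_filter_not _ _ _).symm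
  have h2 : nb G A x = {x, a, b} := by
    ext z
    simp only [nb, Finset.mem_filter, Finset.mem_insert, Finset.mem_singleton]
    constructor
    · rintro ⟨h1, h2 | h2⟩
      · exact Or.inl h2
      · exact Or.inr (mx z h1 h2)
    · rintro (rfl | rfl | rfl)
      · exact ⟨hx, Or.inl rfl⟩
      · exact ⟨ha, Or.inr hxa⟩
      · exact ⟨hb, Or.inr hxb⟩
  have h3 : ∑ z ∈ nb G A x, dg G A z = 6 := by
    have q1 : a ∉ ({b} : Finset V) := by
      rw [Finset.mem_singleton]; exact hab.ne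
    have q2 : x ∉ ({a, b} : Finset V) := by
      rw [Finset.mem_insert, Finset.mem_singleton, not_or]
      exact ⟨hxa.ne, hxb.ne⟩
    rw [h2, Finset.sum_insert q2, Finset.sum_insert q1, Finset.sum_singleton, dx, da, db]
    norm_num
  have h4 : ∑ z ∈ away G A x, dg G A z = e2 G (away G A x) := by
    rw [e2]
    refine Finset.sum_congr rfl fun z hz => ?_
    have hz' : z ∈ A ∧ ¬ z = x ∧ ¬ G.Adj x z := by
      simpa only [away, Finset.mem_filter, not_or] using hz
    rw [dg, dg]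
    congr 1
    ext w
    simp only [Finset.mem_filter, away, not_or]
    constructor
    · rintro ⟨hw, hzw⟩
      refine ⟨⟨hw, ?_, ?_⟩, hzw⟩
      · rintro rfl
        exact hz'.2.2 hzw.symm
      · intro hxw
        rcases mx w hw hxw with rfl | rfl
        · rcases ma z hz'.1 hzw.symm with rfl | rfl
          · exact hz'.2.1 rfl
          · exact hz'.2.2 hxb
        · rcases mb z hz'.1 hzw.symm with rfl | rfl
          · exact hz'.2.1 rfl
          · exact hz'.2.2 hxa
    · rintro ⟨hw, hzw⟩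
      exact ⟨hw.1, hzw⟩
  omega


/-- transfer of the inductive bound from `B` to `A` -/
lemma transfer {γ MB : ℝ} (hγ : 0 < γ) {a b m c eA eB : ℕ} (hab : b + m = a)
    (he : eA ≤ eB + 2 * c) (h : MB * (397 / 400 : ℝ) ^ (2 * b) ≤ γ ^ b * (397 / 400) ^ eB) :
    MB * (397 / 400 : ℝ) ^ (2 * a) ≤ γ ^ a * (397 / 400) ^ eA *
      ((397 / 400) ^ (2 * m) / ((397 / 400) ^ (2 * c) * γ ^ m)) := by
  subst hab
  obtain ⟨s, hs⟩ : ∃ s : ℝ, s = 397 / 400 := ⟨_, rfl⟩
  rw [← hs] at h ⊢
  have hs0 : 0 < s := by rw [hs]; norm_num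
  have hs1 : s ≤ 1 := by rw [hs]; norm_num
  have h1 : MB * s ^ (2 * (b + m)) = MB * s ^ (2 * b) * s ^ (2 * m) := by
    rw [mul_add, pow_add]; ring
  have h2 : MB * s ^ (2 * b) * s ^ (2 * m) ≤ γ ^ b * s ^ eB * s ^ (2 * m) :=
    mul_le_mul_of_nonneg_right h (by positivity)
  have h3 : γ ^ (b + m) * s ^ eA * (s ^ (2 * m) / (s ^ (2 * c) * γ ^ m)) =
      γ ^ b * (s ^ eA / s ^ (2 * c)) * s ^ (2 * m) := by
    rw [pow_add]
    field_simp
  have h4 : s ^ eB ≤ s ^ eA / s ^ (2 * c) := by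
    rw [le_div_iff₀ (by positivity), ← pow_add]
    exact pow_le_pow_of_le_one hs0.le hs1 he
  rw [h1, h3]
  refine h2.trans ?_
  apply mul_le_mul_of_nonneg_right _ (by positivity)
  exact mul_le_mul_of_nonneg_left h4 (by positivity)

/-- the inductive statement -/
def cubicP {V : Type*} (G : SimpleGraph V) (γ : ℝ) (A : Finset V) : Prop :=
  ((MI G A).card : ℝ) * (397 / 400 : ℝ) ^ (2 * A.card) ≤
      γ ^ A.card * (397 / 400 : ℝ) ^ (e2 G A)

lemma cubic_transfer {V : Type*} (G : SimpleGraph V) {γ : ℝ} (hγ : 0 < γ) {A B : Finset V}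
    (m c : ℕ) (L k : ℝ) (hc : B.card + m = A.card) (he : e2 G A ≤ e2 G B + 2 * c)
    (hP : cubicP G γ B) (hL : L ≤ γ ^ m) (hk : 0 ≤ k)
    (hnum : (397 / 400 : ℝ) ^ (2 * m) ≤ k * ((397 / 400 : ℝ) ^ (2 * c) * L)) :
    ((MI G B).card : ℝ) * (397 / 400 : ℝ) ^ (2 * A.card) ≤
      γ ^ A.card * (397 / 400 : ℝ) ^ (e2 G A) * k := by
  refine (transfer hγ hc he hP).trans ?_
  apply mul_le_mul_of_nonneg_left _ (by positivity)
  rw [div_le_iff₀ (by positivity)]
  refine hnum.trans ?_
  apply mul_le_mul_of_nonneg_left _ hk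
  exact mul_le_mul_of_nonneg_left hL (by positivity)

lemma cubic_away {V : Type*} (G : SimpleGraph V) {γ : ℝ} (hγ : 0 < γ) {A : Finset V} {y : V}
    (hy : y ∈ A) (m c : ℕ) (L k : ℝ) (hm : dg G A y + 1 = m)
    (hc : ∑ z ∈ A.filter (fun z => G.Adj y z), dg G A z ≤ c)
    (hP : cubicP G γ (away G A y)) (hL : L ≤ γ ^ m) (hk : 0 ≤ k)
    (hnum : (397 / 400 : ℝ) ^ (2 * m) ≤ k * ((397 / 400 : ℝ) ^ (2 * c) * L)) :
    ((MI G (away G A y)).card : ℝ) * (397 / 400 : ℝ) ^ (2 * A.card) ≤
      γ ^ A.card * (397 / 400 : ℝ) ^ (e2 G A) * k := by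
  apply cubic_transfer G hγ m c L k _ _ hP hL hk hnum
  · rw [← hm]; exact card_away G hy
  · have := e2_away_ge G hy
    omega

lemma cubic_nb_eq {V : Type*} (G : SimpleGraph V) {A : Finset V} {x : V} (hx : x ∈ A) :
    nb G A x = insert x (A.filter (fun y => G.Adj x y)) := by
  ext y
  simp only [nb, Finset.mem_filter, Finset.mem_insert]
  constructor
  · rintro ⟨h1, h2 | h2⟩
    · exact Or.inl h2
    · exact Or.inr ⟨h1, h2⟩
  · rintro (h | h)
    · subst h; exact ⟨hx, Or.inl rfl⟩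
    · exact ⟨h.1, Or.inr h.2⟩

lemma cubic_nb_sum {V : Type*} (G : SimpleGraph V) {A : Finset V} {x : V} (hx : x ∈ A)
    (f : V → ℝ) :
    ∑ y ∈ nb G A x, f y = f x + ∑ y ∈ A.filter (fun y => G.Adj x y), f y := by
  rw [cubic_nb_eq G hx, Finset.sum_insert]
  simp

lemma cubic_combine {V : Type*} (G : SimpleGraph V) {γ : ℝ} (hγ : 0 < γ) {A : Finset V} {x : V}
    (hx : x ∈ A) (K : V → ℝ)
    (hK : ∀ y ∈ nb G A x, ((MI G (away G A y)).card : ℝ) * (397 / 400 : ℝ) ^ (2 * A.card) ≤
      γ ^ A.card * (397 / 400 : ℝ) ^ (e2 G A) * K y)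
    (hs : K x + ∑ y ∈ A.filter (fun y => G.Adj x y), K y ≤ 1) : cubicP G γ A := by
  have h1 : ((MI G A).card : ℝ) ≤ ∑ y ∈ nb G A x, ((MI G (away G A y)).card : ℝ) := by
    exact_mod_cast rec1 G hx
  unfold cubicP
  calc ((MI G A).card : ℝ) * (397 / 400 : ℝ) ^ (2 * A.card)
      ≤ (∑ y ∈ nb G A x, ((MI G (away G A y)).card : ℝ)) * (397 / 400 : ℝ) ^ (2 * A.card) :=
        mul_le_mul_of_nonneg_right h1 (by positivity)
    _ = ∑ y ∈ nb G A x, ((MI G (away G A y)).card : ℝ) * (397 / 400 : ℝ) ^ (2 * A.card) := by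
        rw [Finset.sum_mul]
    _ ≤ ∑ y ∈ nb G A x, γ ^ A.card * (397 / 400 : ℝ) ^ (e2 G A) * K y :=
        Finset.sum_le_sum hK
    _ = γ ^ A.card * (397 / 400 : ℝ) ^ (e2 G A) * ∑ y ∈ nb G A x, K y := by
        rw [Finset.mul_sum]
    _ ≤ γ ^ A.card * (397 / 400 : ℝ) ^ (e2 G A) * 1 := by
        apply mul_le_mul_of_nonneg_left _ (by positivity)
        rw [cubic_nb_sum G hx]
        exact hs
    _ = _ := mul_one _

lemma cubic_sum_le {V : Type*} (G : SimpleGraph V) {A : Finset V} {x z : V}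
    (h3 : ∀ x ∈ A, dg G A x ≤ 3) (hx : x ∈ A) (hzx : G.Adj z x) :
    ∑ w ∈ A.filter (fun w => G.Adj z w), dg G A w + 3 ≤ dg G A x + 3 * dg G A z := by
  have hmem : x ∈ A.filter (fun w => G.Adj z w) := Finset.mem_filter.2 ⟨hx, hzx⟩
  have h1 := Finset.add_sum_erase (A.filter (fun w => G.Adj z w)) (fun w => dg G A w) hmem
  have h2 : ∑ w ∈ (A.filter (fun w => G.Adj z w)).erase x, dg G A w ≤
      ((A.filter (fun w => G.Adj z w)).erase x).card • 3 :=
    Finset.sum_le_card_nsmul _ _ _ (fun w hw =>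
      h3 w (Finset.mem_filter.1 (Finset.mem_of_mem_erase hw)).1)
  have h4 := Finset.card_erase_of_mem hmem
  have h5 : 0 < (A.filter (fun w => G.Adj z w)).card := Finset.card_pos.2 ⟨x, hmem⟩
  have h6 : (A.filter (fun w => G.Adj z w)).card = dg G A z := rfl
  simp only [smul_eq_mul] at h2
  rw [h4, h6] at h2
  rw [h6] at h5
  omega

lemma cubic_sum_le' {V : Type*} (G : SimpleGraph V) {A : Finset V} {z : V}
    (h3 : ∀ x ∈ A, dg G A x ≤ 3) :
    ∑ w ∈ A.filter (fun w => G.Adj z w), dg G A w ≤ 3 * dg G A z := by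
  have h2 : ∑ w ∈ (A.filter (fun w => G.Adj z w)), dg G A w ≤
      ((A.filter (fun w => G.Adj z w))).card • 3 :=
    Finset.sum_le_card_nsmul _ _ _ (fun w hw => h3 w (Finset.mem_filter.1 hw).1)
  have h6 : (A.filter (fun w => G.Adj z w)).card = dg G A z := rfl
  simp only [smul_eq_mul] at h2
  rw [h6] at h2
  omega

lemma cubic_gamma {γ : ℝ} (hγ : 0 < γ) (hγ3 : γ ^ 3 = 3) : (1.4422 : ℝ) ≤ γ := by
  by_contra hc
  push Not at hc
  have : γ ^ 3 < 1.4422 ^ 3 := pow_lt_pow_left₀ hc hγ.le (by norm_num)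
  rw [hγ3] at this
  norm_num at this

lemma cubic_case0 {V : Type*} (G : SimpleGraph V) {γ : ℝ} (hγ : 0 < γ) (hγ3 : γ ^ 3 = 3)
    (A : Finset V) (ih : ∀ y ∈ A, cubicP G γ (away G A y)) (x : V) (hx : x ∈ A)
    (hd : dg G A x = 0) : cubicP G γ A := by
  have hg := cubic_gamma hγ hγ3
  have hempty : A.filter (fun y => G.Adj x y) = ∅ := Finset.card_eq_zero.1 hd
  apply cubic_combine G hγ hx (fun _ => 1)
  · intro y hy
    rw [cubic_nb_eq G hx, hempty] at hy
    have hyx : y = x := by simpa using hy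
    subst hyx
    apply cubic_away G hγ hx 1 0 1.4422 1 (by rw [hd]) (by rw [hempty]; simp) (ih y hx)
      (by simpa using hg) (by norm_num) (by norm_num)
  · rw [hempty]; simp

lemma cubic_case1 {V : Type*} (G : SimpleGraph V) {γ : ℝ} (hγ : 0 < γ) (hγ3 : γ ^ 3 = 3)
    (A : Finset V) (h3 : ∀ x ∈ A, dg G A x ≤ 3)
    (ih : ∀ y ∈ A, cubicP G γ (away G A y)) (x : V) (hx : x ∈ A)
    (hmin : ∀ z ∈ A, 1 ≤ dg G A z)
    (hd : dg G A x = 1) : cubicP G γ A := by
  have hg := cubic_gamma hγ hγ3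
  have hg2 : (1.4422 : ℝ) ^ 2 ≤ γ ^ 2 := pow_le_pow_left₀ (by norm_num) hg 2
  have hg4 : 3 * (1.4422 : ℝ) ≤ γ ^ 4 := by
    have : γ ^ 4 = 3 * γ := by rw [pow_succ, hγ3]
    rw [this]; linarith
  apply cubic_combine G hγ hx (fun _ => 0.49)
  · intro y hy
    rw [cubic_nb_eq G hx, Finset.mem_insert] at hy
    rcases hy with rfl | hy
    · apply cubic_away G hγ hx 2 3 (1.4422 ^ 2) 0.49 (by rw [hd]) _ (ih y hx)
        hg2 (by norm_num) (by norm_num)
      have := cubic_sum_le' G (z := y) h3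
      omega
    · obtain ⟨hyA, hxy⟩ := Finset.mem_filter.1 hy
      have hs := cubic_sum_le G h3 hx hxy.symm
      have h1 := h3 y hyA
      have h2 := hmin y hyA
      have h5 : dg G A y = 1 ∨ dg G A y = 2 ∨ dg G A y = 3 := by omega
      rcases h5 with h5 | h5 | h5
      · exact cubic_away G hγ hyA 2 1 (1.4422 ^ 2) 0.49 (by rw [h5]) (by omega) (ih y hyA)
          hg2 (by norm_num) (by norm_num)
      · exact cubic_away G hγ hyA 3 4 3 0.49 (by rw [h5]) (by omega) (ih y hyA)
          hγ3.ge (by norm_num) (by norm_num)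
      · exact cubic_away G hγ hyA 4 7 (3 * 1.4422) 0.49 (by rw [h5]) (by omega) (ih y hyA)
          hg4 (by norm_num) (by norm_num)
  · have h6 : (A.filter (fun w => G.Adj x w)).card = dg G A x := rfl
    rw [Finset.sum_const, h6, hd]
    norm_num

lemma cubic_case2a {V : Type*} (G : SimpleGraph V) {γ : ℝ} (hγ : 0 < γ) (hγ3 : γ ^ 3 = 3)
    (A : Finset V) (h3 : ∀ x ∈ A, dg G A x ≤ 3)
    (ih : ∀ y ∈ A, cubicP G γ (away G A y)) (x y : V) (hx : x ∈ A) (hy : y ∈ A)
    (hmin : ∀ z ∈ A, 2 ≤ dg G A z) (hxy : G.Adj x y)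
    (hd : dg G A x = 2) (hdy : dg G A y = 3) : cubicP G γ A := by
  have hg := cubic_gamma hγ hγ3
  have hg2 : (1.4422 : ℝ) ^ 2 ≤ γ ^ 2 := pow_le_pow_left₀ (by norm_num) hg 2
  have hg4 : 3 * (1.4422 : ℝ) ≤ γ ^ 4 := by
    have : γ ^ 4 = 3 * γ := by rw [pow_succ, hγ3]
    rw [this]; linarith
  apply cubic_combine G hγ hx (fun w => if w = x then 0.35 else if w = y then 0.25 else 0.35)
  · intro w hw
    rw [cubic_nb_eq G hx, Finset.mem_insert] at hw
    rcases hw with rfl | hw
    · rw [if_pos rfl]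
      apply cubic_away G hγ hx 3 6 3 0.35 (by rw [hd]) _ (ih w hx)
        hγ3.ge (by norm_num) (by norm_num)
      have := cubic_sum_le' G (z := w) h3
      omega
    · obtain ⟨hwA, hxw⟩ := Finset.mem_filter.1 hw
      have hwx : w ≠ x := fun h => hxw.ne h.symm
      have hs := cubic_sum_le G h3 hx hxw.symm
      have h1 := h3 w hwA
      have h2 := hmin w hwA
      rw [if_neg hwx]
      split_ifs with hwy
      · subst hwy
        exact cubic_away G hγ hwA 4 8 (3 * 1.4422) 0.25 (by rw [hdy]) (by omega) (ih w hwA)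
          hg4 (by norm_num) (by norm_num)
      · have h5 : dg G A w = 2 ∨ dg G A w = 3 := by omega
        rcases h5 with h5 | h5
        · exact cubic_away G hγ hwA 3 5 3 0.35 (by rw [h5]) (by omega) (ih w hwA)
            hγ3.ge (by norm_num) (by norm_num)
        · exact cubic_away G hγ hwA 4 8 (3 * 1.4422) 0.35 (by rw [h5]) (by omega) (ih w hwA)
            hg4 (by norm_num) (by norm_num)
  · have hmem : y ∈ A.filter (fun w => G.Adj x w) := Finset.mem_filter.2 ⟨hy, hxy⟩
    have h6 : (A.filter (fun w => G.Adj x w)).card = dg G A x := rfl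
    rw [if_pos rfl, ← Finset.add_sum_erase _ _ hmem]
    have hyx : y ≠ x := fun h => hxy.ne h.symm
    rw [if_neg hyx, if_pos rfl]
    have h7 : ∑ w ∈ (A.filter (fun w => G.Adj x w)).erase y,
        (if w = x then (0.35 : ℝ) else if w = y then 0.25 else 0.35) ≤
        ((A.filter (fun w => G.Adj x w)).erase y).card • (0.35 : ℝ) := by
      apply Finset.sum_le_card_nsmul
      intro w _
      split_ifs <;> norm_num
    rw [Finset.card_erase_of_mem hmem, h6, hd] at h7
    norm_num at h7 ⊢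
    linarith

lemma cubic_case3 {V : Type*} (G : SimpleGraph V) {γ : ℝ} (hγ : 0 < γ) (hγ3 : γ ^ 3 = 3)
    (A : Finset V) (h3 : ∀ x ∈ A, dg G A x ≤ 3)
    (ih : ∀ y ∈ A, cubicP G γ (away G A y)) (x : V) (hx : x ∈ A)
    (hmin : ∀ z ∈ A, 3 ≤ dg G A z) : cubicP G γ A := by
  have hg := cubic_gamma hγ hγ3
  have hg4 : 3 * (1.4422 : ℝ) ≤ γ ^ 4 := by
    have : γ ^ 4 = 3 * γ := by rw [pow_succ, hγ3]
    rw [this]; linarith
  have hall : ∀ z ∈ A, dg G A z = 3 := fun z hz => le_antisymm (h3 z hz) (hmin z hz)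
  apply cubic_combine G hγ hx (fun _ => 1 / 4)
  · intro w hw
    have hwA : w ∈ A := nb_subset G A x hw
    apply cubic_away G hγ hwA 4 9 (3 * 1.4422) (1 / 4) (by rw [hall w hwA]) _ (ih w hwA)
      hg4 (by norm_num) (by norm_num)
    have := cubic_sum_le' G (z := w) h3
    have := hall w hwA
    omega
  · have h6 : (A.filter (fun w => G.Adj x w)).card = dg G A x := rfl
    rw [Finset.sum_const, h6, hall x hx]
    norm_num

lemma cubic_case_tri {V : Type*} (G : SimpleGraph V) {γ : ℝ} (hγ : 0 < γ) (hγ3 : γ ^ 3 = 3)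
    (A : Finset V) (ih : ∀ y ∈ A, cubicP G γ (away G A y)) (x a b : V) (hx : x ∈ A)
    (ha : a ∈ A) (hb : b ∈ A) (hxa : G.Adj x a) (hxb : G.Adj x b) (hab : G.Adj a b)
    (dx : dg G A x = 2) (da : dg G A a = 2) (db : dg G A b = 2) : cubicP G γ A := by
  have hfil : A.filter (fun w => G.Adj x w) = {a, b} := by
    symm
    apply Finset.eq_of_subset_of_card_le
    · intro w hw
      rw [Finset.mem_insert, Finset.mem_singleton] at hw
      rcases hw with rfl | rfl
      · exact Finset.mem_filter.2 ⟨ha, hxa⟩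
      · exact Finset.mem_filter.2 ⟨hb, hxb⟩
    · have h6 : (A.filter (fun w => G.Adj x w)).card = dg G A x := rfl
      rw [h6, dx, Finset.card_pair hab.ne]
  have key : ∀ w ∈ A, dg G A w = 2 → e2 G A = e2 G (away G A w) + 6 →
      ((MI G (away G A w)).card : ℝ) * (397 / 400 : ℝ) ^ (2 * A.card) ≤
      γ ^ A.card * (397 / 400 : ℝ) ^ (e2 G A) * (1 / 3) := by
    intro w hw hd he
    apply cubic_transfer G hγ 3 3 3 (1 / 3) _ (by omega) (ih w hw) hγ3.ge (by norm_num)
      (by norm_num)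
    have := card_away G hw
    rw [hd] at this
    exact this
  apply cubic_combine G hγ hx (fun _ => 1 / 3)
  · intro w hw
    rw [cubic_nb_eq G hx, hfil, Finset.mem_insert, Finset.mem_insert, Finset.mem_singleton] at hw
    rcases hw with rfl | rfl | rfl
    · exact key w hx dx (e2_tri G hx ha hb hxa hxb hab dx da db)
    · exact key w ha da (e2_tri G ha hx hb hxa.symm hab hxb da dx db)
    · exact key w hb db (e2_tri G hb hx ha hxb.symm hab.symm hxa db dx da)
  · have h6 : (A.filter (fun w => G.Adj x w)).card = dg G A x := rfl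
    rw [Finset.sum_const, h6, dx]
    norm_num

lemma cubic_dg_erase {V : Type*} (G : SimpleGraph V) (A : Finset V) (x y : V) :
    dg G (A.erase x) y = ((A.filter (fun w => G.Adj y w)).erase x).card := by
  rw [dg]
  congr 1
  ext w
  simp only [Finset.mem_filter, Finset.mem_erase]
  tauto

lemma cubic_case_path {V : Type*} (G : SimpleGraph V) {γ : ℝ} (hγ : 0 < γ) (hγ3 : γ ^ 3 = 3)
    (A : Finset V) (h3 : ∀ x ∈ A, dg G A x ≤ 3)
    (ih : ∀ B : Finset V, B ⊂ A → cubicP G γ B) (x a b : V) (hx : x ∈ A)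
    (ha : a ∈ A) (hb : b ∈ A) (hxa : G.Adj x a) (hxb : G.Adj x b) (hne : a ≠ b)
    (hab : ¬ G.Adj a b)
    (dx : dg G A x = 2) (da : dg G A a = 2) (db : dg G A b = 2)
    (hall : ∀ y ∈ A, G.Adj a y → dg G A y = 2) : cubicP G γ A := by
  have hg := cubic_gamma hγ hγ3
  have hg4 : 3 * (1.4422 : ℝ) ≤ γ ^ 4 := by
    have : γ ^ 4 = 3 * γ := by rw [pow_succ, hγ3]
    rw [this]; linarith
  -- neighbours of `x`
  have hfx : A.filter (fun w => G.Adj x w) = {a, b} := by
    symm
    apply Finset.eq_of_subset_of_card_le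
    · intro w hw
      rw [Finset.mem_insert, Finset.mem_singleton] at hw
      rcases hw with rfl | rfl
      · exact Finset.mem_filter.2 ⟨ha, hxa⟩
      · exact Finset.mem_filter.2 ⟨hb, hxb⟩
    · have h6 : (A.filter (fun w => G.Adj x w)).card = dg G A x := rfl
      rw [h6, dx, Finset.card_pair hne]
  -- the other neighbour of `a`
  have hxmem : x ∈ A.filter (fun w => G.Adj a w) := Finset.mem_filter.2 ⟨hx, hxa.symm⟩
  have hca : ((A.filter (fun w => G.Adj a w)).erase x).card = 1 := by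
    have h6 : (A.filter (fun w => G.Adj a w)).card = dg G A a := rfl
    rw [Finset.card_erase_of_mem hxmem, h6, da]
  obtain ⟨y, hy⟩ := Finset.card_eq_one.1 hca
  have hymem : y ∈ (A.filter (fun w => G.Adj a w)).erase x := by rw [hy]; simp
  obtain ⟨hyx, hy2⟩ := Finset.mem_erase.1 hymem
  obtain ⟨hyA, hay⟩ := Finset.mem_filter.1 hy2
  have hya : y ≠ a := fun h => hay.ne h.symm
  have hyb : y ≠ b := fun h => hab (h ▸ hay)
  have dy : dg G A y = 2 := hall y hyA hay
  have hyx' : ¬ G.Adj x y := by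
    intro h
    have h1 : y ∈ A.filter (fun w => G.Adj x w) := Finset.mem_filter.2 ⟨hyA, h⟩
    rw [hfx] at h1
    simp only [Finset.mem_insert, Finset.mem_singleton] at h1
    rcases h1 with h1 | h1
    · exact hya h1
    · exact hyb h1
  -- the set `B`
  obtain ⟨B, hB⟩ : ∃ B, B = A.erase x := ⟨_, rfl⟩
  have hBA : B ⊂ A := by rw [hB]; exact Finset.erase_ssubset hx
  have haB : a ∈ B := by rw [hB]; exact Finset.mem_erase.2 ⟨hxa.ne.symm, ha⟩
  have hyB : y ∈ B := by rw [hB]; exact Finset.mem_erase.2 ⟨hyx, hyA⟩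
  have hBc : B.card + 1 = A.card := by
    rw [hB]; exact Finset.card_erase_add_one hx
  have hBe : e2 G B + 2 * 2 = e2 G A := by
    have h1 := e2_erase G hx
    rw [dx] at h1
    rw [hB]; exact h1
  have dBa : dg G B a = 1 := by rw [hB, cubic_dg_erase, hca]
  have dBy : dg G B y = 2 := by
    rw [hB, cubic_dg_erase, Finset.erase_eq_of_notMem]
    · exact dy
    · intro h
      exact hyx' (Finset.mem_filter.1 h).2.symm
  have hfa : B.filter (fun w => G.Adj a w) = {y} := by
    rw [← hy, hB]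
    ext w
    simp only [Finset.mem_filter, Finset.mem_erase]
    tauto
  have h3B : ∀ z ∈ B, dg G B z ≤ 3 := fun z hz =>
    (dg_mono G hBA.subset z).trans (h3 z (hBA.subset hz))
  -- the three bounds
  have b1 : ((MI G (away G A x)).card : ℝ) * (397 / 400 : ℝ) ^ (2 * A.card) ≤
      γ ^ A.card * (397 / 400 : ℝ) ^ (e2 G A) * 0.35 := by
    apply cubic_away G hγ hx 3 4 3 0.35 (by rw [dx]) _ (ih _ _) hγ3.ge (by norm_num) (by norm_num)
    · rw [hfx, Finset.sum_pair hne, da, db]
    · exact (away_subset_erase G A x).trans_ssubset (Finset.erase_ssubset hx)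
  have b2 : ((MI G (away G B a)).card : ℝ) * (397 / 400 : ℝ) ^ (2 * A.card) ≤
      γ ^ A.card * (397 / 400 : ℝ) ^ (e2 G A) * 0.35 := by
    apply cubic_transfer G hγ 3 4 3 0.35 _ _ (ih _ _) hγ3.ge (by norm_num) (by norm_num)
    · have := card_away G haB
      omega
    · have h1 := e2_away_ge G haB
      rw [hfa, Finset.sum_singleton, dBy] at h1
      omega
    · exact ((away_subset_erase G B a).trans_ssubset (Finset.erase_ssubset haB)).trans hBA
  have b3 : ((MI G (away G B y)).card : ℝ) * (397 / 400 : ℝ) ^ (2 * A.card) ≤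
      γ ^ A.card * (397 / 400 : ℝ) ^ (e2 G A) * 0.25 := by
    apply cubic_transfer G hγ 4 6 (3 * 1.4422) 0.25 _ _ (ih _ _) hg4 (by norm_num) (by norm_num)
    · have := card_away G hyB
      omega
    · have h1 := e2_away_ge G hyB
      have h2 := cubic_sum_le G h3B haB hay.symm
      omega
    · exact ((away_subset_erase G B y).trans_ssubset (Finset.erase_ssubset hyB)).trans hBA
  have r2 : ((MI G A).card : ℝ) ≤ ((MI G B).card : ℝ) + ((MI G (away G A x)).card : ℝ) := by
    rw [hB]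
    exact_mod_cast rec2 G hx
  have r1 : ((MI G B).card : ℝ) ≤ ((MI G (away G B a)).card : ℝ) +
      ((MI G (away G B y)).card : ℝ) := by
    have h1 : ((MI G B).card : ℝ) ≤ ∑ w ∈ nb G B a, ((MI G (away G B w)).card : ℝ) := by
      exact_mod_cast rec1 G haB
    rw [cubic_nb_sum G haB, hfa, Finset.sum_singleton] at h1
    exact h1
  have hR : 0 ≤ γ ^ A.card * (397 / 400 : ℝ) ^ (e2 G A) := by positivity
  unfold cubicP
  calc ((MI G A).card : ℝ) * (397 / 400 : ℝ) ^ (2 * A.card)
      ≤ (((MI G (away G B a)).card : ℝ) + ((MI G (away G B y)).card : ℝ) +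
          ((MI G (away G A x)).card : ℝ)) * (397 / 400 : ℝ) ^ (2 * A.card) := by
        apply mul_le_mul_of_nonneg_right _ (by positivity)
        linarith
    _ ≤ γ ^ A.card * (397 / 400 : ℝ) ^ (e2 G A) := by
        rw [add_mul, add_mul]
        linarith

/-- the main lemma: graphs of maximum degree three -/
theorem cubic_bound {V : Type*} (G : SimpleGraph V) {γ : ℝ} (hγ : 0 < γ) (hγ3 : γ ^ 3 = 3)
    (A : Finset V) (h3 : ∀ x ∈ A, dg G A x ≤ 3) :
    ((MI G A).card : ℝ) * (397 / 400 : ℝ) ^ (2 * A.card) ≤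
      γ ^ A.card * (397 / 400 : ℝ) ^ (e2 G A) := by
  change cubicP G γ A
  induction A using Finset.strongInduction with
  | H A ih' =>
    have ih : ∀ B : Finset V, B ⊂ A → cubicP G γ B := fun B hB =>
      ih' B hB (fun z hz => (dg_mono G hB.subset z).trans (h3 z (hB.subset hz)))
    have iha : ∀ y ∈ A, cubicP G γ (away G A y) := fun y hy =>
      ih _ ((away_subset_erase G A y).trans_ssubset (Finset.erase_ssubset hy))
    rcases A.eq_empty_or_nonempty with rfl | hne
    · unfold cubicP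
      rw [MI_empty]
      simp [e2]
    · obtain ⟨x, hx, hmin⟩ := exists_min_dg G hne
      have hx3 := h3 x hx
      have h4 : dg G A x = 0 ∨ dg G A x = 1 ∨ dg G A x = 2 ∨ dg G A x = 3 := by omega
      rcases h4 with h4 | h4 | h4 | h4
      · exact cubic_case0 G hγ hγ3 A iha x hx h4
      · exact cubic_case1 G hγ hγ3 A h3 iha x hx (fun z hz => h4 ▸ hmin z hz) h4
      · have hmin2 : ∀ z ∈ A, 2 ≤ dg G A z := fun z hz => h4 ▸ hmin z hz
        by_cases hc : ∃ u ∈ A, ∃ v ∈ A, G.Adj u v ∧ dg G A u = 2 ∧ dg G A v = 3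
        · obtain ⟨u, hu, v, hv, huv, du, dv⟩ := hc
          exact cubic_case2a G hγ hγ3 A h3 iha u v hu hv hmin2 huv du dv
        · push Not at hc
          have hall : ∀ u ∈ A, dg G A u = 2 → ∀ v ∈ A, G.Adj u v → dg G A v = 2 := by
            intro u hu du v hv huv
            have h5 := hc u hu v hv huv du
            have h6 := h3 v hv
            have h7 := hmin2 v hv
            omega
          have hcard : (A.filter (fun w => G.Adj x w)).card = 2 := h4
          obtain ⟨a, b, hab, hfil⟩ := Finset.card_eq_two.1 hcard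
          have ham : a ∈ A.filter (fun w => G.Adj x w) := by rw [hfil]; simp
          have hbm : b ∈ A.filter (fun w => G.Adj x w) := by rw [hfil]; simp
          obtain ⟨haA, hxa⟩ := Finset.mem_filter.1 ham
          obtain ⟨hbA, hxb⟩ := Finset.mem_filter.1 hbm
          have da := hall x hx h4 a haA hxa
          have db := hall x hx h4 b hbA hxb
          by_cases hadj : G.Adj a b
          · exact cubic_case_tri G hγ hγ3 A iha x a b hx haA hbA hxa hxb hadj h4 da db
          · exact cubic_case_path G hγ hγ3 A h3 ih x a b hx haA hbA hxa hxb hab hadj h4 da db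
              (fun y hy hay => hall a haA da y hy hay)
      · exact cubic_case3 G hγ hγ3 A h3 iha x hx (fun z hz => h4 ▸ hmin z hz)

end Pool.Agent.Helper432.MISExtra
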