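import Mathlib

namespace Pool.Agent.Helper432.MISNum

/-- the Moon-Moser numbers -/
def MM : ℕ → ℕ
  | 0 => 1
  | 1 => 1
  | 2 => 2
  | 3 => 3
  | 4 => 4
  | (n + 5) => 3 * MM (n + 2)

/-- table of the minimal potential for small numbers of non-edges -/
def Tl : List ℕ :=
  [0, 0, 0, 0, 0, 1, 1, 2, 2, 3, 3, 4, 5, 5, 6, 7, 8, 8, 9, 10, 11, 11, 12, 14, 15, 16, 16,
   18, 19, 20, 23, 24, 24, 26, 27, 28, 31, 32, 32, 35, 37, 38, 39, 42, 43, 43, 46, 48, 54, 55,
   56, 59, 60, 60, 69, 69, 71, 72, 73, 82, 85, 86, 86, 95, 95, 97, 98, 99, 108, 111, 120, 121,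
   121, 130, 130, 132, 133, 148, 148, 149, 155, 156, 156, 174, 183, 183, 185, 186, 201, 201,
   228, 228, 229, 230, 231, 236, 263, 263, 265, 266, 281, 281, 308, 308, 309, 310, 311, 316,
   343, 343, 345, 372, 373, 388, 388, 415, 415, 416, 417, 469, 469, 470, 471, 472, 479, 480,
   534, 549, 549, 576, 576, 577, 578, 630, 630, 711, 711, 712, 713, 714, 716, 719, 722, 791,
   818, 818, 819, 820, 872, 872, 953, 953, 954, 955, 956, 958, 961, 964, 1033, 1060, 1141,
   1141, 1142, 1143, 1195, 1195, 1276, 1276, 1277, 1278, 1438, 1438, 1439, 1440, 1441, 1443,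
   1464, 1464, 1465, 1627, 1628, 1680, 1680, 1761, 1761, 1762, 1763, 1923, 1923, 2166, 2166,
   2167, 2168, 2169, 2171, 2174, 2177, 2183, 2356, 2408, 2408, 2489, 2489, 2490, 2491, 2651,
   2651, 2894, 2894, 2895, 2896, 2897, 2899, 2902, 2905, 2911, 3084, 3136, 3136, 3379, 3460,
   3460, 3461, 3462, 3622, 3622, 3865, 3865, 3866, 3867, 4351, 4351, 4352, 4353, 4354, 4356,
   4359, 4362, 4368, 4431, 4917, 4917, 4918, 4919, 5079, 5079, 5322, 5322, 5323, 5324, 5808,
   5808, 6537, 6537, 6538, 6539, 6540, 6542, 6545, 6548, 6554, 6563, 6572, 7104, 7105, 7265,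
   7265, 7508, 7508, 7509, 7510, 7994, 7994, 8723, 8723, 8724, 8725, 8726, 8728, 8731, 8734,
   8740, 8749, 8758, 9290, 9291, 10020, 10180, 10180, 10423, 10423, 10424, 10425, 10909, 10909,
   11638, 11638, 11639, 11640, 13096, 13096, 13097, 13098, 13099, 13101, 13104, 13107, 13113,
   13122, 13131, 13149, 14553, 14796, 14796, 14797, 14798, 15282, 15282, 16011, 16011, 16012,
   16013, 17469, 17469, 19656, 19656, 19657, 19658, 19659, 19661, 19664, 19667, 19673, 19682,
   19691, 19709, 21356, 21356]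

/-- table lookup -/
def T (m : ℕ) : ℕ := Tl.getD m 0

/-- table of small Moon-Moser numbers -/
def Ml : List ℕ := [1, 1, 2, 3, 4, 6, 9, 12, 18, 27, 36, 54, 81, 108, 162, 243, 324, 486, 729,
  972, 1458, 2187, 2916, 4374, 6561, 8748, 13122, 19683]

/-- table lookup -/
def Mg (m : ℕ) : ℕ := Ml.getD m 0

lemma MM_eq_Mg : ∀ d < 28, MM d = Mg d := by decide +kernel

/-- boolean check of the recursion step -/
def stepOK (m : ℕ) : Bool :=
  (List.range 25).all fun d =>
    (d == 0) || Nat.blt (2 * m) (d * (d + 4)) || Nat.ble (T (m - d) + Mg d) (T m + 1)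

lemma stepOK_all : (List.range 338).all stepOK = true := by decide +kernel

/-- boolean check of the caps -/
def capOK (m : ℕ) : Bool :=
  (List.range 28).all fun n =>
    Nat.blt n 3 || Nat.blt (2 * m) (n * (n - 3)) || Nat.ble (Mg n) (T m + n)

lemma capOK_all : (List.range 338).all capOK = true := by decide +kernel

lemma T_step {m d : ℕ} (hm : m ≤ 337) (h1 : 1 ≤ d) (h2 : d * (d + 4) ≤ 2 * m) :
    T (m - d) + MM d ≤ T m + 1 := by
  have hd : d < 25 := by
    by_contra h
    push Not at h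
    have : 25 * (25 + 4) ≤ d * (d + 4) := Nat.mul_le_mul h (by omega)
    omega
  have h3 := List.all_eq_true.1 stepOK_all m (List.mem_range.2 (by omega))
  have h4 := List.all_eq_true.1 h3 d (List.mem_range.2 hd)
  rw [MM_eq_Mg d (by omega)]
  simp only [Bool.or_eq_true, beq_iff_eq, Nat.blt_eq, Nat.ble_eq] at h4
  omega

lemma T_cap {m n : ℕ} (hm : m ≤ 337) (h1 : 3 ≤ n) (h2 : n * (n - 3) ≤ 2 * m) :
    MM n ≤ T m + n := by
  have hd : n < 28 := by
    by_contra h
    push Not at h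
    have : 28 * (28 - 3) ≤ n * (n - 3) := Nat.mul_le_mul h (by omega)
    omega
  have h3 := List.all_eq_true.1 capOK_all m (List.mem_range.2 (by omega))
  have h4 := List.all_eq_true.1 h3 n (List.mem_range.2 hd)
  rw [MM_eq_Mg n (by omega)]
  simp only [Bool.or_eq_true, Nat.blt_eq, Nat.ble_eq] at h4
  omega

end Pool.Agent.Helper432.MISNum
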