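import Mathlib
import Pool.Agent.Helper432.MIS.Num

namespace Pool.Agent.Helper432.MISNum

noncomputable def aa : ℝ := Real.log 3 / 3

noncomputable def g (x : ℝ) : ℝ := Real.exp (aa * x)

lemma log3_lb : (1.09 : ℝ) ≤ Real.log 3 := by
  rw [Real.le_log_iff_exp_le (by norm_num)]
  have h1 : Real.exp 1.09 ^ 100 = Real.exp 1 ^ 109 := by
    rw [← Real.exp_nat_mul, ← Real.exp_nat_mul]
    congr 1
    norm_num
  have h2 : Real.exp 1 ^ 109 ≤ (3 : ℝ) ^ 100 := by
    calc Real.exp 1 ^ 109 ≤ (2.7182818286 : ℝ) ^ 109 :=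
          pow_le_pow_left₀ (Real.exp_pos 1).le Real.exp_one_lt_d9.le _
      _ ≤ 3 ^ 100 := by norm_num
  rw [← h1] at h2
  exact le_of_pow_le_pow_left₀ (by norm_num) (by norm_num) h2

lemma aa_lb : (0.363 : ℝ) ≤ aa := by
  rw [aa]
  have := log3_lb
  linarith

lemma aa_pos : 0 < aa := lt_of_lt_of_le (by norm_num) aa_lb

lemma g_pos (x : ℝ) : 0 < g x := Real.exp_pos _

lemma g_add (x y : ℝ) : g (x + y) = g x * g y := by
  rw [g, g, g, ← Real.exp_add]
  congr 1
  ring

lemma g_mono {x y : ℝ} (h : x ≤ y) : g x ≤ g y := by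
  rw [g, g]
  exact Real.exp_le_exp.2 (mul_le_mul_of_nonneg_left h aa_pos.le)

lemma g_pow (x : ℝ) (k : ℕ) : g x ^ k = g (k * x) := by
  rw [g, g, ← Real.exp_nat_mul]
  congr 1
  ring

lemma g_three (x : ℕ) : g (3 * x) = 3 ^ x := by
  rw [g, aa]
  have : Real.log 3 / 3 * (3 * (x : ℝ)) = x * Real.log 3 := by ring
  rw [this, Real.exp_nat_mul, Real.exp_log (by norm_num)]

lemma g_rpow (x : ℝ) : g x = (3 : ℝ) ^ (x / 3) := by
  rw [g, aa, Real.rpow_def_of_pos (by norm_num)]
  congr 1
  ring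

/-- lower bounds for `g` at rational points -/
lemma le_g_rat {p q : ℕ} (hq : 1 ≤ q) {t : ℝ} (h : t ^ (3 * q) ≤ 3 ^ p) :
    t ≤ g (p / q) := by
  have h1 : g (p / q) ^ (3 * q) = 3 ^ p := by
    rw [g_pow, ← g_three]
    congr 1
    have : (q : ℝ) ≠ 0 := by positivity
    push_cast
    field_simp
  rw [← h1] at h
  exact le_of_pow_le_pow_left₀ (by omega) (g_pos _).le h

lemma g_tangent (x y : ℝ) : g x * (1 + aa * (y - x)) ≤ g y := by
  have h1 : g y = g x * Real.exp (aa * (y - x)) := by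
    rw [g, g, ← Real.exp_add]
    congr 1
    ring
  rw [h1]
  refine mul_le_mul_of_nonneg_left ?_ (g_pos x).le
  have := Real.add_one_le_exp (aa * (y - x))
  linarith

lemma g_tangent' {x y t : ℝ} (_ht : 0 ≤ t) (h : t ≤ g x) (hxy : x ≤ y) :
    t * (1 + 0.363 * (y - x)) ≤ g y := by
  refine le_trans ?_ (g_tangent x y)
  have h1 : (0 : ℝ) ≤ y - x := by linarith
  have h2 : 1 + 0.363 * (y - x) ≤ 1 + aa * (y - x) := by
    have := mul_le_mul_of_nonneg_right aa_lb h1
    linarith
  exact mul_le_mul h h2 (by positivity) (g_pos x).le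

/-- `1 - 3^(-u/3) ≥ 0.3066 u` on `[0,1]` -/
lemma g_drop {z u : ℝ} (h0 : 0 ≤ u) (h1 : u ≤ 1) :
    0.3066 * u * g z ≤ g z - g (z - u) := by
  have h2 : g (z - u) = g z * Real.exp (-(aa * u)) := by
    rw [g, g, ← Real.exp_add]
    congr 1
    ring
  have h3 : Real.exp (-(aa * u)) ≤ (1 - u) + u * Real.exp (-aa) := by
    have := convexOn_exp.2 (Set.mem_univ (0 : ℝ)) (Set.mem_univ (-aa))
      (by linarith : 0 ≤ 1 - u) h0 (by ring)
    simp only [smul_eq_mul, mul_zero, zero_add, Real.exp_zero, mul_one] at this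
    have e1 : u * -aa = -(aa * u) := by ring
    rw [e1] at this
    exact this
  have h4 : Real.exp (-aa) ≤ 0.6934 := by
    have h5 : Real.exp (-aa) ^ 3 = 1 / 3 := by
      rw [← Real.exp_nat_mul, aa]
      have : ((3 : ℕ) : ℝ) * -(Real.log 3 / 3) = - Real.log 3 := by push_cast; ring
      rw [this, Real.exp_neg, Real.exp_log (by norm_num)]
      norm_num
    have h6 : Real.exp (-aa) ^ 3 ≤ (0.6934 : ℝ) ^ 3 := by
      rw [h5]; norm_num
    exact le_of_pow_le_pow_left₀ (by norm_num) (by norm_num) h6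
  have h7 : Real.exp (-(aa * u)) ≤ 1 - 0.3066 * u := by
    have := mul_le_mul_of_nonneg_left h4 h0
    linarith
  rw [h2]
  have h8 := mul_le_mul_of_nonneg_left h7 (g_pos z).le
  nlinarith [g_pos z]

/-- the positive root of `z (z - 3) = 2 m` -/
noncomputable def zz (m : ℕ) : ℝ := (3 + Real.sqrt (9 + 8 * m)) / 2

lemma zz_eq (m : ℕ) : zz m * (zz m - 3) = 2 * m := by
  have h : Real.sqrt (9 + 8 * (m : ℝ)) ^ 2 = 9 + 8 * m := Real.sq_sqrt (by positivity)
  rw [zz]
  nlinarith

lemma zz_ge (m : ℕ) : 3 ≤ zz m := by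
  have h : (3 : ℝ) ≤ Real.sqrt (9 + 8 * (m : ℝ)) := by
    apply Real.le_sqrt_of_sq_le
    have : (0 : ℝ) ≤ m := Nat.cast_nonneg m
    linarith
  rw [zz]
  linarith

lemma le_zz {m : ℕ} {x : ℝ} (h : x * (x - 3) ≤ 2 * m) : x ≤ zz m := by
  have h1 := zz_eq m
  have h2 := zz_ge m
  by_contra h3
  push Not at h3
  nlinarith

lemma zz_le {m : ℕ} {x : ℝ} (hx : 3 / 2 ≤ x) (h : 2 * (m : ℝ) ≤ x * (x - 3)) : zz m ≤ x := by
  have h1 := zz_eq m
  have h2 := zz_ge m
  by_contra h3
  push Not at h3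
  nlinarith

lemma zz_mono {m n : ℕ} (h : m ≤ n) : zz m ≤ zz n := by
  apply le_zz
  rw [zz_eq]
  have : (m : ℝ) ≤ n := by exact_mod_cast h
  linarith

/-- the potential for large arguments -/
noncomputable def ff (m : ℕ) : ℝ := g (zz m) - zz m

lemma g_sub_mono {x y : ℝ} (hx : 3 ≤ x) (hxy : x ≤ y) : g x - x ≤ g y - y := by
  have h1 : (3 : ℝ) ≤ g x := by
    have := g_three 1
    simp only [Nat.cast_one, mul_one, pow_one] at this
    rw [← this]
    exact g_mono hx
  have h2 := g_tangent x y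
  have h3 : 1 ≤ g x * aa := by nlinarith [aa_lb]
  nlinarith

lemma ff_mono {m n : ℕ} (h : m ≤ n) : ff m ≤ ff n := g_sub_mono (zz_ge m) (zz_mono h)

/-- the recursion step for the real potential -/
lemma ff_step {m d : ℕ} (hm : 338 ≤ m) (h1 : 1 ≤ d) (h2 : d * (d + 4) ≤ 2 * m) :
    ff (m - d) + g d ≤ ff m + 1 := by
  have hdm : d ≤ m := by nlinarith
  have hd1 : (1 : ℝ) ≤ d := by exact_mod_cast h1
  set z := zz m with hz
  set z' := zz (m - d) with hz'
  have e1 : z * (z - 3) = 2 * m := zz_eq m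
  have e2 : z' * (z' - 3) = 2 * m - 2 * d := by
    rw [hz', zz_eq, Nat.cast_sub hdm]
    ring
  have e3 : (d : ℝ) * (d + 4) ≤ z * (z - 3) := by
    rw [e1]
    exact_mod_cast h2
  have hz3 : 3 ≤ z := zz_ge m
  have hz3' : 3 ≤ z' := zz_ge _
  have hzz : z' ≤ z := zz_mono (Nat.sub_le m d)
  have hz27 : 27.5 ≤ z := by
    apply le_zz
    have : (338 : ℝ) ≤ m := by exact_mod_cast hm
    norm_num
    linarith
  set u := z - z' with hu
  have hu0 : 0 ≤ u := by linarith
  have hu_eq : u * (2 * z - 3 - u) = 2 * d := by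
    rw [hu]
    nlinarith
  have hu1 : u ≤ 1 := by
    by_contra h
    push Not at h
    have h3 : 2 * z - 4 < 2 * d := by nlinarith
    nlinarith
  have hu2 : 2 * (d : ℝ) ≤ u * (2 * z - 3) := by nlinarith
  have h5 := g_drop (z := z) hu0 hu1
  have e4 : z - u = z' := by rw [hu]; ring
  rw [e4] at h5
  -- main inequality
  set y := z - d with hy
  have hyz : z = d + y := by rw [hy]; ring
  have hgz : g z = g d * g y := by rw [hyz, g_add]
  have key : 2 * (d : ℝ) + 2 * y - 3 ≤ 0.6132 * d * g y := by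
    rcases Nat.lt_or_ge d 23 with hd | hd
    · rcases Nat.lt_or_ge d 4 with hd4 | hd4
      · have hd' : (d : ℝ) ≤ 3 := by exact_mod_cast (by omega : d ≤ 3)
        have hy1 : 24.5 ≤ y := by rw [hy]; linarith
        have h100 : (100 : ℝ) ≤ g 24 := by
          have := g_three 8
          norm_num at this
          rw [this]; norm_num
        have h6 := g_tangent' (by norm_num) h100 (by linarith : (24 : ℝ) ≤ y)
        nlinarith
      · have hd' : (d : ℝ) ≤ 22 := by exact_mod_cast (by omega : d ≤ 22)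
        have hd4' : (4 : ℝ) ≤ d := by exact_mod_cast hd4
        have hy1 : 5.5 ≤ y := by rw [hy]; linarith
        have h100 : (7.49 : ℝ) ≤ g 5.5 := by
          have := le_g_rat (p := 11) (q := 2) (by norm_num) (t := 7.49) (by norm_num)
          have e : ((11 : ℕ) : ℝ) / ((2 : ℕ) : ℝ) = 5.5 := by norm_num
          rwa [e] at this
        have h6 := g_tangent' (by norm_num) h100 hy1
        nlinarith
    · have hd' : (23 : ℝ) ≤ d := by exact_mod_cast hd
      have hy1 : 3.46 ≤ y := by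
        by_contra h
        push Not at h
        have hy0 : z < d + 3.46 := by rw [hy] at h; linarith
        nlinarith
      have h100 : (3.55 : ℝ) ≤ g 3.46 := by
        have := le_g_rat (p := 173) (q := 50) (by norm_num) (t := 3.55) (by norm_num)
        have e : ((173 : ℕ) : ℝ) / ((50 : ℕ) : ℝ) = 3.46 := by norm_num
        rwa [e] at this
      have h6 := g_tangent' (by norm_num) h100 hy1
      nlinarith
  have hgd := g_pos (d : ℝ)
  have h7 : g d * (2 * z - 3) ≤ 0.6132 * d * g z := by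
    rw [hgz]
    have := mul_le_mul_of_nonneg_left key hgd.le
    rw [hyz]
    nlinarith
  have h8 : g d ≤ 0.3066 * u * g z := by
    have h9 : 0.6132 * d * g z ≤ 0.3066 * (u * (2 * z - 3)) * g z := by
      have := mul_le_mul_of_nonneg_right hu2 (g_pos z).le
      nlinarith
    have h10 : g d * (2 * z - 3) ≤ (0.3066 * u * g z) * (2 * z - 3) := by nlinarith
    exact le_of_mul_le_mul_right h10 (by linarith)
  have h11 : ff m = g z - z := rfl
  have h12 : ff (m - d) = g z' - z' := rfl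
  rw [h11, h12]
  linarith

/-- `32 z` rounded down -/
def Pd : List ℕ :=
  [96, 113, 128, 139, 150, 160, 168, 176, 184, 192, 198, 205, 211, 218, 224, 229, 235, 240,
   245, 251, 256, 260, 265, 270, 274, 279, 283, 288, 292, 296, 300, 304, 308, 312, 316, 320,
   323, 327, 331, 334, 338, 341, 345, 348, 352, 355, 358, 361, 365, 368, 371, 374, 377, 380,
   384, 387, 390, 393, 395, 398, 401, 404, 407, 410, 413, 416, 418, 421, 424, 426, 429, 432,
   434, 437, 440, 442, 445, 448, 450, 453, 455, 458, 460, 463, 465, 467, 470, 472, 475, 477,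
   480, 482, 484, 487, 489, 491, 493, 496, 498, 500, 503, 505, 507, 509, 512, 514, 516, 518,
   520, 522, 525, 527, 529, 531, 533, 535, 537, 539, 541, 544, 546, 548, 550, 552, 554, 556,
   558, 560, 562, 564, 566, 568, 570, 572, 574, 576, 577, 579, 581, 583, 585, 587, 589, 591,
   593, 595, 596, 598, 600, 602, 604, 606, 608, 609, 611, 613, 615, 617, 618, 620, 622, 624,
   625, 627, 629, 631, 633, 634, 636, 638, 640, 641, 643, 645, 646, 648, 650, 651, 653, 655,
   657, 658, 660, 662, 663, 665, 667, 668, 670, 672, 673, 675, 676, 678, 680, 681, 683, 684,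
   686, 688, 689, 691, 692, 694, 696, 697, 699, 700, 702, 704, 705, 707, 708, 710, 711, 713,
   714, 716, 717, 719, 720, 722, 723, 725, 727, 728, 730, 731, 733, 734, 736, 737, 738, 740,
   741, 743, 744, 746, 747, 749, 750, 752, 753, 755, 756, 757, 759, 760, 762, 763, 765, 766,
   768, 769, 770, 772, 773, 775, 776, 777, 779, 780, 782, 783, 784, 786, 787, 789, 790, 791,
   793, 794, 795, 797, 798, 800, 801, 802, 804, 805, 806, 808, 809, 810, 812, 813, 814, 816,
   817, 818, 820, 821, 822, 824, 825, 826, 828, 829, 830, 832, 833, 834, 835, 837, 838, 839,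
   841, 842, 843, 844, 846, 847, 848, 850, 851, 852, 853, 855, 856, 857, 858, 860, 861, 862,
   864, 865, 866, 867, 869, 870, 871, 872, 873, 875, 876, 877, 878, 880]

/-- `32 z` rounded up -/
def Pu : List ℕ :=
  [96, 114, 128, 140, 151, 160, 169, 177, 185, 192, 199, 206, 212, 219, 224, 230, 236, 241,
   246, 252, 256, 261, 266, 271, 275, 280, 284, 288, 293, 297, 301, 305, 309, 313, 317, 320,
   324, 328, 332, 335, 339, 342, 346, 349, 352, 356, 359, 362, 366, 369, 372, 375, 378, 381,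
   384, 388, 391, 394, 396, 399, 402, 405, 408, 411, 414, 416, 419, 422, 425, 427, 430, 433,
   435, 438, 441, 443, 446, 448, 451, 454, 456, 459, 461, 464, 466, 468, 471, 473, 476, 478,
   480, 483, 485, 488, 490, 492, 494, 497, 499, 501, 504, 506, 508, 510, 512, 515, 517, 519,
   521, 523, 526, 528, 530, 532, 534, 536, 538, 540, 542, 544, 547, 549, 551, 553, 555, 557,
   559, 561, 563, 565, 567, 569, 571, 573, 575, 576, 578, 580, 582, 584, 586, 588, 590, 592,
   594, 596, 597, 599, 601, 603, 605, 607, 608, 610, 612, 614, 616, 618, 619, 621, 623, 625,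
   626, 628, 630, 632, 634, 635, 637, 639, 640, 642, 644, 646, 647, 649, 651, 652, 654, 656,
   658, 659, 661, 663, 664, 666, 668, 669, 671, 672, 674, 676, 677, 679, 681, 682, 684, 685,
   687, 689, 690, 692, 693, 695, 697, 698, 700, 701, 703, 704, 706, 708, 709, 711, 712, 714,
   715, 717, 718, 720, 721, 723, 724, 726, 728, 729, 731, 732, 734, 735, 736, 738, 739, 741,
   742, 744, 745, 747, 748, 750, 751, 753, 754, 756, 757, 758, 760, 761, 763, 764, 766, 767,
   768, 770, 771, 773, 774, 776, 777, 778, 780, 781, 783, 784, 785, 787, 788, 790, 791, 792,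
   794, 795, 796, 798, 799, 800, 802, 803, 805, 806, 807, 809, 810, 811, 813, 814, 815, 817,
   818, 819, 821, 822, 823, 825, 826, 827, 829, 830, 831, 832, 834, 835, 836, 838, 839, 840,
   842, 843, 844, 845, 847, 848, 849, 851, 852, 853, 854, 856, 857, 858, 859, 861, 862, 863,
   864, 866, 867, 868, 870, 871, 872, 873, 874, 876, 877, 878, 879, 881]

/-- boolean check of `T m ≤ ff m` (`49 ≤ m`) and of `T m ≤ ff m + 2` (`m < 49`) -/
def realOK (m : ℕ) : Bool :=
  let p := Pd.getD m 0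
  let r := Pu.getD m 0
  Nat.ble 96 p && Nat.ble 96 r && Nat.ble (p * (p - 96)) (2 * m * 1024) &&
    Nat.ble (2 * m * 1024) (r * (r - 96)) &&
    Nat.ble ((32 * T m + r - (if m < 49 then 64 else 0)) ^ 96) (3 ^ p * 32 ^ 96)

lemma realOK_all : (List.range 338).all realOK = true := by decide +kernel

lemma real_check {m : ℕ} (hm : m ≤ 337) : ∃ p r : ℕ, 96 ≤ p ∧ 96 ≤ r ∧
    p * (p - 96) ≤ 2 * m * 1024 ∧ 2 * m * 1024 ≤ r * (r - 96) ∧
    (32 * T m + r - (if m < 49 then 64 else 0)) ^ 96 ≤ 3 ^ p * 32 ^ 96 := by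
  have h := List.all_eq_true.1 realOK_all m (List.mem_range.2 (by omega))
  refine ⟨Pd.getD m 0, Pu.getD m 0, ?_⟩
  simp only [realOK, Bool.and_eq_true, Nat.ble_eq] at h
  exact ⟨h.1.1.1.1, h.1.1.1.2, h.1.1.2, h.1.2, h.2⟩

lemma T_le_ff_gen {m : ℕ} (hm : m ≤ 337) :
    (T m : ℝ) ≤ ff m + (if m < 49 then 2 else 0) := by
  obtain ⟨p, r, h1, h4, h2, h3, h5⟩ := real_check hm
  have h2' : (p : ℝ) * (p - 96) ≤ 2 * m * 1024 := by
    have : ((p * (p - 96) : ℕ) : ℝ) ≤ ((2 * m * 1024 : ℕ) : ℝ) := by exact_mod_cast h2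
    rw [Nat.cast_mul, Nat.cast_sub h1] at this
    push_cast at this
    exact this
  have h3' : 2 * (m : ℝ) * 1024 ≤ r * (r - 96) := by
    have : ((2 * m * 1024 : ℕ) : ℝ) ≤ ((r * (r - 96) : ℕ) : ℝ) := by exact_mod_cast h3
    rw [Nat.cast_mul r, Nat.cast_sub h4] at this
    push_cast at this
    exact this
  have hr : (96 : ℝ) ≤ r := by exact_mod_cast h4
  have hzl : (p : ℝ) / 32 ≤ zz m := by
    apply le_zz
    nlinarith
  have hzu : zz m ≤ (r : ℝ) / 32 := by
    apply zz_le
    · linarith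
    · nlinarith
  set c : ℕ := if m < 49 then 64 else 0 with hc
  have hcr : c ≤ 32 * T m + r := by
    rw [hc]; split_ifs <;> omega
  have h6 : (((32 * T m + r - c : ℕ) : ℝ) / 32) ^ 96 ≤ 3 ^ p := by
    rw [div_pow, div_le_iff₀ (by positivity)]
    exact_mod_cast h5
  have h7 := le_g_rat (p := p) (q := 32) (by norm_num) h6
  have h8 : g ((p : ℝ) / ((32 : ℕ) : ℝ)) ≤ g (zz m) := g_mono (by push_cast; exact hzl)
  rw [Nat.cast_sub hcr] at h7
  push_cast at h7 h8
  have hc2 : (c : ℝ) / 32 = if m < 49 then 2 else 0 := by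
    rw [hc]; split_ifs <;> norm_num
  rw [← hc2, ff]
  have h9 : (32 * (T m : ℝ) + r - c) / 32 = T m + r / 32 - c / 32 := by ring
  rw [h9] at h7
  linarith

lemma T_le_ff {m : ℕ} (h : 49 ≤ m) (hm : m ≤ 337) : (T m : ℝ) ≤ ff m := by
  have := T_le_ff_gen hm
  rw [if_neg (by omega)] at this
  linarith

/-- the potential -/
noncomputable def Phi (m : ℕ) : ℝ := if m ≤ 337 then (T m : ℝ) else ff m

lemma MM_le_g (n : ℕ) : (MM n : ℝ) ≤ g n := by
  have key : ∀ n, MM n ^ 3 ≤ 3 ^ n := by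
    intro n
    induction n using MM.induct with
    | case1 => norm_num [MM]
    | case2 => norm_num [MM]
    | case3 => norm_num [MM]
    | case4 => norm_num [MM]
    | case5 => norm_num [MM]
    | case6 n ih =>
      rw [MM]
      calc (3 * MM (n + 2)) ^ 3 = 27 * MM (n + 2) ^ 3 := by ring
        _ ≤ 27 * 3 ^ (n + 2) := Nat.mul_le_mul_left _ ih
        _ = 3 ^ (n + 5) := by ring
  have := le_g_rat (p := n) (q := 1) (by norm_num) (t := MM n) (by
    exact_mod_cast key n)
  simpa using this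

lemma Phi_step {m d : ℕ} (h1 : 1 ≤ d) (h2 : d * (d + 4) ≤ 2 * m) :
    Phi (m - d) + MM d ≤ Phi m + 1 := by
  rcases Nat.lt_or_ge 337 m with hm | hm
  · have h3 : ff (m - d) + g d ≤ ff m + 1 := ff_step (by omega) h1 h2
    have h4 := MM_le_g d
    have h5 : Phi (m - d) ≤ ff (m - d) := by
      rw [Phi]
      split_ifs with h6
      · apply T_le_ff _ h6
        by_contra h7
        push Not at h7
        have h8 : 290 ≤ d := by omega
        have h9 : 290 * (d + 4) ≤ d * (d + 4) := Nat.mul_le_mul_right _ h8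
        omega
      · exact le_rfl
    have h6 : Phi m = ff m := by rw [Phi, if_neg (by omega)]
    rw [h6]
    linarith
  · rw [Phi, Phi, if_pos hm, if_pos (by omega)]
    have := T_step hm h1 h2
    exact_mod_cast this

lemma Phi_cap {m n : ℕ} (h1 : 3 ≤ n) (h2 : n * (n - 3) ≤ 2 * m) :
    (MM n : ℝ) ≤ Phi m + n := by
  rcases Nat.lt_or_ge 337 m with hm | hm
  · rw [Phi, if_neg (by omega), ff]
    have h3 : (n : ℝ) ≤ zz m := by
      apply le_zz
      have : ((n * (n - 3) : ℕ) : ℝ) ≤ ((2 * m : ℕ) : ℝ) := by exact_mod_cast h2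
      rw [Nat.cast_mul, Nat.cast_sub h1] at this
      push_cast at this
      exact this
    have h4 := g_sub_mono (by exact_mod_cast h1) h3
    have h5 := MM_le_g n
    linarith
  · rw [Phi, if_pos hm]
    have := T_cap hm h1 h2
    exact_mod_cast this

lemma Phi_exact {t : ℕ} (ht : 1 ≤ t) : Phi (9 * t * (t - 1) / 2) + 3 * t = 3 ^ t := by
  rcases Nat.lt_or_ge 337 (9 * t * (t - 1) / 2) with hm | hm
  · rw [Phi, if_neg (by omega), ff]
    have h3 : zz (9 * t * (t - 1) / 2) = 3 * t := by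
      obtain ⟨s, rfl⟩ : ∃ s, t = s + 1 := ⟨t - 1, by omega⟩
      have h4 : 2 ∣ 9 * (s + 1) * (s + 1 - 1) := by
        simp only [Nat.add_sub_cancel]
        have := Nat.even_mul_succ_self s
        obtain ⟨k, hk⟩ := this
        exact ⟨9 * k, by rw [mul_assoc, mul_comm (s + 1) s, hk]; ring⟩
      have h5 : (2 : ℝ) * ((9 * (s + 1) * (s + 1 - 1) / 2 : ℕ) : ℝ) = 9 * (s + 1) * s := by
        rw [Nat.cast_div h4 (by norm_num)]
        simp only [Nat.add_sub_cancel]
        push_cast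
        ring
      apply le_antisymm
      · apply zz_le
        · push_cast
          have : (0 : ℝ) ≤ s := Nat.cast_nonneg s
          linarith
        · rw [h5]; push_cast; ring_nf; exact le_rfl
      · apply le_zz
        rw [h5]; push_cast; ring_nf; exact le_rfl
    rw [h3, g_three]
    ring
  · have ht9 : t < 10 := by
      by_contra h
      push Not at h
      have h4 : 9 * 10 * 9 ≤ 9 * t * (t - 1) := Nat.mul_le_mul (by omega) (by omega)
      have h5 : 9 * 10 * 9 / 2 ≤ 9 * t * (t - 1) / 2 := Nat.div_le_div_right h4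
      omega
    rw [Phi, if_pos hm]
    have key : ∀ t < 10, 1 ≤ t → T (9 * t * (t - 1) / 2) + 3 * t = 3 ^ t := by decide +kernel
    exact_mod_cast key t ht9 ht

lemma Phi_le (m : ℕ) : Phi m ≤ ff m + (if m < 49 then 2 else 0) := by
  rw [Phi]
  split_ifs with h1 h2 h2
  · have := T_le_ff_gen h1
    rwa [if_pos h2] at this
  · have := T_le_ff_gen h1
    rwa [if_neg h2] at this
  · omega
  · simp

end Pool.Agent.Helper432.MISNum
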