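import Mathlib
import Pool.Agent.Helper432.MIS.Extra
import Pool.Agent.Helper432.MIS.Real

namespace Pool.Agent.Helper432.MISNum

open Finset Pool.Agent.Helper432.MISBase

attribute [local instance] Classical.propDecidable

lemma MM_eq : ∀ n, Pool.Agent.Helper432.MISExtra.MM n = MM n := by
  intro n
  induction n using MM.induct with
  | case1 => rfl
  | case2 => rfl
  | case3 => rfl
  | case4 => rfl
  | case5 => rfl
  | case6 n ih => rw [MM, Pool.Agent.Helper432.MISExtra.MM, ih]

/-- A potential: any function satisfying the step and the cap bounds the number of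
maximal independent sets. -/
structure IsPot (Φ : ℕ → ℝ) : Prop where
  nonneg : ∀ m, 0 ≤ Φ m
  step : ∀ m d, 1 ≤ d → d * (d + 4) ≤ 2 * m → Φ (m - d) + MM d ≤ Φ m + 1
  cap : ∀ m n, 3 ≤ n → n * (n - 3) ≤ 2 * m → (MM n : ℝ) ≤ Φ m + n

lemma le_pot {Φ : ℕ → ℝ} (hΦ : IsPot Φ) {V : Type*} (G : SimpleGraph V) (A : Finset V)
    (hA : A.Nonempty) : ∀ N : ℕ, e2 Gᶜ A = 2 * N →
    ((MI G A).card : ℝ) ≤ A.card + Φ N := by
  induction A using Finset.strongInduction with
  | H A ih =>
    intro N hN
    obtain ⟨x, hx, hmin⟩ := exists_min_dg Gᶜ hA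
    have hdx := dg_compl G (A := A) x
    set d := dg Gᶜ A x with hd
    have hc := card_away G hx
    have h1 : ((MI G A).card : ℝ) ≤ (MI G (A.erase x)).card + (MI G (away G A x)).card := by
      exact_mod_cast rec2 G hx
    have h2 : ((MI G (away G A x)).card : ℝ) ≤ MM d := by
      rw [hdx, ← MM_eq]
      exact_mod_cast Pool.Agent.Helper432.MISExtra.moon_moser_nat G _
    have h2' : ((MI G A).card : ℝ) ≤ MM A.card := by
      rw [← MM_eq]
      exact_mod_cast Pool.Agent.Helper432.MISExtra.moon_moser_nat G _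
    have hAc : 1 ≤ A.card := Finset.card_pos.2 hA
    have hsum : A.card * d ≤ e2 Gᶜ A := by
      calc A.card * d = ∑ z ∈ A, d := by simp
        _ ≤ _ := Finset.sum_le_sum (fun z hz => hmin z hz)
    rw [hN] at hsum
    have hnn := hΦ.nonneg N
    rcases Nat.lt_or_ge (d + 3) A.card with hd4 | hd4
    · -- the number of non-neighbours is at most `|A| - 4`
      have he : (A.erase x).Nonempty := by
        rw [← Finset.card_pos, Finset.card_erase_of_mem hx]
        omega
      have hcard : ((A.erase x).card : ℝ) = A.card - 1 := by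
        rw [Finset.card_erase_of_mem hx, Nat.cast_sub hAc]; simp
      have he2 := e2_erase Gᶜ hx
      have h3 := ih _ (Finset.erase_ssubset hx) he (N - d) (by omega)
      rw [hcard] at h3
      rcases Nat.eq_zero_or_pos d with h0 | h0
      · rw [h0] at h2 h3
        simp only [Nat.sub_zero] at h3
        have : (MM 0 : ℝ) = 1 := by norm_num [MM]
        linarith
      · have h4 : d * (d + 4) ≤ 2 * N := by
          have : (d + 4) * d ≤ A.card * d := Nat.mul_le_mul_right d hd4
          rw [mul_comm (d + 4) d] at this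
          exact this.trans hsum
        have h5 := hΦ.step N d h0 h4
        linarith
    · -- every vertex has degree at most two
      rcases Nat.lt_or_ge A.card 3 with h3 | h3
      · have h4 : MM A.card ≤ A.card := by
          interval_cases A.card <;> simp [MM]
        have h5 : (MM A.card : ℝ) ≤ A.card := by exact_mod_cast h4
        linarith
      · have h4 : A.card * (A.card - 3) ≤ 2 * N := by
          refine le_trans (Nat.mul_le_mul_left _ ?_) hsum
          omega
        have := hΦ.cap N A.card h3 h4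
        linarith

lemma ff_nonneg (m : ℕ) : 0 ≤ ff m := by
  have h := ff_mono (Nat.zero_le m)
  have h0 : ff 0 = 0 := by
    have : zz 0 = 3 := by
      rw [zz]
      have : Real.sqrt (9 + 8 * ((0 : ℕ) : ℝ)) = 3 := by
        rw [Real.sqrt_eq_iff_mul_self_eq (by norm_num) (by norm_num)]
        norm_num
      rw [this]; norm_num
    rw [ff, this]
    have := g_three 1
    simp only [Nat.cast_one, mul_one, pow_one] at this
    rw [this]; norm_num
  linarith

lemma isPot_Phi : IsPot Phi where
  nonneg m := by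
    rw [Phi]
    split_ifs
    · exact Nat.cast_nonneg _
    · exact ff_nonneg m
  step _ _ h1 h2 := Phi_step h1 h2
  cap _ _ h1 h2 := Phi_cap h1 h2

lemma mu_le_Phi {v e : ℕ} (hv : 1 ≤ v) (he : e ≤ v.choose 2) :
    (mu v e : ℝ) ≤ v + Phi (v.choose 2 - e) := by
  obtain ⟨G, hG, hmu⟩ := exists_attain he
  rw [← hmu, misCount_eq]
  have hne : (Finset.univ : Finset (Fin v)).Nonempty := by
    rw [Finset.univ_nonempty_iff]
    exact ⟨⟨0, hv⟩⟩
  have h3 := le_pot isPot_Phi G Finset.univ hne (v.choose 2 - e) (by rw [e2_compl_univ, hG])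
  rwa [Finset.card_univ, Fintype.card_fin] at h3

lemma mu_exact {v t : ℕ} (ht : 1 ≤ t) (h : 3 * t ≤ v) :
    mu v (v.choose 2 - 9 * t * (t - 1) / 2) = 3 ^ t + (v - 3 * t) := by
  apply le_antisymm
  · have h1 : 9 * t * (t - 1) / 2 ≤ v.choose 2 := by
      have h2 : (3 * t).choose 2 ≤ v.choose 2 := Nat.choose_le_choose 2 h
      refine le_trans ?_ h2
      have h3 := two_choose (3 * t)
      have h4 : 9 * t * (t - 1) ≤ 2 * (3 * t).choose 2 := by
        rw [h3]
        have : 9 * t * (t - 1) = 3 * t * (3 * (t - 1)) := by ring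
        rw [this]
        exact Nat.mul_le_mul_left _ (by omega)
      omega
    have h2 := mu_le_Phi (v := v) (e := v.choose 2 - 9 * t * (t - 1) / 2) (by omega)
      (Nat.sub_le _ _)
    rw [Nat.sub_sub_self h1] at h2
    have h3 := Phi_exact ht
    have h4 : (mu v (v.choose 2 - 9 * t * (t - 1) / 2) : ℝ) ≤
        ((3 ^ t + (v - 3 * t) : ℕ) : ℝ) := by
      rw [Nat.cast_add, Nat.cast_sub h]
      push_cast
      linarith
    exact_mod_cast h4
  · exact Pool.Agent.Helper432.MISExtra.exact_lower ht h

lemma mu_upper {v e : ℕ} (hv : 1 ≤ v) (he : e ≤ v.choose 2) :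
    (mu v e : ℝ) ≤ v - zz (v.choose 2 - e) + (3 : ℝ) ^ (zz (v.choose 2 - e) / 3) +
      (if v.choose 2 - e < 49 then 2 else 0) := by
  have h1 := mu_le_Phi hv he
  have h2 := Phi_le (v.choose 2 - e)
  rw [ff, g_rpow] at h2
  linarith

end Pool.Agent.Helper432.MISNum
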