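import Mathlib
import Pool.Agent.Helper432.MIS.Upper

namespace Pool.Agent.Helper432.MISNum

open Finset Pool.Agent.Helper432.MISBase

attribute [local instance] Classical.propDecidable

/-! ### monotonicity and superadditivity -/

lemma T_mono_all : (List.range 337).all (fun m => Nat.ble (T m) (T (m + 1))) = true := by
  decide +kernel

lemma T_mono1 {m : ℕ} (hm : m < 337) : T m ≤ T (m + 1) := by
  have h := List.all_eq_true.1 T_mono_all m (List.mem_range.2 hm)
  simpa [Nat.ble_eq] using h

lemma Phi_mono : Monotone Phi := by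
  apply monotone_nat_of_le_succ
  intro m
  rcases Nat.lt_trichotomy m 337 with h | h | h
  · rw [Phi, Phi, if_pos (by omega), if_pos (by omega)]
    exact_mod_cast T_mono1 h
  · subst h
    have h1 : Phi 337 = T 337 := by rw [Phi, if_pos le_rfl]
    have h2 : Phi (337 + 1) = ff (337 + 1) := by rw [Phi, if_neg (by omega)]
    rw [h1, h2]
    exact (T_le_ff (by omega) le_rfl).trans (ff_mono (by omega))
  · rw [Phi, Phi, if_neg (by omega), if_neg (by omega)]
    exact ff_mono (by omega)

lemma Phi_le_ff {m : ℕ} (h : 49 ≤ m) : Phi m ≤ ff m := by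
  have := Phi_le m
  rwa [if_neg (by omega), add_zero] at this

lemma Phi_le_g {x : ℕ} {y : ℝ} (hy : 27 ≤ y) (h : 2 * (x : ℝ) ≤ y * (y - 3)) :
    Phi x ≤ g y - y := by
  rcases Nat.lt_or_ge x 49 with hx | hx
  · refine (Phi_mono hx.le).trans ((Phi_le_ff le_rfl).trans (g_sub_mono (zz_ge _) ?_))
    apply zz_le
    · linarith
    · push_cast; nlinarith
  · refine (Phi_le_ff hx).trans (g_sub_mono (zz_ge _) ?_)
    exact zz_le (by linarith) h

lemma MM_pos (n : ℕ) : 1 ≤ MM n := by
  induction n using MM.induct with
  | case1 => simp [MM]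
  | case2 => simp [MM]
  | case3 => simp [MM]
  | case4 => simp [MM]
  | case5 => simp [MM]
  | case6 n ih => rw [MM]; omega

lemma MM_rec (n : ℕ) : MM (n + 5) = 3 * MM (n + 2) := by rw [MM]

lemma MM_super (a b : ℕ) : MM a + MM b ≤ MM (a + b) + 1 := by
  induction a using Nat.strong_induction_on generalizing b with
  | _ a ih =>
    rcases Nat.lt_or_ge a 5 with ha | ha
    · induction b using Nat.strong_induction_on with
      | _ b ihb =>
        rcases Nat.lt_or_ge b 5 with hb | hb
        · interval_cases a <;> interval_cases b <;> decide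
        · obtain ⟨c, rfl⟩ : ∃ c, b = c + 5 := ⟨b - 5, by omega⟩
          have h1 := ihb (c + 2) (by omega)
          have e : a + (c + 5) = (a + c) + 5 := by ring
          have e2 : a + (c + 2) = a + c + 2 := by ring
          rw [e2] at h1
          rw [e, MM_rec, MM_rec]
          have := MM_pos a
          omega
    · obtain ⟨c, rfl⟩ : ∃ c, a = c + 5 := ⟨a - 5, by omega⟩
      have h1 := ih (c + 2) (by omega) b
      have e : c + 5 + b = (c + b) + 5 := by ring
      have e2 : c + 2 + b = c + b + 2 := by ring
      rw [e2] at h1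
      rw [e, MM_rec, MM_rec]
      have := MM_pos b
      omega

lemma MM_monotone : Monotone MM := by
  apply monotone_nat_of_le_succ
  intro n
  have h := MM_super n 1
  have h1 : MM 1 = 1 := by simp [MM]
  omega

/-! ### the two-phase induction -/

lemma two_phase {V : Type*} (G : SimpleGraph V) {n m₀ : ℕ} (hn : 3 ≤ n)
    (hK : ∀ S d, 2 * S < n → 1 ≤ d → n ≤ 2 * (S + d) → S + d ≤ m₀ → d * (n + 1) ≤ 2 * (m₀ - S) →
      Phi (m₀ - (S + d)) + MM d + MM S + n ≤ MM n + 2)
    (hW : ∀ A : Finset V, A.card = n → ∀ S, 2 ≤ S → 2 * S < n → S ≤ m₀ →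
      e2 Gᶜ A = 2 * (m₀ - S) → (MI G A).card + MM S ≤ MM n + 1)
    (A : Finset V) (hA : n ≤ A.card) : ∀ S, S ≤ m₀ → 2 * S < n → e2 Gᶜ A = 2 * (m₀ - S) →
    (MI G A).card + MM S + n ≤ A.card + MM n + 1 := by
  induction A using Finset.strongInduction with
  | H A ih =>
    intro S hS hSn hN
    have hmm : (MI G A).card ≤ MM A.card := by
      rw [← MM_eq]; exact Pool.Agent.Helper432.MISExtra.moon_moser_nat G _
    rcases Nat.lt_or_ge n A.card with hlt | hge
    · have hAne : A.Nonempty := Finset.card_pos.1 (by omega)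
      obtain ⟨x, hx, hmin⟩ := exists_min_dg Gᶜ hAne
      have hdx := dg_compl G (A := A) x
      set d := dg Gᶜ A x with hd
      have h1 : (MI G A).card ≤ (MI G (A.erase x)).card + (MI G (away G A x)).card :=
        rec2 G hx
      have h2 : (MI G (away G A x)).card ≤ MM d := by
        rw [hdx, ← MM_eq]; exact Pool.Agent.Helper432.MISExtra.moon_moser_nat G _
      have hsum : A.card * d ≤ e2 Gᶜ A := by
        calc A.card * d = ∑ z ∈ A, d := by simp
          _ ≤ _ := Finset.sum_le_sum (fun z hz => hmin z hz)
      rw [hN] at hsum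
      have he2 := e2_erase Gᶜ hx
      rw [← hd, hN] at he2
      have hcard : (A.erase x).card = A.card - 1 := Finset.card_erase_of_mem hx
      rcases Nat.eq_zero_or_pos d with h0 | h0
      · have h3 := ih _ (Finset.erase_ssubset hx) (by omega) S hS hSn (by omega)
        have h4 : MM d = 1 := by rw [h0]; simp [MM]
        omega
      · have hd1 : d * (n + 1) ≤ 2 * (m₀ - S) := by
          have : (n + 1) * d ≤ A.card * d := Nat.mul_le_mul_right d (by omega)
          rw [mul_comm d]
          exact this.trans hsum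
        have hdm : S + d ≤ m₀ := by
          have : d * 2 ≤ d * (n + 1) := Nat.mul_le_mul_left d (by omega)
          omega
        rcases Nat.lt_or_ge (2 * (S + d)) n with h5 | h5
        · have h3 := ih _ (Finset.erase_ssubset hx) (by omega) (S + d) hdm h5 (by omega)
          have h6 := MM_super S d
          omega
        · have h3 := le_pot isPot_Phi G (A.erase x) (Finset.card_pos.1 (by omega))
            (m₀ - (S + d)) (by omega)
          have h6 := hK S d hSn h0 h5 hdm hd1
          have h7 : ((MI G A).card : ℝ) + MM S + n ≤ A.card + MM n + 1 := by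
            have e1 : ((MI G A).card : ℝ) ≤ (MI G (A.erase x)).card + MM d := by
              exact_mod_cast h1.trans (Nat.add_le_add_left h2 _)
            have e2 : ((A.erase x).card : ℝ) = A.card - 1 := by
              rw [hcard, Nat.cast_sub (by omega)]; simp
            rw [e2] at h3
            linarith
          exact_mod_cast h7
    · have hAn : A.card = n := le_antisymm hge hA
      rw [hAn] at hmm ⊢
      rcases Nat.lt_or_ge S 2 with h5 | h5
      · have : MM S = 1 := by interval_cases S <;> simp [MM]
        omega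
      · have := hW A hAn S h5 hSn hS hN
        omega

/-! ### closed forms -/

lemma MM_three_mul (q : ℕ) : MM (3 * q) = 3 ^ q := by
  rw [← MM_eq]; exact Pool.Agent.Helper432.MISExtra.MM_three_mul q

lemma MM_three_mul_add_two (q : ℕ) : MM (3 * q + 2) = 2 * 3 ^ q := by
  rw [← MM_eq]; exact Pool.Agent.Helper432.MISExtra.MM_three_mul_add_two q

lemma MM_three_mul_add_four (q : ℕ) : MM (3 * q + 4) = 4 * 3 ^ q := by
  rw [← MM_eq]; exact Pool.Agent.Helper432.MISExtra.MM_three_mul_add_four q

/-- upper bounds for `g` at rational points -/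
lemma g_rat_le {p q : ℕ} (hq : 1 ≤ q) {t : ℝ} (ht : 0 ≤ t) (h : 3 ^ p ≤ t ^ (3 * q)) :
    g (p / q) ≤ t := by
  have h1 : g (p / q) ^ (3 * q) = 3 ^ p := by
    rw [g_pow, ← g_three]
    congr 1
    have : (q : ℝ) ≠ 0 := by positivity
    push_cast
    field_simp
  rw [← h1] at h
  exact le_of_pow_le_pow_left₀ (by omega) ht h

lemma MM_half {n S : ℕ} (hn : 28 ≤ n) (h : 2 * S < n) : (MM S : ℝ) ≤ 0.006 * g n := by
  have h1 : (S : ℝ) + 14 ≤ n := by
    have : S + 14 ≤ n := by omega
    exact_mod_cast this
  have h2 : g (S + 14) ≤ g n := g_mono h1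
  rw [g_add] at h2
  have h3 : (168 : ℝ) ≤ g 14 := by
    have := le_g_rat (p := 14) (q := 1) (by norm_num) (t := 168) (by norm_num)
    norm_num at this
    exact this
  have h4 := MM_le_g S
  have h5 := g_pos (S : ℝ)
  nlinarith

/-- the number of edges of the sparsest Moon-Moser graph on `n` vertices -/
def mm (n : ℕ) : ℕ :=
  if n % 3 = 0 then n * (n - 3) / 2
  else if n % 3 = 1 then (n - 4) * (n + 1) / 2
  else (n - 1) * (n - 2) / 2

end Pool.Agent.Helper432.MISNum
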