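import Mathlib
import Pool.Agent.Helper432.MIS.Sharp

namespace Pool.Agent.Helper432.MISNum

open Finset Pool.Agent.Helper432.MISBase

attribute [local instance] Classical.propDecidable

/-- one deletion step -/
lemma one_step {V : Type*} (G : SimpleGraph V) {A : Finset V} {c : ℕ}
    (h : e2 Gᶜ A < A.card * c) : ∃ x ∈ A, ∃ d, d < c ∧
      (MI G A).card ≤ (MI G (A.erase x)).card + MM d ∧ e2 Gᶜ (A.erase x) + 2 * d = e2 Gᶜ A := by
  have hA : A.Nonempty := by
    rw [Finset.nonempty_iff_ne_empty]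
    rintro rfl
    simp at h
  obtain ⟨x, hx, hmin⟩ := exists_min_dg Gᶜ hA
  have hdx := dg_compl G (A := A) x
  refine ⟨x, hx, dg Gᶜ A x, ?_, ?_, e2_erase Gᶜ hx⟩
  · have hsum : A.card * dg Gᶜ A x ≤ e2 Gᶜ A := by
      calc A.card * dg Gᶜ A x = ∑ z ∈ A, dg Gᶜ A x := by simp
        _ ≤ _ := Finset.sum_le_sum (fun z hz => hmin z hz)
    by_contra h3
    push Not at h3
    have := Nat.mul_le_mul_left A.card h3
    omega
  · refine (rec2 G hx).trans (Nat.add_le_add_left ?_ _)
    rw [hdx, ← MM_eq]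
    exact Pool.Agent.Helper432.MISExtra.moon_moser_nat G _

lemma MI_le_MM {V : Type*} (G : SimpleGraph V) (A : Finset V) : (MI G A).card ≤ MM A.card := by
  rw [← MM_eq]; exact Pool.Agent.Helper432.MISExtra.moon_moser_nat G _

lemma g_split (p : ℕ) (x : ℝ) : g (3 * p + x) = 3 ^ p * g x := by rw [g_add, g_three]

lemma pow_ge {p : ℕ} (hp : 6 ≤ p) : (729 : ℝ) ≤ 3 ^ p := by
  have : (3 : ℝ) ^ 6 ≤ 3 ^ p := pow_le_pow_right₀ (by norm_num) hp
  norm_num at this
  exact this

lemma g10 : g 10 ≤ 39 := by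
  have := g_rat_le (p := 10) (q := 1) (by norm_num) (t := 39) (by norm_num) (by norm_num)
  norm_num at this; exact this

lemma g11 : g 11 ≤ 56.2 := by
  have := g_rat_le (p := 11) (q := 1) (by norm_num) (t := 56.2) (by norm_num) (by norm_num)
  norm_num at this; norm_num; exact this

lemma g12 : g 12 ≤ 81 := by
  have := g_rat_le (p := 12) (q := 1) (by norm_num) (t := 81) (by norm_num) (by norm_num)
  norm_num at this; exact this

lemma g_a {p q : ℕ} (hq : 1 ≤ q) {t y : ℝ} (ht : 0 ≤ t) (h : 3 ^ p ≤ t ^ (3 * q))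
    (hy : y = p / q) : g y ≤ t := by
  rw [hy]; exact g_rat_le hq ht h

lemma g912 : g 9.12 ≤ 28.3 := g_a (p := 228) (q := 25) (by norm_num) (by norm_num)
  (by norm_num) (by norm_num)
lemma g951 : g 9.5 ≤ 32.6 := g_a (p := 19) (q := 2) (by norm_num) (by norm_num)
  (by norm_num) (by norm_num)
lemma g1012 : g 10.12 ≤ 40.8 := g_a (p := 253) (q := 25) (by norm_num) (by norm_num)
  (by norm_num) (by norm_num)
lemma g1023 : g 10.25 ≤ 42.8 := g_a (p := 41) (q := 4) (by norm_num) (by norm_num)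
  (by norm_num) (by norm_num)
lemma g1051 : g 10.6 ≤ 48.6 := g_a (p := 53) (q := 5) (by norm_num) (by norm_num)
  (by norm_num) (by norm_num)
lemma g112 : g 11.2 ≤ 60.6 := g_a (p := 56) (q := 5) (by norm_num) (by norm_num)
  (by norm_num) (by norm_num)
lemma g1151 : g 11.5 ≤ 67.8 := g_a (p := 23) (q := 2) (by norm_num) (by norm_num)
  (by norm_num) (by norm_num)

/-- `Phi x + n ≤ g (n - a) + a` -/
lemma Phi_bd {x n : ℕ} {a : ℝ} (ha : a ≤ 1) (hn : 28 ≤ n)
    (h : 2 * (x : ℝ) ≤ (n - a) * (n - a - 3)) : Phi x + n ≤ g (n - a) + a := by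
  have hn' : (28 : ℝ) ≤ n := by exact_mod_cast hn
  have := Phi_le_g (x := x) (y := n - a) (by linarith) h
  linarith

section r1

variable {p n m₀ : ℕ}

/-- residue one, the step -/
lemma hK1 (hp : 6 ≤ p) (hn : n = 3 * p + 10) (hm : 2 * m₀ = (n - 4) * (n + 1)) :
    ∀ S d, 2 * S < n → 1 ≤ d → n ≤ 2 * (S + d) → S + d ≤ m₀ → d * (n + 1) ≤ 2 * (m₀ - S) →
      Phi (m₀ - (S + d)) + MM d + MM S + n ≤ MM n + 2 := by
  intro S d hS hd hSd hSm hdn
  have hY := pow_ge hp
  set Y : ℝ := 3 ^ p with hYd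
  have hMn : (MM n : ℝ) = 36 * Y := by
    have : n = 3 * (p + 2) + 4 := by omega
    rw [this, MM_three_mul_add_four]; push_cast; rw [pow_add]; ring
  have hM4 : (MM (n - 4) : ℝ) = 9 * Y := by
    have : n - 4 = 3 * (p + 2) := by omega
    rw [this, MM_three_mul]; push_cast; rw [pow_add]; ring
  have hM5 : (MM (n - 5) : ℝ) = 6 * Y := by
    have : n - 5 = 3 * (p + 1) + 2 := by omega
    rw [this, MM_three_mul_add_two]; push_cast; rw [pow_add]; ring
  have hM8 : (MM (n - 8) : ℝ) = 2 * Y := by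
    have : n - 8 = 3 * p + 2 := by omega
    rw [this, MM_three_mul_add_two]; push_cast; ring
  have hnr : (n : ℝ) = 3 * p + 10 := by rw [hn]; push_cast; ring
  have hn28 : 28 ≤ n := by omega
  have hn28' : (28 : ℝ) ≤ n := by exact_mod_cast hn28
  have hmr : 2 * (m₀ : ℝ) = (n - 4) * (n + 1) := by
    have : ((2 * m₀ : ℕ) : ℝ) = (((n - 4) * (n + 1) : ℕ) : ℝ) := by exact_mod_cast hm
    rw [Nat.cast_mul (n - 4), Nat.cast_sub (by omega)] at this
    push_cast at this
    exact this
  have hx : ((m₀ - (S + d) : ℕ) : ℝ) = m₀ - S - d := by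
    rw [Nat.cast_sub hSm]; push_cast; ring
  have hMS := MM_half hn28 hS
  have hgn : g n ≤ 39 * Y := by
    rw [hnr, g_split]
    have := mul_le_mul_of_nonneg_left g10 (by linarith : 0 ≤ Y)
    linarith
  have hd4 : d ≤ n - 4 := by
    have h1 : d * (n + 1) ≤ (n - 4) * (n + 1) := by omega
    exact Nat.le_of_mul_le_mul_right h1 (by omega)
  rcases Nat.lt_or_ge d (n - 4) with h4 | h4
  · rcases Nat.lt_or_ge d (n - 7) with h7 | h7
    · -- small `d`
      have h1 : (MM d : ℝ) ≤ 2 * Y := by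
        rw [← hM8]; exact_mod_cast MM_monotone (by omega : d ≤ n - 8)
      have h2 := Phi_bd (x := m₀ - (S + d)) (a := 0.5) (by norm_num) hn28 (by
        rw [hx]
        have : (n : ℝ) ≤ 2 * (S + d) := by exact_mod_cast hSd
        nlinarith)
      have h3 : g (n - 0.5) ≤ 32.6 * Y := by
        have : (n : ℝ) - 0.5 = 3 * p + 9.5 := by rw [hnr]; ring
        rw [this, g_split]
        have := mul_le_mul_of_nonneg_left g951 (by linarith : 0 ≤ Y)
        linarith
      rw [hMn]
      linarith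
    · have h1 : (MM d : ℝ) ≤ 6 * Y := by
        rw [← hM5]; exact_mod_cast MM_monotone (by omega : d ≤ n - 5)
      have h2 := Phi_bd (x := m₀ - (S + d)) (a := 0.88) (by norm_num) hn28 (by
        rw [hx]
        have h8 : (n : ℝ) - 7 ≤ d := by
          have : n ≤ d + 7 := by omega
          have : (n : ℝ) ≤ d + 7 := by exact_mod_cast this
          linarith
        have h9 : (0 : ℝ) ≤ S := Nat.cast_nonneg S
        nlinarith)
      have h3 : g (n - 0.88) ≤ 28.3 * Y := by
        have : (n : ℝ) - 0.88 = 3 * p + 9.12 := by rw [hnr]; ring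
        rw [this, g_split]
        have := mul_le_mul_of_nonneg_left g912 (by linarith : 0 ≤ Y)
        linarith
      rw [hMn]
      linarith
  · -- `d = n - 4`
    have hdd : d = n - 4 := by omega
    subst hdd
    have hS0 : S = 0 := by omega
    subst hS0
    have h2 := Phi_bd (x := m₀ - (0 + (n - 4))) (a := 1) le_rfl hn28 (by
      rw [hx, Nat.cast_sub (by omega : 4 ≤ n)]
      push_cast
      nlinarith)
    have h3 : g (n - 1) = 27 * Y := by
      have : (n : ℝ) - 1 = 3 * ((p + 3 : ℕ) : ℝ) := by rw [hnr]; push_cast; ring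
      rw [this, g_three, pow_add]
      ring
    have h0 : (MM 0 : ℝ) = 1 := by norm_num [MM]
    rw [h3] at h2
    rw [hMn, h0, hM4]
    linarith

/-- residue one, the base -/
lemma hW1 (hp : 6 ≤ p) (hn : n = 3 * p + 10) (hm : 2 * m₀ = (n - 4) * (n + 1))
    {V : Type*} (G : SimpleGraph V) :
    ∀ A : Finset V, A.card = n → ∀ S, 2 ≤ S → 2 * S < n → S ≤ m₀ →
      e2 Gᶜ A = 2 * (m₀ - S) → (MI G A).card + MM S ≤ MM n + 1 := by
  intro A hA S hS2 hS hSm he
  have hY := pow_ge hp
  have hMn : MM n = 36 * 3 ^ p := by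
    have : n = 3 * (p + 2) + 4 := by omega
    rw [this, MM_three_mul_add_four, pow_add]; ring
  have hM1 : MM (n - 1) = 27 * 3 ^ p := by
    have : n - 1 = 3 * (p + 3) := by omega
    rw [this, MM_three_mul, pow_add]; ring
  have hM2 : MM (n - 1 - 1) = 18 * 3 ^ p := by
    have : n - 1 - 1 = 3 * (p + 2) + 2 := by omega
    rw [this, MM_three_mul_add_two, pow_add]; ring
  have hM4 : MM (n - 4) = 9 * 3 ^ p := by
    have : n - 4 = 3 * (p + 2) := by omega
    rw [this, MM_three_mul, pow_add]; ring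
  have hM5 : MM (n - 5) = 6 * 3 ^ p := by
    have : n - 5 = 3 * (p + 1) + 2 := by omega
    rw [this, MM_three_mul_add_two, pow_add]; ring
  have hMS : MM S ≤ 3 ^ p := by
    have h1 := MM_half (by omega : 28 ≤ n) hS
    have hnr : (n : ℝ) = 3 * p + 10 := by rw [hn]; push_cast; ring
    have hgn : g n ≤ 39 * 3 ^ p := by
      rw [hnr, g_split]
      have := mul_le_mul_of_nonneg_left g10 (by linarith : (0 : ℝ) ≤ 3 ^ p)
      linarith
    have : (MM S : ℝ) ≤ 3 ^ p := by linarith
    exact_mod_cast this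
  obtain ⟨x, hx, d, hd, h1, h2⟩ := one_step G (A := A) (c := n - 3) (by
    rw [hA, he]
    obtain ⟨k, rfl⟩ : ∃ k, n = k + 4 := ⟨n - 4, by omega⟩
    have e1 : k + 4 - 3 = k + 1 := by omega
    have e2 : k + 4 - 4 = k := by omega
    rw [e1]; rw [e2] at hm
    have e3 : 2 * (m₀ - S) ≤ k * (k + 4 + 1) - 4 := by omega
    have e4 : k * (k + 4 + 1) ≤ (k + 4) * (k + 1) := by ring_nf; omega
    have e5 : 0 < (k + 4) * (k + 1) := by positivity
    omega)
  have hc : (A.erase x).card = n - 1 := by rw [Finset.card_erase_of_mem hx, hA]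
  rcases Nat.lt_or_ge d (n - 4) with h4 | h4
  · have h3 := MI_le_MM G (A.erase x)
    rw [hc, hM1] at h3
    have h5 : MM d ≤ MM (n - 5) := MM_monotone (by omega)
    rw [hM5] at h5
    omega
  · have hdd : d = n - 4 := by omega
    subst hdd
    obtain ⟨y, hy, d', hd', h1', h2'⟩ := one_step G (A := A.erase x) (c := n - 4) (by
      rw [hc]
      obtain ⟨k, rfl⟩ : ∃ k, n = k + 4 := ⟨n - 4, by omega⟩
      have e1 : k + 4 - 1 = k + 3 := by omega
      have e2 : k + 4 - 4 = k := by omega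
      rw [e2] at hm h2 ⊢
      rw [e1]
      have e3 : 2 * (m₀ - S) ≤ k * (k + 4 + 1) - 4 := by omega
      have e4 : k * (k + 4 + 1) = (k + 3) * k + 2 * k := by ring
      have e5 : 0 < (k + 3) * k := by
        apply Nat.mul_pos <;> omega
      omega)
    have h3 := MI_le_MM G ((A.erase x).erase y)
    rw [Finset.card_erase_of_mem hy, hc, hM2] at h3
    have h5 : MM d' ≤ MM (n - 5) := MM_monotone (by omega)
    rw [hM5] at h5
    rw [hM4] at h1
    omega

end r1

section r2

variable {p n m₀ : ℕ}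

/-- residue two, the step -/
lemma hK2 (hp : 6 ≤ p) (hn : n = 3 * p + 11) (hm : 2 * m₀ = (n - 1) * (n - 2)) :
    ∀ S d, 2 * S < n → 1 ≤ d → n ≤ 2 * (S + d) → S + d ≤ m₀ → d * (n + 1) ≤ 2 * (m₀ - S) →
      Phi (m₀ - (S + d)) + MM d + MM S + n ≤ MM n + 2 := by
  intro S d hS hd hSd hSm hdn
  have hY := pow_ge hp
  set Y : ℝ := 3 ^ p with hYd
  have hMn : (MM n : ℝ) = 54 * Y := by
    have : n = 3 * (p + 3) + 2 := by omega
    rw [this, MM_three_mul_add_two]; push_cast; rw [pow_add]; ring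
  have hM4 : (MM (n - 4) : ℝ) = 12 * Y := by
    have : n - 4 = 3 * (p + 1) + 4 := by omega
    rw [this, MM_three_mul_add_four]; push_cast; rw [pow_add]; ring
  have hM5 : (MM (n - 5) : ℝ) = 9 * Y := by
    have : n - 5 = 3 * (p + 2) := by omega
    rw [this, MM_three_mul]; push_cast; rw [pow_add]; ring
  have hM8 : (MM (n - 8) : ℝ) = 3 * Y := by
    have : n - 8 = 3 * (p + 1) := by omega
    rw [this, MM_three_mul]; push_cast; rw [pow_add]; ring
  have hnr : (n : ℝ) = 3 * p + 11 := by rw [hn]; push_cast; ring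
  have hn28 : 28 ≤ n := by omega
  have hn28' : (29 : ℝ) ≤ n := by
    have : 29 ≤ n := by omega
    exact_mod_cast this
  have hmr : 2 * (m₀ : ℝ) = (n - 1) * (n - 2) := by
    have : ((2 * m₀ : ℕ) : ℝ) = (((n - 1) * (n - 2) : ℕ) : ℝ) := by exact_mod_cast hm
    rw [Nat.cast_mul (n - 1), Nat.cast_sub (by omega), Nat.cast_sub (by omega)] at this
    push_cast at this
    exact this
  have hx : ((m₀ - (S + d) : ℕ) : ℝ) = m₀ - S - d := by
    rw [Nat.cast_sub hSm]; push_cast; ring
  have hMS := MM_half hn28 hS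
  have hgn : g n ≤ 56.2 * Y := by
    rw [hnr, g_split]
    have := mul_le_mul_of_nonneg_left g11 (by linarith : 0 ≤ Y)
    linarith
  have hS0 : (0 : ℝ) ≤ S := Nat.cast_nonneg S
  have hd4 : d ≤ n - 4 := by
    by_contra h
    push Not at h
    have h1 : ((n : ℝ) - 3) ≤ d := by
      have : n ≤ d + 3 := by omega
      have : (n : ℝ) ≤ d + 3 := by exact_mod_cast this
      linarith
    have h2 : (d : ℝ) * (n + 1) ≤ 2 * m₀ := by
      have : d * (n + 1) ≤ 2 * m₀ := by omega
      exact_mod_cast this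
    nlinarith
  rcases Nat.lt_or_ge d (n - 4) with h4 | h4
  · rcases Nat.lt_or_ge d (n - 7) with h7 | h7
    · have h1 : (MM d : ℝ) ≤ 3 * Y := by
        rw [← hM8]; exact_mod_cast MM_monotone (by omega : d ≤ n - 8)
      have h2 := Phi_bd (x := m₀ - (S + d)) (a := 0.4) (by norm_num) hn28 (by
        rw [hx]
        have : (n : ℝ) ≤ 2 * (S + d) := by exact_mod_cast hSd
        nlinarith)
      have h3 : g (n - 0.4) ≤ 48.6 * Y := by
        have : (n : ℝ) - 0.4 = 3 * p + 10.6 := by rw [hnr]; ring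
        rw [this, g_split]
        have := mul_le_mul_of_nonneg_left g1051 (by linarith : 0 ≤ Y)
        linarith
      rw [hMn]
      linarith
    · have h1 : (MM d : ℝ) ≤ 9 * Y := by
        rw [← hM5]; exact_mod_cast MM_monotone (by omega : d ≤ n - 5)
      have h2 := Phi_bd (x := m₀ - (S + d)) (a := 0.75) (by norm_num) hn28 (by
        rw [hx]
        have h8 : (n : ℝ) - 7 ≤ d := by
          have : n ≤ d + 7 := by omega
          have : (n : ℝ) ≤ d + 7 := by exact_mod_cast this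
          linarith
        nlinarith)
      have h3 : g (n - 0.75) ≤ 42.8 * Y := by
        have : (n : ℝ) - 0.75 = 3 * p + 10.25 := by rw [hnr]; ring
        rw [this, g_split]
        have := mul_le_mul_of_nonneg_left g1023 (by linarith : 0 ≤ Y)
        linarith
      rw [hMn]
      linarith
  · have hdd : d = n - 4 := by omega
    subst hdd
    have h2 := Phi_bd (x := m₀ - (S + (n - 4))) (a := 0.88) (by norm_num) hn28 (by
      rw [hx, Nat.cast_sub (by omega : 4 ≤ n)]
      push_cast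
      nlinarith)
    have h3 : g (n - 0.88) ≤ 40.8 * Y := by
      have : (n : ℝ) - 0.88 = 3 * p + 10.12 := by rw [hnr]; ring
      rw [this, g_split]
      have := mul_le_mul_of_nonneg_left g1012 (by linarith : 0 ≤ Y)
      linarith
    rw [hMn, hM4]
    linarith

/-- residue two, the base -/
lemma hW2 (hp : 6 ≤ p) (hn : n = 3 * p + 11) (hm : 2 * m₀ = (n - 1) * (n - 2))
    {V : Type*} (G : SimpleGraph V) :
    ∀ A : Finset V, A.card = n → ∀ S, 2 ≤ S → 2 * S < n → S ≤ m₀ →
      e2 Gᶜ A = 2 * (m₀ - S) → (MI G A).card + MM S ≤ MM n + 1 := by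
  intro A hA S hS2 hS hSm he
  have hY := pow_ge hp
  have hMn : MM n = 54 * 3 ^ p := by
    have : n = 3 * (p + 3) + 2 := by omega
    rw [this, MM_three_mul_add_two, pow_add]; ring
  have hM1 : MM (n - 1) = 36 * 3 ^ p := by
    have : n - 1 = 3 * (p + 2) + 4 := by omega
    rw [this, MM_three_mul_add_four, pow_add]; ring
  have hM4 : MM (n - 4) = 12 * 3 ^ p := by
    have : n - 4 = 3 * (p + 1) + 4 := by omega
    rw [this, MM_three_mul_add_four, pow_add]; ring
  have hMS : MM S ≤ 3 ^ p := by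
    have h1 := MM_half (by omega : 28 ≤ n) hS
    have hnr : (n : ℝ) = 3 * p + 11 := by rw [hn]; push_cast; ring
    have hgn : g n ≤ 56.2 * 3 ^ p := by
      rw [hnr, g_split]
      have := mul_le_mul_of_nonneg_left g11 (by linarith : (0 : ℝ) ≤ 3 ^ p)
      linarith
    have : (MM S : ℝ) ≤ 3 ^ p := by linarith
    exact_mod_cast this
  obtain ⟨x, hx, d, hd, h1, h2⟩ := one_step G (A := A) (c := n - 3) (by
    rw [hA, he]
    obtain ⟨k, rfl⟩ : ∃ k, n = k + 3 := ⟨n - 3, by omega⟩
    have e1 : k + 3 - 3 = k := by omega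
    have e2 : k + 3 - 1 = k + 2 := by omega
    have e2' : k + 3 - 2 = k + 1 := by omega
    rw [e2, e2'] at hm
    rw [e1]
    have e4 : (k + 2) * (k + 1) = (k + 3) * k + 2 := by ring
    have e5 : 0 < (k + 3) * k := by apply Nat.mul_pos <;> omega
    omega)
  have hc : (A.erase x).card = n - 1 := by rw [Finset.card_erase_of_mem hx, hA]
  have h3 := MI_le_MM G (A.erase x)
  rw [hc, hM1] at h3
  have h5 : MM d ≤ MM (n - 4) := MM_monotone (by omega)
  rw [hM4] at h5
  omega

end r2

section r3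

variable {p n m₀ : ℕ}

/-- residue zero, the step -/
lemma hK3 (hp : 6 ≤ p) (hn : n = 3 * p + 12) (hm : 2 * m₀ = n * (n - 3)) :
    ∀ S d, 2 * S < n → 1 ≤ d → n ≤ 2 * (S + d) → S + d ≤ m₀ → d * (n + 1) ≤ 2 * (m₀ - S) →
      Phi (m₀ - (S + d)) + MM d + MM S + n ≤ MM n + 2 := by
  intro S d hS hd hSd hSm hdn
  have hY := pow_ge hp
  set Y : ℝ := 3 ^ p with hYd
  have hMn : (MM n : ℝ) = 81 * Y := by
    have : n = 3 * (p + 4) := by omega
    rw [this, MM_three_mul]; push_cast; rw [pow_add]; ring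
  have hM4 : (MM (n - 4) : ℝ) = 18 * Y := by
    have : n - 4 = 3 * (p + 2) + 2 := by omega
    rw [this, MM_three_mul_add_two]; push_cast; rw [pow_add]; ring
  have hM8 : (MM (n - 8) : ℝ) = 4 * Y := by
    have : n - 8 = 3 * p + 4 := by omega
    rw [this, MM_three_mul_add_four]; push_cast; ring
  have hnr : (n : ℝ) = 3 * p + 12 := by rw [hn]; push_cast; ring
  have hn28 : 28 ≤ n := by omega
  have hn28' : (30 : ℝ) ≤ n := by
    have : 30 ≤ n := by omega
    exact_mod_cast this
  have hmr : 2 * (m₀ : ℝ) = n * (n - 3) := by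
    have : ((2 * m₀ : ℕ) : ℝ) = ((n * (n - 3) : ℕ) : ℝ) := by exact_mod_cast hm
    rw [Nat.cast_mul n, Nat.cast_sub (by omega)] at this
    push_cast at this
    exact this
  have hx : ((m₀ - (S + d) : ℕ) : ℝ) = m₀ - S - d := by
    rw [Nat.cast_sub hSm]; push_cast; ring
  have hMS := MM_half hn28 hS
  have hgn : g n ≤ 81 * Y := by
    rw [hnr, g_split]
    have := mul_le_mul_of_nonneg_left g12 (by linarith : 0 ≤ Y)
    linarith
  have hS0 : (0 : ℝ) ≤ S := Nat.cast_nonneg S
  have hd4 : d ≤ n - 4 := by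
    by_contra h
    push Not at h
    have h1 : ((n : ℝ) - 3) ≤ d := by
      have : n ≤ d + 3 := by omega
      have : (n : ℝ) ≤ d + 3 := by exact_mod_cast this
      linarith
    have h2 : (d : ℝ) * (n + 1) ≤ 2 * m₀ := by
      have : d * (n + 1) ≤ 2 * m₀ := by omega
      exact_mod_cast this
    nlinarith
  rcases Nat.lt_or_ge d (n - 7) with h7 | h7
  · have h1 : (MM d : ℝ) ≤ 4 * Y := by
      rw [← hM8]; exact_mod_cast MM_monotone (by omega : d ≤ n - 8)
    have h2 := Phi_bd (x := m₀ - (S + d)) (a := 0.5) (by norm_num) hn28 (by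
      rw [hx]
      have : (n : ℝ) ≤ 2 * (S + d) := by exact_mod_cast hSd
      nlinarith)
    have h3 : g (n - 0.5) ≤ 67.8 * Y := by
      have : (n : ℝ) - 0.5 = 3 * p + 11.5 := by rw [hnr]; ring
      rw [this, g_split]
      have := mul_le_mul_of_nonneg_left g1151 (by linarith : 0 ≤ Y)
      linarith
    rw [hMn]
    linarith
  · have h1 : (MM d : ℝ) ≤ 18 * Y := by
      rw [← hM4]; exact_mod_cast MM_monotone hd4
    have h2 := Phi_bd (x := m₀ - (S + d)) (a := 0.8) (by norm_num) hn28 (by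
      rw [hx]
      have h8 : (n : ℝ) - 7 ≤ d := by
        have : n ≤ d + 7 := by omega
        have : (n : ℝ) ≤ d + 7 := by exact_mod_cast this
        linarith
      nlinarith)
    have h3 : g (n - 0.8) ≤ 60.6 * Y := by
      have : (n : ℝ) - 0.8 = 3 * p + 11.2 := by rw [hnr]; ring
      rw [this, g_split]
      have := mul_le_mul_of_nonneg_left g112 (by linarith : 0 ≤ Y)
      linarith
    rw [hMn]
    linarith

/-- residue zero, the base -/
lemma hW3 (hp : 6 ≤ p) (hn : n = 3 * p + 12) (hm : 2 * m₀ = n * (n - 3))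
    {V : Type*} (G : SimpleGraph V) :
    ∀ A : Finset V, A.card = n → ∀ S, 2 ≤ S → 2 * S < n → S ≤ m₀ →
      e2 Gᶜ A = 2 * (m₀ - S) → (MI G A).card + MM S ≤ MM n + 1 := by
  intro A hA S hS2 hS hSm he
  have hY := pow_ge hp
  have hMn : MM n = 81 * 3 ^ p := by
    have : n = 3 * (p + 4) := by omega
    rw [this, MM_three_mul, pow_add]; ring
  have hM1 : MM (n - 1) = 54 * 3 ^ p := by
    have : n - 1 = 3 * (p + 3) + 2 := by omega
    rw [this, MM_three_mul_add_two, pow_add]; ring
  have hM4 : MM (n - 4) = 18 * 3 ^ p := by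
    have : n - 4 = 3 * (p + 2) + 2 := by omega
    rw [this, MM_three_mul_add_two, pow_add]; ring
  have hMS : MM S ≤ 3 ^ p := by
    have h1 := MM_half (by omega : 28 ≤ n) hS
    have hnr : (n : ℝ) = 3 * p + 12 := by rw [hn]; push_cast; ring
    have hgn : g n ≤ 81 * 3 ^ p := by
      rw [hnr, g_split]
      have := mul_le_mul_of_nonneg_left g12 (by linarith : (0 : ℝ) ≤ 3 ^ p)
      linarith
    have : (MM S : ℝ) ≤ 3 ^ p := by linarith
    exact_mod_cast this
  obtain ⟨x, hx, d, hd, h1, h2⟩ := one_step G (A := A) (c := n - 3) (by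
    rw [hA, he]
    have e5 : 0 < n * (n - 3) := by apply Nat.mul_pos <;> omega
    omega)
  have hc : (A.erase x).card = n - 1 := by rw [Finset.card_erase_of_mem hx, hA]
  have h3 := MI_le_MM G (A.erase x)
  rw [hc, hM1] at h3
  have h5 : MM d ≤ MM (n - 4) := MM_monotone (by omega)
  rw [hM4] at h5
  omega

end r3

end Pool.Agent.Helper432.MISNum
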