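import Mathlib
import Pool.Agent.Helper432.MIS.Sharp2

namespace Pool.Agent.Helper432.MISNum

open Finset Pool.Agent.Helper432.MISBase

attribute [local instance] Classical.propDecidable

lemma even_mul_sub_three (n : ℕ) : 2 * (n * (n - 3) / 2) = n * (n - 3) := by
  rcases Nat.lt_or_ge n 3 with h | h
  · interval_cases n <;> rfl
  · obtain ⟨k, rfl⟩ : ∃ k, n = k + 3 := ⟨n - 3, by omega⟩
    simp only [Nat.add_sub_cancel]
    apply Nat.mul_div_cancel'
    rcases Nat.even_or_odd k with ⟨j, hj⟩ | ⟨j, hj⟩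
    · exact ⟨(k + 3) * j, by rw [hj]; ring⟩
    · exact ⟨(j + 2) * k, by rw [hj]; ring⟩

lemma even_mul_four_one (n : ℕ) : 2 * ((n - 4) * (n + 1) / 2) = (n - 4) * (n + 1) := by
  rcases Nat.lt_or_ge n 4 with h | h
  · interval_cases n <;> rfl
  · obtain ⟨k, rfl⟩ : ∃ k, n = k + 4 := ⟨n - 4, by omega⟩
    simp only [Nat.add_sub_cancel]
    apply Nat.mul_div_cancel'
    rcases Nat.even_or_odd k with ⟨j, hj⟩ | ⟨j, hj⟩
    · exact ⟨j * (k + 4 + 1), by rw [hj]; ring⟩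
    · exact ⟨k * (j + 3), by rw [hj]; ring⟩

lemma even_mul_one_two (n : ℕ) : 2 * ((n - 1) * (n - 2) / 2) = (n - 1) * (n - 2) := by
  rcases Nat.lt_or_ge n 2 with h | h
  · interval_cases n <;> rfl
  · obtain ⟨k, rfl⟩ : ∃ k, n = k + 2 := ⟨n - 2, by omega⟩
    have e1 : k + 2 - 1 = k + 1 := by omega
    simp only [Nat.add_sub_cancel, e1]
    apply Nat.mul_div_cancel'
    rcases Nat.even_or_odd k with ⟨j, hj⟩ | ⟨j, hj⟩
    · exact ⟨(k + 1) * j, by rw [hj]; ring⟩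
    · exact ⟨(j + 1) * k, by rw [hj]; ring⟩

/-- combination of the two phases -/
lemma combine {V : Type*} (G : SimpleGraph V) {n m₀ : ℕ} (hn : 3 ≤ n)
    (hK : ∀ S d, 2 * S < n → 1 ≤ d → n ≤ 2 * (S + d) → S + d ≤ m₀ → d * (n + 1) ≤ 2 * (m₀ - S) →
      Phi (m₀ - (S + d)) + MM d + MM S + n ≤ MM n + 2)
    (hW : ∀ A : Finset V, A.card = n → ∀ S, 2 ≤ S → 2 * S < n → S ≤ m₀ →
      e2 Gᶜ A = 2 * (m₀ - S) → (MI G A).card + MM S ≤ MM n + 1)
    (hD : ∀ N, N ≤ m₀ → n ≤ 2 * (m₀ - N) → Phi N + n ≤ MM n)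
    (A : Finset V) (hA : n ≤ A.card) {N : ℕ} (hN : N ≤ m₀) (he : e2 Gᶜ A = 2 * N) :
    (MI G A).card + n ≤ A.card + MM n := by
  rcases Nat.lt_or_ge (2 * (m₀ - N)) n with h | h
  · have h1 := two_phase G hn hK hW A hA (m₀ - N) (Nat.sub_le _ _) h (by
      rw [Nat.sub_sub_self hN]; exact he)
    have h2 := MM_pos (m₀ - N)
    omega
  · have h1 := le_pot isPot_Phi G A (Finset.card_pos.1 (by omega)) N he
    have h2 := hD N hN h
    have h3 : ((MI G A).card : ℝ) + n ≤ A.card + MM n := by linarith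
    exact_mod_cast h3

lemma hD1 {p n m₀ : ℕ} (hp : 6 ≤ p) (hn : n = 3 * p + 10) (hm : 2 * m₀ = (n - 4) * (n + 1)) :
    ∀ N, N ≤ m₀ → n ≤ 2 * (m₀ - N) → Phi N + n ≤ MM n := by
  intro N hN h
  have hY := pow_ge hp
  set Y : ℝ := 3 ^ p with hYd
  have hMn : (MM n : ℝ) = 36 * Y := by
    have : n = 3 * (p + 2) + 4 := by omega
    rw [this, MM_three_mul_add_four]; push_cast; rw [pow_add]; ring
  have hnr : (n : ℝ) = 3 * p + 10 := by rw [hn]; push_cast; ring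
  have hn28 : 28 ≤ n := by omega
  have hmr : 2 * (m₀ : ℝ) = (n - 4) * (n + 1) := by
    have : ((2 * m₀ : ℕ) : ℝ) = (((n - 4) * (n + 1) : ℕ) : ℝ) := by exact_mod_cast hm
    rw [Nat.cast_mul (n - 4), Nat.cast_sub (by omega)] at this
    push_cast at this
    exact this
  have h2 := Phi_bd (x := N) (a := 0.5) (by norm_num) hn28 (by
    have h3 : n + 2 * N ≤ 2 * m₀ := by omega
    have h4 : (n : ℝ) + 2 * N ≤ 2 * m₀ := by exact_mod_cast h3
    have hn28' : (28 : ℝ) ≤ n := by exact_mod_cast hn28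
    nlinarith)
  have h3 : g (n - 0.5) ≤ 32.6 * Y := by
    have : (n : ℝ) - 0.5 = 3 * p + 9.5 := by rw [hnr]; ring
    rw [this, g_split]
    have := mul_le_mul_of_nonneg_left g951 (by linarith : 0 ≤ Y)
    linarith
  rw [hMn]
  linarith

lemma hD2 {p n m₀ : ℕ} (hp : 6 ≤ p) (hn : n = 3 * p + 11) (hm : 2 * m₀ = (n - 1) * (n - 2)) :
    ∀ N, N ≤ m₀ → n ≤ 2 * (m₀ - N) → Phi N + n ≤ MM n := by
  intro N hN h
  have hY := pow_ge hp
  set Y : ℝ := 3 ^ p with hYd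
  have hMn : (MM n : ℝ) = 54 * Y := by
    have : n = 3 * (p + 3) + 2 := by omega
    rw [this, MM_three_mul_add_two]; push_cast; rw [pow_add]; ring
  have hnr : (n : ℝ) = 3 * p + 11 := by rw [hn]; push_cast; ring
  have hn28 : 28 ≤ n := by omega
  have hmr : 2 * (m₀ : ℝ) = (n - 1) * (n - 2) := by
    have : ((2 * m₀ : ℕ) : ℝ) = (((n - 1) * (n - 2) : ℕ) : ℝ) := by exact_mod_cast hm
    rw [Nat.cast_mul (n - 1), Nat.cast_sub (by omega), Nat.cast_sub (by omega)] at this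
    push_cast at this
    exact this
  have h2 := Phi_bd (x := N) (a := 0.4) (by norm_num) hn28 (by
    have h3 : n + 2 * N ≤ 2 * m₀ := by omega
    have h4 : (n : ℝ) + 2 * N ≤ 2 * m₀ := by exact_mod_cast h3
    have hn28' : (28 : ℝ) ≤ n := by exact_mod_cast hn28
    nlinarith)
  have h3 : g (n - 0.4) ≤ 48.6 * Y := by
    have : (n : ℝ) - 0.4 = 3 * p + 10.6 := by rw [hnr]; ring
    rw [this, g_split]
    have := mul_le_mul_of_nonneg_left g1051 (by linarith : 0 ≤ Y)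
    linarith
  rw [hMn]
  linarith

lemma hD3 {p n m₀ : ℕ} (hp : 6 ≤ p) (hn : n = 3 * p + 12) (hm : 2 * m₀ = n * (n - 3)) :
    ∀ N, N ≤ m₀ → n ≤ 2 * (m₀ - N) → Phi N + n ≤ MM n := by
  intro N hN h
  have hY := pow_ge hp
  set Y : ℝ := 3 ^ p with hYd
  have hMn : (MM n : ℝ) = 81 * Y := by
    have : n = 3 * (p + 4) := by omega
    rw [this, MM_three_mul]; push_cast; rw [pow_add]; ring
  have hnr : (n : ℝ) = 3 * p + 12 := by rw [hn]; push_cast; ring
  have hn28 : 28 ≤ n := by omega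
  have hmr : 2 * (m₀ : ℝ) = n * (n - 3) := by
    have : ((2 * m₀ : ℕ) : ℝ) = ((n * (n - 3) : ℕ) : ℝ) := by exact_mod_cast hm
    rw [Nat.cast_mul n, Nat.cast_sub (by omega)] at this
    push_cast at this
    exact this
  have h2 := Phi_bd (x := N) (a := 0.5) (by norm_num) hn28 (by
    have h3 : n + 2 * N ≤ 2 * m₀ := by omega
    have h4 : (n : ℝ) + 2 * N ≤ 2 * m₀ := by exact_mod_cast h3
    have hn28' : (28 : ℝ) ≤ n := by exact_mod_cast hn28
    nlinarith)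
  have h3 : g (n - 0.5) ≤ 67.8 * Y := by
    have : (n : ℝ) - 0.5 = 3 * p + 11.5 := by rw [hnr]; ring
    rw [this, g_split]
    have := mul_le_mul_of_nonneg_left g1151 (by linarith : 0 ≤ Y)
    linarith
  rw [hMn]
  linarith

/-- small cases, by the table -/
lemma small_case {n : ℕ} (h1 : 3 ≤ n) (h2 : n ≤ 27) (h8 : n ≠ 8) :
    mm n ≤ 337 ∧ T (mm n) + n ≤ MM n := by
  have key : ∀ n ≤ 27, 3 ≤ n → n ≠ 8 → mm n ≤ 337 ∧ T (mm n) + n ≤ MM n := by decide +kernel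
  exact key n h2 h1 h8

/-- the sharp upper bound at all Moon-Moser edge counts -/
lemma MI_le_sharp {V : Type*} (G : SimpleGraph V) {n N : ℕ} (hn : 3 ≤ n) (h8 : n ≠ 8)
    (A : Finset V) (hA : n ≤ A.card) (hN : N ≤ mm n) (he : e2 Gᶜ A = 2 * N) :
    (MI G A).card + n ≤ A.card + MM n := by
  rcases Nat.lt_or_ge n 28 with hn28 | hn28
  · obtain ⟨h1, h2⟩ := small_case hn (by omega) h8
    have h3 := le_pot isPot_Phi G A (Finset.card_pos.1 (by omega)) N he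
    have h4 : Phi N ≤ T (mm n) := by
      refine (Phi_mono hN).trans (le_of_eq ?_)
      rw [Phi, if_pos h1]
    have h5 : ((T (mm n) : ℕ) : ℝ) + n ≤ MM n := by exact_mod_cast h2
    have h6 : ((MI G A).card : ℝ) + n ≤ A.card + MM n := by linarith
    exact_mod_cast h6
  · have hr : n % 3 = 0 ∨ n % 3 = 1 ∨ n % 3 = 2 := by omega
    rcases hr with hr | hr | hr
    · obtain ⟨p, hp, hnp⟩ : ∃ p, 6 ≤ p ∧ n = 3 * p + 12 := ⟨(n - 12) / 3, by omega, by omega⟩
      have hm : 2 * mm n = n * (n - 3) := by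
        rw [mm, if_pos hr]; exact even_mul_sub_three n
      exact combine G hn (hK3 hp hnp hm) (hW3 hp hnp hm G) (hD3 hp hnp hm) A hA hN he
    · obtain ⟨p, hp, hnp⟩ : ∃ p, 6 ≤ p ∧ n = 3 * p + 10 := ⟨(n - 10) / 3, by omega, by omega⟩
      have hm : 2 * mm n = (n - 4) * (n + 1) := by
        rw [mm, if_neg (by omega), if_pos hr]; exact even_mul_four_one n
      exact combine G hn (hK1 hp hnp hm) (hW1 hp hnp hm G) (hD1 hp hnp hm) A hA hN he
    · obtain ⟨p, hp, hnp⟩ : ∃ p, 6 ≤ p ∧ n = 3 * p + 11 := ⟨(n - 11) / 3, by omega, by omega⟩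
      have hm : 2 * mm n = (n - 1) * (n - 2) := by
        rw [mm, if_neg (by omega), if_neg (by omega)]; exact even_mul_one_two n
      exact combine G hn (hK2 hp hnp hm) (hW2 hp hnp hm G) (hD2 hp hnp hm) A hA hN he

lemma upper_sharp {n v N : ℕ} (hn : 3 ≤ n) (h8 : n ≠ 8) (hv : n ≤ v) (hN : N ≤ mm n)
    (hNv : N ≤ v.choose 2) : mu v (v.choose 2 - N) ≤ MM n + (v - n) := by
  obtain ⟨G, hG, hmu⟩ := exists_attain (v := v) (e := v.choose 2 - N) (Nat.sub_le _ _)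
  rw [← hmu, misCount_eq]
  have h3 := MI_le_sharp G hn h8 Finset.univ (by rw [Finset.card_univ, Fintype.card_fin]; exact hv)
    hN (by rw [e2_compl_univ, hG, Nat.sub_sub_self hNv])
  rw [Finset.card_univ, Fintype.card_fin] at h3
  omega

end Pool.Agent.Helper432.MISNum
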