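import Mathlib
import Pool.Agent.Helper432.MIS.Sharp3

namespace Pool.Agent.Helper432.MISNum

open Finset Pool.Agent.Helper432.MISBase

attribute [local instance] Classical.propDecidable

lemma lower_mm {n v : ℕ} (hn : 3 ≤ n) (h : n ≤ v) :
    MM n + (v - n) ≤ mu v (v.choose 2 - mm n) := by
  have hr : n % 3 = 0 ∨ n % 3 = 1 ∨ n % 3 = 2 := by omega
  have h32 : Nat.choose 3 2 = 3 := by decide
  have h42 : Nat.choose 4 2 = 6 := by decide
  have h22 : Nat.choose 2 2 = 1 := by decide
  have hvn : n.choose 2 ≤ v.choose 2 := Nat.choose_le_choose 2 h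
  have htc := two_choose n
  rcases hr with hr | hr | hr
  · obtain ⟨q, hq⟩ : ∃ q, n = 3 * q := ⟨n / 3, by omega⟩
    have : Nonempty (Fin q) := ⟨⟨0, by omega⟩⟩
    have h1 := Pool.Agent.Helper432.MISExtra.full_core (v := v) (ι := Fin q) (fun _ => 3)
      (by simp; omega)
    simp only [Finset.prod_const, Finset.card_univ, Fintype.card_fin, Finset.sum_const,
      smul_eq_mul, h32] at h1
    have e0 : q * 3 = n := by omega
    rw [e0] at h1
    have e1 : MM n = 3 ^ q := by rw [hq, MM_three_mul]
    have e2 : n + (v.choose 2 - n.choose 2) = v.choose 2 - mm n := by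
      have h5 : 2 * mm n = n * (n - 3) := by rw [mm, if_pos hr]; exact even_mul_sub_three n
      obtain ⟨k, rfl⟩ : ∃ k, n = k + 3 := ⟨n - 3, by omega⟩
      have e3 : k + 3 - 1 = k + 2 := by omega
      rw [e3] at htc
      simp only [Nat.add_sub_cancel] at h5
      have h6 : (k + 3) * (k + 2) = (k + 3) * k + 2 * (k + 3) := by ring
      omega
    rw [e2] at h1
    rw [e1]; exact h1
  · obtain ⟨q, hq⟩ : ∃ q, n = 3 * q + 4 := ⟨(n - 4) / 3, by omega⟩
    have h1 := Pool.Agent.Helper432.MISExtra.full_core (v := v) (ι := Option (Fin q))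
      (fun o => if o = none then 4 else 3) (by simp [Fintype.sum_option]; omega)
    simp only [Fintype.prod_option, Fintype.sum_option, if_true, reduceCtorEq, if_false,
      Finset.prod_const, Finset.card_univ, Fintype.card_fin, Finset.sum_const,
      smul_eq_mul, h32, h42] at h1
    have e0 : 4 + q * 3 = n := by omega
    rw [e0] at h1
    have e1 : MM n = 4 * 3 ^ q := by rw [hq, MM_three_mul_add_four]
    have e2 : 6 + q * 3 + (v.choose 2 - n.choose 2) = v.choose 2 - mm n := by
      have h5 : 2 * mm n = (n - 4) * (n + 1) := by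
        rw [mm, if_neg (by omega), if_pos hr]; exact even_mul_four_one n
      obtain ⟨k, hk⟩ : ∃ k, n = k + 4 := ⟨n - 4, by omega⟩
      have e3 : n - 1 = k + 3 := by omega
      have e4 : n - 4 = k := by omega
      rw [e3, hk] at htc
      rw [e4, hk] at h5
      have h6 : (k + 4) * (k + 3) = k * (k + 4 + 1) + 2 * (k + 6) := by ring
      have h7 : 6 + q * 3 = k + 6 := by omega
      rw [hk] at hvn ⊢
      rw [h7]
      omega
    rw [e2] at h1
    rw [e1]; exact h1
  · obtain ⟨q, hq⟩ : ∃ q, n = 3 * q + 2 := ⟨(n - 2) / 3, by omega⟩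
    have h1 := Pool.Agent.Helper432.MISExtra.full_core (v := v) (ι := Option (Fin q))
      (fun o => if o = none then 2 else 3) (by simp [Fintype.sum_option]; omega)
    simp only [Fintype.prod_option, Fintype.sum_option, if_true, reduceCtorEq, if_false,
      Finset.prod_const, Finset.card_univ, Fintype.card_fin, Finset.sum_const,
      smul_eq_mul, h32, h22] at h1
    have e0 : 2 + q * 3 = n := by omega
    rw [e0] at h1
    have e1 : MM n = 2 * 3 ^ q := by rw [hq, MM_three_mul_add_two]
    have e2 : 1 + q * 3 + (v.choose 2 - n.choose 2) = v.choose 2 - mm n := by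
      have h5 : 2 * mm n = (n - 1) * (n - 2) := by
        rw [mm, if_neg (by omega), if_neg (by omega)]; exact even_mul_one_two n
      obtain ⟨k, hk⟩ : ∃ k, n = k + 2 := ⟨n - 2, by omega⟩
      have e3 : n - 1 = k + 1 := by omega
      have e4 : n - 2 = k := by omega
      rw [e3, hk] at htc
      rw [e3, e4] at h5
      have h6 : (k + 2) * (k + 1) = (k + 1) * k + 2 * (k + 1) := by ring
      have h7 : 1 + q * 3 = k + 1 := by omega
      rw [hk] at hvn ⊢
      rw [h7]
      rw [hk] at h5
      omega
    rw [e2] at h1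
    rw [e1]; exact h1

/-- the exact value at all Moon-Moser edge counts -/
lemma mu_sharp {n v : ℕ} (hn : 3 ≤ n) (h8 : n ≠ 8) (hv : n ≤ v) :
    mu v (v.choose 2 - mm n) = MM n + (v - n) := by
  refine le_antisymm (upper_sharp hn h8 hv le_rfl ?_) (lower_mm hn hv)
  refine le_trans ?_ (Nat.choose_le_choose 2 hv)
  have h0 := even_mul_sub_three n
  have h1 := even_mul_four_one n
  have h2 := even_mul_one_two n
  have h3 := two_choose n
  have h4 : 2 * mm n ≤ n * (n - 1) := by
    rw [mm]
    split_ifs
    · rw [h0]; exact Nat.mul_le_mul_left _ (by omega)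
    · rw [h1]
      obtain ⟨k, hk⟩ : ∃ k, n = k + 3 := ⟨n - 3, by omega⟩
      rcases Nat.lt_or_ge n 4 with h5 | h5
      · have : n - 4 = 0 := by omega
        rw [this]; simp
      · obtain ⟨k, rfl⟩ : ∃ k, n = k + 4 := ⟨n - 4, by omega⟩
        have e1 : k + 4 - 4 = k := by omega
        have e2 : k + 4 - 1 = k + 3 := by omega
        rw [e1, e2]
        nlinarith
    · rw [h2, mul_comm n]
      exact Nat.mul_le_mul_left _ (by omega)
  omega

end Pool.Agent.Helper432.MISNum
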