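import Mathlib
import Pool.Agent.Helper432.MIS.Lower

namespace Pool.Agent.Helper432.MISNum

/-! ### more facts on the Moon-Moser numbers -/

lemma MM_rec3 {k : ℕ} (hk : 2 ≤ k) : MM (k + 3) = 3 * MM k := by
  obtain ⟨c, rfl⟩ : ∃ c, k = c + 2 := ⟨k - 2, by omega⟩
  exact MM_rec c

lemma MM_conv_small : ∀ a < 5, ∀ s < 5, ∀ t < 5,
    MM (a + s) + MM (a + t) ≤ MM a + MM (a + s + t) := by decide +kernel

/-- convexity -/
lemma MM_conv (k : ℕ) : ∀ a s t, a + s + t = k →
    MM (a + s) + MM (a + t) ≤ MM a + MM (a + s + t) := by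
  induction k using Nat.strong_induction_on with
  | _ k ih =>
    intro a s t h
    rcases Nat.lt_or_ge a 5 with ha | ha
    · rcases Nat.lt_or_ge s 5 with hs | hs
      · rcases Nat.lt_or_ge t 5 with ht | ht
        · exact MM_conv_small a ha s hs t ht
        · have h1 := ih (k - 3) (by omega) a s (t - 3) (by omega)
          have e1 : MM (a + t) = 3 * MM (a + (t - 3)) := by
            rw [← MM_rec3 (by omega)]; congr 1; omega
          have e2 : MM (a + s + t) = 3 * MM (a + s + (t - 3)) := by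
            rw [← MM_rec3 (by omega)]; congr 1; omega
          have h2 := MM_monotone (show a ≤ a + s by omega)
          omega
      · have h1 := ih (k - 3) (by omega) a (s - 3) t (by omega)
        have e1 : MM (a + s) = 3 * MM (a + (s - 3)) := by
          rw [← MM_rec3 (by omega)]; congr 1; omega
        have e2 : MM (a + s + t) = 3 * MM (a + (s - 3) + t) := by
          rw [← MM_rec3 (by omega)]; congr 1; omega
        have h2 := MM_monotone (show a ≤ a + t by omega)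
        omega
    · have h1 := ih (k - 3) (by omega) (a - 3) s t (by omega)
      have e1 : MM (a + s) = 3 * MM (a - 3 + s) := by
        rw [← MM_rec3 (by omega)]; congr 1; omega
      have e2 : MM (a + t) = 3 * MM (a - 3 + t) := by
        rw [← MM_rec3 (by omega)]; congr 1; omega
      have e3 : MM (a + s + t) = 3 * MM (a - 3 + s + t) := by
        rw [← MM_rec3 (by omega)]; congr 1; omega
      have e4 : MM a = 3 * MM (a - 3) := by
        rw [← MM_rec3 (by omega)]; congr 1; omega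
      omega

/-- small indices give small values -/
lemma MM_tiny {p k : ℕ} (hp : 9 ≤ p) (hk : 2 * k ≤ 3 * p + 16) : (MM k : ℝ) ≤ 0.14 * 3 ^ p := by
  have h1 := MM_le_g k
  have hp' : (9 : ℝ) ≤ p := by exact_mod_cast hp
  have hk' : 2 * (k : ℝ) ≤ 3 * p + 16 := by exact_mod_cast hk
  have h2 : g k ≤ g (3 * p - 5.5) := g_mono (by linarith)
  have h3 : g (3 * p - 5.5) * g 5.5 = 3 ^ p := by
    rw [← g_add, ← g_three]
    congr 1
    ring
  have h4 : (7.49 : ℝ) ≤ g 5.5 := by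
    have := le_g_rat (p := 11) (q := 2) (by norm_num) (t := 7.49) (by norm_num)
    have e : ((11 : ℕ) : ℝ) / ((2 : ℕ) : ℝ) = 5.5 := by norm_num
    rwa [e] at this
  have h5 := g_pos (3 * p - 5.5)
  nlinarith

/-- the levels of the second halves of the blocks -/
noncomputable def lam (r S : ℕ) : ℝ :=
  if r = 0 then (if S ≤ 6 then 33.4 else if S ≤ 12 then 30.5 else 29.5)
  else if r = 1 then
    (if S ≤ 5 then 48.5 else if S ≤ 11 then 45.6 else if S ≤ 17 then 42.7 else 41.7)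
  else (if S ≤ 6 then 72.5 else if S ≤ 12 then 63.9 else 61)

/-- the length of a block -/
def Lb (p r : ℕ) : ℕ := if r = 0 then 3 * p + 6 else if r = 1 then 3 * p + 12 else 3 * p + 9

/-- the potential in block coordinates -/
noncomputable def Ub (p r j : ℕ) : ℝ :=
  if 2 * j < 3 * p + 6 then (MM (3 * p + 9 + r) : ℝ) - (3 * p + 9 + r) + MM j - 1
  else lam r (Lb p r - j) * 3 ^ p - (3 * p + 9 + r) + MM (j - (3 * p + 7) / 2)

lemma lam0 (S : ℕ) : lam 0 S = if S ≤ 6 then 33.4 else if S ≤ 12 then 30.5 else 29.5 := by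
  simp [lam]

lemma lam1 (S : ℕ) : lam 1 S =
    if S ≤ 5 then 48.5 else if S ≤ 11 then 45.6 else if S ≤ 17 then 42.7 else 41.7 := by
  simp [lam]

lemma lam2 (S : ℕ) : lam 2 S = if S ≤ 6 then 72.5 else if S ≤ 12 then 63.9 else 61 := by
  simp [lam]

lemma lam_anti {r S S' : ℕ} (h : S ≤ S') : lam r S' ≤ lam r S := by
  unfold lam
  split_ifs <;> first | omega | norm_num

lemma Ub_A {p r j : ℕ} (h : 2 * j < 3 * p + 6) :
    Ub p r j = (MM (3 * p + 9 + r) : ℝ) - (3 * p + 9 + r) + MM j - 1 := by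
  rw [Ub, if_pos h]

lemma Ub_B {p r j : ℕ} (h : 3 * p + 6 ≤ 2 * j) :
    Ub p r j = lam r (Lb p r - j) * 3 ^ p - (3 * p + 9 + r) + MM (j - (3 * p + 7) / 2) := by
  rw [Ub, if_neg (by omega)]

/-- values of the Moon-Moser numbers -/
lemma MMv (p : ℕ) : (MM (3 * p + 2) : ℝ) = 2 * 3 ^ p ∧ (MM (3 * p + 3) : ℝ) = 3 * 3 ^ p ∧
    (MM (3 * p + 4) : ℝ) = 4 * 3 ^ p ∧ (MM (3 * p + 5) : ℝ) = 6 * 3 ^ p ∧
    (MM (3 * p + 6) : ℝ) = 9 * 3 ^ p ∧ (MM (3 * p + 7) : ℝ) = 12 * 3 ^ p ∧
    (MM (3 * p + 8) : ℝ) = 18 * 3 ^ p ∧ (MM (3 * p + 9) : ℝ) = 27 * 3 ^ p ∧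
    (MM (3 * p + 10) : ℝ) = 36 * 3 ^ p ∧ (MM (3 * p + 11) : ℝ) = 54 * 3 ^ p ∧
    (MM (3 * p + 12) : ℝ) = 81 * 3 ^ p := by
  have h0 : ∀ q, (MM (3 * q) : ℝ) = 3 ^ q := fun q => by rw [MM_three_mul]; push_cast; rfl
  have h2 : ∀ q, (MM (3 * q + 2) : ℝ) = 2 * 3 ^ q := fun q => by
    rw [MM_three_mul_add_two]; push_cast; rfl
  have h4 : ∀ q, (MM (3 * q + 4) : ℝ) = 4 * 3 ^ q := fun q => by
    rw [MM_three_mul_add_four]; push_cast; rfl
  refine ⟨h2 p, ?_, h4 p, ?_, ?_, ?_, ?_, ?_, ?_, ?_, ?_⟩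
  · rw [show 3 * p + 3 = 3 * (p + 1) by ring, h0, pow_add]; ring
  · rw [show 3 * p + 5 = 3 * (p + 1) + 2 by ring, h2, pow_add]; ring
  · rw [show 3 * p + 6 = 3 * (p + 2) by ring, h0, pow_add]; ring
  · rw [show 3 * p + 7 = 3 * (p + 1) + 4 by ring, h4, pow_add]; ring
  · rw [show 3 * p + 8 = 3 * (p + 2) + 2 by ring, h2, pow_add]; ring
  · rw [show 3 * p + 9 = 3 * (p + 3) by ring, h0, pow_add]; ring
  · rw [show 3 * p + 10 = 3 * (p + 2) + 4 by ring, h4, pow_add]; ring
  · rw [show 3 * p + 11 = 3 * (p + 3) + 2 by ring, h2, pow_add]; ring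
  · rw [show 3 * p + 12 = 3 * (p + 4) by ring, h0, pow_add]; ring

lemma MM_le_of {k l : ℕ} {x : ℝ} (h : k ≤ l) (hx : (MM l : ℝ) = x) : (MM k : ℝ) ≤ x := by
  rw [← hx]; exact_mod_cast MM_monotone h

/-- the step inside a block -/
lemma step_same {p r j d : ℕ} (hp : 9 ≤ p) (hr : r < 3) (hj : j < Lb p r) (h1 : 1 ≤ d)
    (_hd : d ≤ 3 * p + 8) (_hd0 : r = 0 → d ≤ 3 * p + 6) (hd1 : r = 1 → d ≤ 3 * p + 7)
    (hdj : d ≤ j) : Ub p r (j - d) + MM d ≤ Ub p r j + 1 := by
  obtain ⟨m2, m3, m4, m5, m6, m7, m8, m9, m10, m11, m12⟩ := MMv p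
  have hY : (0 : ℝ) < 3 ^ p := by positivity
  set Y : ℝ := 3 ^ p with hYd
  rcases Nat.lt_or_ge (2 * j) (3 * p + 6) with hA | hB
  · rw [Ub_A hA, Ub_A (by omega)]
    have h2 := MM_super (j - d) d
    rw [Nat.sub_add_cancel hdj] at h2
    have h3 : (MM (j - d) : ℝ) + MM d ≤ MM j + 1 := by exact_mod_cast h2
    linarith
  · rcases Nat.lt_or_ge (2 * (j - d)) (3 * p + 6) with hA' | hB'
    · rw [Ub_B hB, Ub_A hA']
      have h2 := MM_super (j - d) d
      rw [Nat.sub_add_cancel hdj] at h2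
      have h3 : (MM (j - d) : ℝ) + MM d ≤ MM j + 1 := by exact_mod_cast h2
      have ht := MM_tiny hp (k := j - d) (by omega)
      have hg : (0 : ℝ) ≤ MM (j - (3 * p + 7) / 2) := Nat.cast_nonneg _
      have hr' : r = 0 ∨ r = 1 ∨ r = 2 := by omega
      rcases hr' with rfl | rfl | rfl
      · rw [lam0]
        simp only [Lb, if_true] at hj ⊢
        have e : (MM (3 * p + 9 + 0) : ℝ) = 27 * Y := m9
        rw [e]
        split_ifs with s1 s2
        · have := MM_le_of (show j ≤ 3 * p + 5 by omega) m5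
          linarith
        · have := MM_le_of (show j ≤ 3 * p + 2 by omega) m2
          linarith
        · have := MM_le_of (show j ≤ 3 * p + 2 by omega) m2
          linarith
      · rw [lam1]
        have hL : Lb p 1 = 3 * p + 12 := by simp [Lb]
        rw [hL] at hj ⊢
        have e : (MM (3 * p + 9 + 1) : ℝ) = 36 * Y := m10
        rw [e]
        have hd' := MM_le_of (hd1 rfl) m7
        split_ifs with s1 s2 s3
        · linarith
        · have := MM_le_of (show j ≤ 3 * p + 6 by omega) m6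
          linarith
        · have := MM_le_of (show j ≤ 3 * p + 4 by omega) m4
          linarith
        · have := MM_le_of (show j ≤ 3 * p + 4 by omega) m4
          linarith
      · rw [lam2]
        have hL : Lb p 2 = 3 * p + 9 := by simp [Lb]
        rw [hL] at hj ⊢
        have e : (MM (3 * p + 9 + 2) : ℝ) = 54 * Y := m11
        rw [e]
        split_ifs with s1 s2
        · have := MM_le_of (show j ≤ 3 * p + 8 by omega) m8
          linarith
        · have := MM_le_of (show j ≤ 3 * p + 2 by omega) m2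
          linarith
        · have := MM_le_of (show j ≤ 3 * p + 2 by omega) m2
          linarith
    · rw [Ub_B hB, Ub_B hB']
      have h2 := MM_super (j - d - (3 * p + 7) / 2) d
      have e : j - d - (3 * p + 7) / 2 + d = j - (3 * p + 7) / 2 := by omega
      rw [e] at h2
      have h3 : (MM (j - d - (3 * p + 7) / 2) : ℝ) + MM d ≤ MM (j - (3 * p + 7) / 2) + 1 := by
        exact_mod_cast h2
      have h4 := lam_anti (r := r) (show Lb p r - j ≤ Lb p r - (j - d) by omega)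
      have h5 := mul_le_mul_of_nonneg_right h4 hY.le
      linarith

lemma lam0_b (S : ℕ) : lam 0 S ≤ 33.4 ∧ (7 ≤ S → lam 0 S ≤ 30.5) ∧ (13 ≤ S → lam 0 S ≤ 29.5) ∧
    29.5 ≤ lam 0 S ∧ (S ≤ 12 → 30.5 ≤ lam 0 S) ∧ (S ≤ 6 → 33.4 ≤ lam 0 S) := by
  rw [lam0]
  split_ifs <;> refine ⟨?_, ?_, ?_, ?_, ?_, ?_⟩ <;> intros <;> first | omega | norm_num

lemma lam1_b (S : ℕ) : lam 1 S ≤ 48.5 ∧ (6 ≤ S → lam 1 S ≤ 45.6) ∧ (12 ≤ S → lam 1 S ≤ 42.7) ∧
    (18 ≤ S → lam 1 S ≤ 41.7) ∧ 41.7 ≤ lam 1 S ∧ (S ≤ 17 → 42.7 ≤ lam 1 S) ∧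
    (S ≤ 11 → 45.6 ≤ lam 1 S) ∧ (S ≤ 5 → 48.5 ≤ lam 1 S) := by
  rw [lam1]
  split_ifs <;> refine ⟨?_, ?_, ?_, ?_, ?_, ?_, ?_, ?_⟩ <;> intros <;> first | omega | norm_num

lemma lam2_b (S : ℕ) : lam 2 S ≤ 72.5 ∧ (7 ≤ S → lam 2 S ≤ 63.9) ∧ (13 ≤ S → lam 2 S ≤ 61) ∧
    61 ≤ lam 2 S ∧ (S ≤ 12 → 63.9 ≤ lam 2 S) ∧ (S ≤ 6 → 72.5 ≤ lam 2 S) := by
  rw [lam2]
  split_ifs <;> refine ⟨?_, ?_, ?_, ?_, ?_, ?_⟩ <;> intros <;> first | omega | norm_num

/-- the step into the previous block, residue one -/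
lemma step_prev1 {p j d : ℕ} (hp : 9 ≤ p) (hj : j < 3 * p + 12)
    (hdd : d * (d + 4) ≤ 9 * p * p + 51 * p + 66 + 2 * j) (hdj : j < d) :
    d ≤ j + (3 * p + 6) ∧ Ub p 0 (3 * p + 6 + j - d) + MM d ≤ Ub p 1 j + 1 := by
  obtain ⟨m2, m3, m4, m5, m6, m7, m8, m9, m10, m11, m12⟩ := MMv p
  have hY : (0 : ℝ) < 3 ^ p := by positivity
  set Y : ℝ := 3 ^ p with hYd
  have hd7 : d ≤ 3 * p + 7 := by
    by_contra h
    push Not at h
    have := Nat.mul_le_mul (show 3 * p + 8 ≤ d by omega) (show 3 * p + 12 ≤ d + 4 by omega)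
    nlinarith
  have hd6 : 2 * j < 3 * p + 11 → d ≤ 3 * p + 6 := by
    intro h2
    by_contra h
    push Not at h
    have := Nat.mul_le_mul (show 3 * p + 7 ≤ d by omega) (show 3 * p + 11 ≤ d + 4 by omega)
    nlinarith
  have hle : d ≤ j + (3 * p + 6) := by
    rcases Nat.eq_zero_or_pos j with h | h
    · have := hd6 (by omega); omega
    · omega
  refine ⟨hle, ?_⟩
  have hL0 : Lb p 0 = 3 * p + 6 := by simp [Lb]
  have hL1 : Lb p 1 = 3 * p + 12 := by simp [Lb]
  have hj1 : (1 : ℝ) ≤ MM j := by exact_mod_cast MM_pos j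
  have e1 : (MM (3 * p + 9 + 1) : ℝ) = 36 * Y := m10
  have e0 : (MM (3 * p + 9 + 0) : ℝ) = 27 * Y := m9
  have e5 : 3 * p + 6 - (3 * p + 6 + j - d) = d - j := by omega
  obtain ⟨u1, u2, u3, -⟩ := lam0_b (d - j)
  have v1 := mul_le_mul_of_nonneg_right u1 hY.le
  rcases Nat.lt_or_ge (2 * j) (3 * p + 6) with hA | hB
  · have hd6' := hd6 (by omega)
    rcases Nat.lt_or_ge (2 * (3 * p + 6 + j - d)) (3 * p + 6) with hA' | hB'
    · -- zone A to zone A
      rw [Ub_A hA, Ub_A hA', e1, e0]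
      have h2 := MM_conv _ j (3 * p + 6 - d) (d - j) rfl
      have e2 : j + (3 * p + 6 - d) = 3 * p + 6 + j - d := by omega
      have e3 : j + (d - j) = d := by omega
      have e4 : 3 * p + 6 + j - d + (d - j) = 3 * p + 6 := by omega
      rw [e2, e3, e4] at h2
      have h3 : (MM (3 * p + 6 + j - d) : ℝ) + MM d ≤ MM j + MM (3 * p + 6) := by
        exact_mod_cast h2
      rw [m6] at h3
      push_cast
      linarith
    · -- zone A to zone B
      rw [Ub_A hA, Ub_B hB', hL0, e1]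
      have ht := MM_tiny hp (k := 3 * p + 6 + j - d - (3 * p + 7) / 2) (by omega)
      rw [e5]
      push_cast
      rcases Nat.lt_or_ge d (3 * p + 2) with h5 | h5
      · have h6 := MM_le_of (show d ≤ 3 * p + 2 by omega) m2
        linarith
      · have h6 := MM_le_of (show d ≤ 3 * p + 5 by omega) m5
        have v3 := mul_le_mul_of_nonneg_right (u3 (by omega)) hY.le
        linarith
  · rcases Nat.lt_or_ge (2 * (3 * p + 6 + j - d)) (3 * p + 6) with hA' | hB'
    · exfalso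
      rcases Nat.lt_or_ge (2 * j) (3 * p + 11) with h5 | h5
      · have := hd6 h5
        omega
      · omega
    · rw [Ub_B hB, Ub_B hB', hL0, hL1]
      have ht := MM_tiny hp (k := 3 * p + 6 + j - d - (3 * p + 7) / 2) (by omega)
      have hg : (0 : ℝ) ≤ MM (j - (3 * p + 7) / 2) := Nat.cast_nonneg _
      rw [e5]
      push_cast
      have h7 := MM_le_of hd7 m7
      obtain ⟨-, -, -, -, w1, w2, w3, -⟩ := lam1_b (3 * p + 12 - j)
      have x1 := mul_le_mul_of_nonneg_right w1 hY.le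
      rcases Nat.lt_or_ge (3 * p + 12 - j) 12 with hS | hS
      · have x3 := mul_le_mul_of_nonneg_right (w3 (by omega)) hY.le
        linarith
      · rcases Nat.lt_or_ge d (3 * p + 6) with h9 | h9
        · have h5 := MM_le_of (show d ≤ 3 * p + 5 by omega) m5
          linarith
        · rcases Nat.lt_or_ge (3 * p + 12 - j) 18 with hS2 | hS2
          · have x2 := mul_le_mul_of_nonneg_right (w2 (by omega)) hY.le
            rcases Nat.lt_or_ge d (3 * p + 7) with h8 | h8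
            · have h6 := MM_le_of (show d ≤ 3 * p + 6 by omega) m6
              linarith
            · have v2 := mul_le_mul_of_nonneg_right (u2 (by omega)) hY.le
              linarith
          · rcases Nat.lt_or_ge d (3 * p + 7) with h8 | h8
            · have h6 := MM_le_of (show d ≤ 3 * p + 6 by omega) m6
              have v2 := mul_le_mul_of_nonneg_right (u2 (by omega)) hY.le
              linarith
            · have v3 := mul_le_mul_of_nonneg_right (u3 (by omega)) hY.le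
              linarith

/-- the step into the previous block, residue two -/
lemma step_prev2 {p j d : ℕ} (hp : 9 ≤ p) (hj : j < 3 * p + 9)
    (hdd : d * (d + 4) ≤ 9 * p * p + 57 * p + 90 + 2 * j) (hdj : j < d) :
    d ≤ j + (3 * p + 12) ∧ Ub p 1 (3 * p + 12 + j - d) + MM d ≤ Ub p 2 j + 1 := by
  obtain ⟨m2, m3, m4, m5, m6, m7, m8, m9, m10, m11, m12⟩ := MMv p
  have hY : (0 : ℝ) < 3 ^ p := by positivity
  set Y : ℝ := 3 ^ p with hYd
  have hd8 : d ≤ 3 * p + 8 := by
    by_contra h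
    push Not at h
    have := Nat.mul_le_mul (show 3 * p + 9 ≤ d by omega) (show 3 * p + 13 ≤ d + 4 by omega)
    nlinarith
  have hd7 : 2 * j < 3 * p + 6 → d ≤ 3 * p + 7 := by
    intro h2
    by_contra h
    push Not at h
    have := Nat.mul_le_mul (show 3 * p + 8 ≤ d by omega) (show 3 * p + 12 ≤ d + 4 by omega)
    nlinarith
  refine ⟨by omega, ?_⟩
  have hL1 : Lb p 1 = 3 * p + 12 := by simp [Lb]
  have hL2 : Lb p 2 = 3 * p + 9 := by simp [Lb]
  have hj1 : (1 : ℝ) ≤ MM j := by exact_mod_cast MM_pos j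
  have e2 : (MM (3 * p + 9 + 2) : ℝ) = 54 * Y := m11
  have e1 : (MM (3 * p + 9 + 1) : ℝ) = 36 * Y := m10
  have e5 : 3 * p + 12 - (3 * p + 12 + j - d) = d - j := by omega
  obtain ⟨u1, u2, u3, u4, -⟩ := lam1_b (d - j)
  have v1 := mul_le_mul_of_nonneg_right u1 hY.le
  rcases Nat.lt_or_ge (2 * j) (3 * p + 6) with hA | hB
  · have hd7' := hd7 hA
    have h7 := MM_le_of hd7' m7
    rcases Nat.lt_or_ge (2 * (3 * p + 12 + j - d)) (3 * p + 6) with hA' | hB'
    · rw [Ub_A hA, Ub_A hA', e1, e2]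
      have ht := MM_tiny hp (k := 3 * p + 12 + j - d) (by omega)
      push_cast
      linarith
    · rw [Ub_A hA, Ub_B hB', hL1, e2]
      have ht := MM_tiny hp (k := 3 * p + 12 + j - d - (3 * p + 7) / 2) (by omega)
      rw [e5]
      push_cast
      rcases Nat.lt_or_ge d (3 * p + 5) with h5 | h5
      · have h6 := MM_le_of (show d ≤ 3 * p + 4 by omega) m4
        linarith
      · rcases Nat.lt_or_ge d (3 * p + 7) with h6 | h6
        · have h8 := MM_le_of (show d ≤ 3 * p + 6 by omega) m6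
          have v3 := mul_le_mul_of_nonneg_right (u3 (by omega)) hY.le
          linarith
        · have v4 := mul_le_mul_of_nonneg_right (u4 (by omega)) hY.le
          linarith
  · have hB' : 3 * p + 6 ≤ 2 * (3 * p + 12 + j - d) := by omega
    rw [Ub_B hB, Ub_B hB', hL1, hL2]
    have ht := MM_tiny hp (k := 3 * p + 12 + j - d - (3 * p + 7) / 2) (by omega)
    have hg : (0 : ℝ) ≤ MM (j - (3 * p + 7) / 2) := Nat.cast_nonneg _
    rw [e5]
    push_cast
    have h8 := MM_le_of hd8 m8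
    obtain ⟨-, -, -, w1, w2, w3⟩ := lam2_b (3 * p + 9 - j)
    have x1 := mul_le_mul_of_nonneg_right w1 hY.le
    rcases Nat.lt_or_ge (3 * p + 9 - j) 7 with hS | hS
    · have x3 := mul_le_mul_of_nonneg_right (w3 (by omega)) hY.le
      linarith
    · rcases Nat.lt_or_ge d (3 * p + 8) with h9 | h9
      · have h5 := MM_le_of (show d ≤ 3 * p + 7 by omega) m7
        linarith
      · rcases Nat.lt_or_ge (3 * p + 9 - j) 13 with hS2 | hS2
        · have x2 := mul_le_mul_of_nonneg_right (w2 (by omega)) hY.le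
          have v2 := mul_le_mul_of_nonneg_right (u2 (by omega)) hY.le
          linarith
        · have v3 := mul_le_mul_of_nonneg_right (u3 (by omega)) hY.le
          linarith

/-- the step into the previous block, residue zero; `p' = p - 1` -/
lemma step_prev0 {p' j d : ℕ} (hp : 8 ≤ p') (hj : j < 3 * p' + 9)
    (hdd : d * (d + 4) ≤ 9 * (p' + 1) * (p' + 1) + 45 * (p' + 1) + 54 + 2 * j) (hdj : j < d) :
    d ≤ j + (3 * p' + 9) ∧ Ub p' 2 (3 * p' + 9 + j - d) + MM d ≤ Ub (p' + 1) 0 j + 1 := by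
  obtain ⟨m2, m3, m4, m5, m6, m7, m8, m9, m10, m11, m12⟩ := MMv (p' + 1)
  have hY : (0 : ℝ) < 3 ^ (p' + 1) := by positivity
  have hY' : (3 : ℝ) ^ p' = 3 ^ (p' + 1) / 3 := by rw [pow_succ]; ring
  have hn' : (MM (3 * p' + 9 + 2) : ℝ) = 18 * 3 ^ (p' + 1) := m8
  have hd6 : d ≤ 3 * p' + 9 := by
    by_contra h
    push Not at h
    have := Nat.mul_le_mul (show 3 * p' + 10 ≤ d by omega) (show 3 * p' + 14 ≤ d + 4 by omega)
    nlinarith
  have hd5 : 2 * j < 3 * p' + 9 → d ≤ 3 * p' + 8 := by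
    intro h2
    by_contra h
    push Not at h
    have := Nat.mul_le_mul (show 3 * p' + 9 ≤ d by omega) (show 3 * p' + 13 ≤ d + 4 by omega)
    nlinarith
  refine ⟨by omega, ?_⟩
  have hL2 : Lb p' 2 = 3 * p' + 9 := by simp [Lb]
  have hL0 : Lb (p' + 1) 0 = 3 * p' + 9 := by simp [Lb]; ring
  have hj1 : (1 : ℝ) ≤ MM j := by exact_mod_cast MM_pos j
  have e0 : (MM (3 * (p' + 1) + 9 + 0) : ℝ) = 27 * 3 ^ (p' + 1) := m9
  have e5 : 3 * p' + 9 - (3 * p' + 9 + j - d) = d - j := by omega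
  have hr1 : 3 * (p' + 1) + 2 = 3 * p' + 5 := by ring
  have hr2 : 3 * (p' + 1) + 5 = 3 * p' + 8 := by ring
  have hr3 : 3 * (p' + 1) + 6 = 3 * p' + 9 := by ring
  have hr4 : 3 * (p' + 1) + 4 = 3 * p' + 7 := by ring
  rw [hr1] at m2
  rw [hr2] at m5
  rw [hr3] at m6
  rw [hr4] at m4
  obtain ⟨u1, u2, u3, -⟩ := lam2_b (d - j)
  have v1 := mul_le_mul_of_nonneg_right u1 hY.le
  rcases Nat.lt_or_ge (2 * j) (3 * p' + 9) with hA | hB
  · have hd5' := hd5 hA
    rw [Ub_A (show 2 * j < 3 * (p' + 1) + 6 by omega), e0]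
    rcases Nat.lt_or_ge (2 * (3 * p' + 9 + j - d)) (3 * p' + 6) with hA' | hB'
    · rw [Ub_A hA', hn']
      have ht := MM_tiny (show 9 ≤ p' + 1 by omega) (k := 3 * p' + 9 + j - d) (by omega)
      have h5 := MM_le_of hd5' m5
      push_cast
      linarith
    · rw [Ub_B hB', hL2, hY']
      have ht := MM_tiny (show 9 ≤ p' + 1 by omega)
        (k := 3 * p' + 9 + j - d - (3 * p' + 7) / 2) (by omega)
      rw [e5]
      push_cast
      rcases Nat.lt_or_ge d (3 * p' + 6) with h5 | h5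
      · have h6 := MM_le_of (show d ≤ 3 * p' + 5 by omega) m2
        linarith
      · have h6 := MM_le_of hd5' m5
        have v3 := mul_le_mul_of_nonneg_right (u3 (by omega)) hY.le
        linarith
  · have hB' : 3 * p' + 6 ≤ 2 * (3 * p' + 9 + j - d) := by omega
    rw [Ub_B (show 3 * (p' + 1) + 6 ≤ 2 * j by omega), Ub_B hB', hL0, hL2, hY']
    have ht := MM_tiny (show 9 ≤ p' + 1 by omega)
      (k := 3 * p' + 9 + j - d - (3 * p' + 7) / 2) (by omega)
    have hg : (0 : ℝ) ≤ MM (j - (3 * (p' + 1) + 7) / 2) := Nat.cast_nonneg _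
    rw [e5]
    push_cast
    have h6 := MM_le_of hd6 m6
    obtain ⟨-, -, -, w1, w2, w3⟩ := lam0_b (3 * p' + 9 - j)
    have x1 := mul_le_mul_of_nonneg_right w1 hY.le
    rcases Nat.lt_or_ge (3 * p' + 9 - j) 7 with hS | hS
    · have x3 := mul_le_mul_of_nonneg_right (w3 (by omega)) hY.le
      linarith
    · rcases Nat.lt_or_ge (3 * p' + 9 - j) 13 with hS2 | hS2
      · have x2 := mul_le_mul_of_nonneg_right (w2 (by omega)) hY.le
        rcases Nat.lt_or_ge d (3 * p' + 9) with h9 | h9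
        · have h5 := MM_le_of (show d ≤ 3 * p' + 8 by omega) m5
          linarith
        · have v2 := mul_le_mul_of_nonneg_right (u2 (by omega)) hY.le
          linarith
      · rcases Nat.lt_or_ge d (3 * p' + 9) with h9 | h9
        · rcases Nat.lt_or_ge d (3 * p' + 8) with h10 | h10
          · have h4 := MM_le_of (show d ≤ 3 * p' + 7 by omega) m4
            linarith
          · have h5 := MM_le_of (show d ≤ 3 * p' + 8 by omega) m5
            have v2 := mul_le_mul_of_nonneg_right (u2 (by omega)) hY.le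
            linarith
        · have v3 := mul_le_mul_of_nonneg_right (u3 (by omega)) hY.le
          linarith

end Pool.Agent.Helper432.MISNum
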