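import Mathlib
import Pool.Agent.Helper432.MIS.Extra

namespace Pool.Agent.Helper432.MISExtra

open Finset Pool.Agent.Helper432.MISBase

attribute [local instance] Classical.propDecidable

lemma two_nbrs {V : Type*} (G : SimpleGraph V) {A : Finset V} {x : V} (h : dg G A x = 2) :
    ∃ a b, a ∈ A ∧ b ∈ A ∧ a ≠ b ∧ G.Adj x a ∧ G.Adj x b ∧
      ∀ z ∈ A, G.Adj x z → z = a ∨ z = b := by
  unfold dg at h
  rw [Finset.card_eq_two] at h
  obtain ⟨a, b, hab, hs⟩ := h
  have hm : ∀ z, (z ∈ A ∧ G.Adj x z) ↔ (z = a ∨ z = b) := by
    intro z
    have : z ∈ A.filter (fun y => G.Adj x y) ↔ z ∈ ({a, b} : Finset V) := by rw [hs]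
    simpa only [Finset.mem_filter, Finset.mem_insert, Finset.mem_singleton] using this
  have h1 := (hm a).2 (Or.inl rfl)
  have h2 := (hm b).2 (Or.inr rfl)
  exact ⟨a, b, h1.1, h2.1, hab, h1.2, h2.2, fun z hz h => (hm z).1 ⟨hz, h⟩⟩

lemma two_nbrs_eq {V : Type*} (G : SimpleGraph V) {A : Finset V} {x c d : V} (h : dg G A x = 2)
    (hc : c ∈ A) (hd : d ∈ A) (hcd : c ≠ d) (hxc : G.Adj x c) (hxd : G.Adj x d) :
    ∀ z ∈ A, G.Adj x z → z = c ∨ z = d := by
  obtain ⟨a, b, ha, hb, hab, hxa, hxb, hall⟩ := two_nbrs G h
  intro z hz hxz
  rcases hall c hc hxc with rfl | rfl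
  · rcases hall d hd hxd with rfl | rfl
    · exact absurd rfl hcd
    · exact hall z hz hxz
  · rcases hall d hd hxd with rfl | rfl
    · exact (hall z hz hxz).symm
    · exact absurd rfl hcd

/-- If the graph induced on `A` is 2-regular (a disjoint union of cycles) and the number of
vertices is 2 modulo 3, then the number of maximal independent sets is at most 8/9 of the
Moon-Moser number. -/
lemma two_regular_bound {V : Type*} (G : SimpleGraph V) (A : Finset V)
    (hreg : ∀ x ∈ A, dg G A x = 2) (hmod : A.card % 3 = 2) :
    9 * (MI G A).card ≤ 8 * MM A.card := by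
  induction A using Finset.strongInduction with
  | H A ih =>
    have hne : A.Nonempty := by
      rw [← Finset.card_pos]; omega
    obtain ⟨x, hx⟩ := hne
    obtain ⟨a, b, ha, hb, hab, hxa, hxb, hxall⟩ := two_nbrs G (hreg x hx)
    have hxane : x ≠ a := hxa.ne
    have hxbne : x ≠ b := hxb.ne
    by_cases hadj : G.Adj a b
    · -- triangle
      have haall : ∀ z ∈ A, G.Adj a z → z = x ∨ z = b :=
        two_nbrs_eq G (hreg a ha) hx hb hxbne hxa.symm hadj
      have hball : ∀ z ∈ A, G.Adj b z → z = x ∨ z = a :=
        two_nbrs_eq G (hreg b hb) hx ha hxane hxb.symm hadj.symm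
      have haway : ∀ y ∈ nb G A x, away G A y = away G A x := by
        intro y hy
        simp only [nb, Finset.mem_filter] at hy
        have hy' : y = x ∨ y = a ∨ y = b := by
          rcases hy.2 with h | h
          · exact Or.inl h
          · exact Or.inr (hxall y hy.1 h)
        rcases hy' with rfl | rfl | rfl
        · rfl
        · ext z
          simp only [away, Finset.mem_filter, not_or]
          constructor
          · rintro ⟨h1, h2, h3⟩
            refine ⟨h1, ?_, ?_⟩
            · rintro rfl; exact h3 hxa.symm
            · intro h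
              rcases hxall z h1 h with rfl | rfl
              · exact h2 rfl
              · exact h3 hadj
          · rintro ⟨h1, h2, h3⟩
            refine ⟨h1, ?_, ?_⟩
            · rintro rfl; exact h3 hxa
            · intro h
              rcases haall z h1 h with rfl | rfl
              · exact h2 rfl
              · exact h3 hxb
        · ext z
          simp only [away, Finset.mem_filter, not_or]
          constructor
          · rintro ⟨h1, h2, h3⟩
            refine ⟨h1, ?_, ?_⟩
            · rintro rfl; exact h3 hxb.symm
            · intro h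
              rcases hxall z h1 h with rfl | rfl
              · exact h3 hadj.symm
              · exact h2 rfl
          · rintro ⟨h1, h2, h3⟩
            refine ⟨h1, ?_, ?_⟩
            · rintro rfl; exact h3 hxb
            · intro h
              rcases hball z h1 h with rfl | rfl
              · exact h2 rfl
              · exact h3 hxa
      have h1 := rec1 G hx
      rw [Finset.sum_congr rfl (fun y hy => by rw [haway y hy]), Finset.sum_const, card_nb G hx,
        hreg x hx, smul_eq_mul] at h1
      have hcard := card_away G hx
      rw [hreg x hx] at hcard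
      have hss : away G A x ⊂ A :=
        lt_of_le_of_lt (away_subset_erase G A x) (Finset.erase_ssubset hx)
      have hreg' : ∀ z ∈ away G A x, dg G (away G A x) z = 2 := by
        intro z hz
        have hz' := hz
        simp only [away, Finset.mem_filter, not_or] at hz'
        rw [← hreg z hz'.1]
        unfold dg
        congr 1
        ext w
        simp only [away, Finset.mem_filter, not_or]
        constructor
        · rintro ⟨⟨h1, -⟩, h2⟩; exact ⟨h1, h2⟩
        · rintro ⟨h1, h2⟩
          refine ⟨⟨h1, ?_, ?_⟩, h2⟩
          · rintro rfl; exact hz'.2.2 h2.symm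
          · intro h
            rcases hxall w h1 h with rfl | rfl
            · rcases haall z hz'.1 h2.symm with rfl | rfl
              · exact hz'.2.1 rfl
              · exact hz'.2.2 hxb
            · rcases hball z hz'.1 h2.symm with rfl | rfl
              · exact hz'.2.1 rfl
              · exact hz'.2.2 hxa
      have h2 := ih _ hss hreg' (by omega)
      have h3 := MM_add3 (away G A x).card
      have h4 : (away G A x).card + 3 = A.card := by omega
      rw [h4] at h3
      omega
    · -- no triangle
      obtain ⟨y, hy, hyx, hay, haall⟩ : ∃ y ∈ A, y ≠ x ∧ G.Adj a y ∧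
          ∀ z ∈ A, G.Adj a z → z = x ∨ z = y := by
        obtain ⟨c, d, hc, hd, hcd, hac, had, hall⟩ := two_nbrs G (hreg a ha)
        rcases hall x hx hxa.symm with rfl | rfl
        · exact ⟨d, hd, hcd.symm, had, hall⟩
        · exact ⟨c, hc, hcd, hac, fun z hz h => (hall z hz h).symm⟩
      have hyb : y ≠ b := by rintro rfl; exact hadj hay
      have hya : y ≠ a := hay.ne.symm
      have hxy : ¬ G.Adj x y := by
        intro h
        rcases hxall y hy h with h | h
        · exact hya h
        · exact hyb h
      set B := A.erase x with hB
      have haB : a ∈ B := Finset.mem_erase.2 ⟨hxane.symm, ha⟩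
      have hyB : y ∈ B := Finset.mem_erase.2 ⟨hyx, hy⟩
      have hcB : B.card + 1 = A.card := Finset.card_erase_add_one hx
      have hdga : dg G B a = 1 := by
        unfold dg
        rw [Finset.card_eq_one]
        refine ⟨y, ?_⟩
        ext z
        simp only [Finset.mem_filter, Finset.mem_singleton, hB, Finset.mem_erase]
        constructor
        · rintro ⟨⟨h1, h2⟩, h3⟩
          rcases haall z h2 h3 with h | h
          · exact absurd h h1
          · exact h
        · rintro rfl
          exact ⟨⟨hyx, hy⟩, hay⟩
      have hdgy : dg G B y = 2 := by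
        rw [← hreg y hy]
        unfold dg
        congr 1
        ext z
        simp only [Finset.mem_filter, hB, Finset.mem_erase]
        constructor
        · rintro ⟨⟨h1, h2⟩, h3⟩; exact ⟨h2, h3⟩
        · rintro ⟨h1, h2⟩
          refine ⟨⟨?_, h1⟩, h2⟩
          rintro rfl; exact hxy h2.symm
      have hnb : nb G B a = {a, y} := by
        ext z
        simp only [nb, Finset.mem_filter, Finset.mem_insert, Finset.mem_singleton]
        constructor
        · rintro ⟨h1, h2 | h2⟩
          · exact Or.inl h2
          · have h1' := Finset.mem_erase.1 h1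
            rcases haall z h1'.2 h2 with h | h
            · exact absurd h h1'.1
            · exact Or.inr h
        · rintro (rfl | rfl)
          · exact ⟨haB, Or.inl rfl⟩
          · exact ⟨hyB, Or.inr hay⟩
      have h1 := rec2 G hx
      rw [← hB] at h1
      have h2 := rec1 G haB
      rw [hnb, Finset.sum_pair hya.symm] at h2
      have c1 := card_away G hx
      have c2 := card_away G haB
      have c3 := card_away G hyB
      rw [hreg x hx] at c1
      rw [hdga] at c2
      rw [hdgy] at c3
      have m1 := moon_moser_nat G (away G A x)
      have m2 := moon_moser_nat G (away G B a)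
      have m3 := moon_moser_nat G (away G B y)
      have e1 : (away G A x).card = A.card - 3 := by omega
      have e2' : (away G B a).card = A.card - 3 := by omega
      have e3 : (away G B y).card = A.card - 4 := by omega
      rw [e1] at m1
      rw [e2'] at m2
      rw [e3] at m3
      have htot : (MI G A).card ≤ 2 * MM (A.card - 3) + MM (A.card - 4) := by omega
      obtain ⟨k, hk⟩ : ∃ k, A.card = 3 * k + 2 := ⟨A.card / 3, by omega⟩
      have hk1 : 1 ≤ k := by omega
      rcases Nat.lt_or_ge k 2 with hk2 | hk2
      · have hk3 : k = 1 := by omega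
        subst hk3
        rw [hk] at htot ⊢
        have v1 : MM (3 * 1 + 2 - 3) = 2 := by decide
        have v2 : MM (3 * 1 + 2 - 4) = 1 := by decide
        have v3 : MM (3 * 1 + 2) = 6 := by decide
        rw [v1, v2] at htot
        rw [v3]
        omega
      · obtain ⟨m, rfl⟩ : ∃ m, k = m + 2 := ⟨k - 2, by omega⟩
        rw [hk] at htot ⊢
        have v1 : MM (3 * (m + 2) + 2 - 3) = 2 * 3 ^ (m + 1) := by
          rw [← MM_three_mul_add_two]; congr 1
        have v2 : MM (3 * (m + 2) + 2 - 4) = 4 * 3 ^ m := by
          rw [← MM_three_mul_add_four]; congr 1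
        have v3 : MM (3 * (m + 2) + 2) = 2 * 3 ^ (m + 2) := MM_three_mul_add_two _
        rw [v1, v2] at htot
        rw [v3]
        have p1 : 3 ^ (m + 1) = 3 * 3 ^ m := by ring
        have p2 : 3 ^ (m + 2) = 9 * 3 ^ m := by ring
        rw [p1] at htot
        rw [p2]
        omega

end Pool.Agent.Helper432.MISExtra
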