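import Mathlib
import Pool.Agent.Helper432.MIS.Table2
import Pool.Agent.Helper432.MIS.Reg

namespace Pool.Agent.Helper432.MISNum

open Finset Pool.Agent.Helper432.MISBase

attribute [local instance] Classical.propDecidable

lemma two_mm0 (k : ℕ) : 2 * mm (3 * k + 3) = 9 * k * k + 9 * k := by
  rw [mm, if_pos (by omega), even_mul_sub_three]
  simp only [Nat.add_sub_cancel]
  ring

lemma two_mm1 (k : ℕ) : 2 * mm (3 * k + 4) = 9 * k * k + 15 * k := by
  rw [mm, if_neg (by omega), if_pos (by omega), even_mul_four_one]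
  simp only [Nat.add_sub_cancel]
  ring

lemma two_mm2 (k : ℕ) : 2 * mm (3 * k + 5) = 9 * k * k + 21 * k + 12 := by
  rw [mm, if_neg (by omega), if_neg (by omega), even_mul_one_two]
  have e1 : 3 * k + 5 - 1 = 3 * k + 4 := by omega
  have e2 : 3 * k + 5 - 2 = 3 * k + 3 := by omega
  rw [e1, e2]
  ring

lemma mod_cases {n : ℕ} (hn : 3 ≤ n) : ∃ k, n = 3 * k + 3 ∨ n = 3 * k + 4 ∨ n = 3 * k + 5 :=
  ⟨(n - 3) / 3, by omega⟩

lemma mm_succ {n : ℕ} (hn : 3 ≤ n) : mm n ≤ mm (n + 1) := by
  obtain ⟨k, rfl | rfl | rfl⟩ := mod_cases hn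
  · have h1 := two_mm0 k
    have h2 := two_mm1 k
    have e : 3 * k + 3 + 1 = 3 * k + 4 := by ring
    rw [e]; omega
  · have h1 := two_mm1 k
    have h2 := two_mm2 k
    have e : 3 * k + 4 + 1 = 3 * k + 5 := by ring
    rw [e]; omega
  · have h1 := two_mm2 k
    have h2 := two_mm0 (k + 1)
    have e : 3 * k + 5 + 1 = 3 * (k + 1) + 3 := by ring
    have e2 : 9 * (k + 1) * (k + 1) + 9 * (k + 1) = 9 * k * k + 27 * k + 18 := by ring
    rw [e2] at h2
    rw [e]; omega

lemma mm_mono {a b : ℕ} (ha : 3 ≤ a) (h : a ≤ b) : mm a ≤ mm b := by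
  induction b, h using Nat.le_induction with
  | base => exact le_rfl
  | succ n hn ih => exact ih.trans (mm_succ (by omega))

lemma MM_sub_mono {a b : ℕ} (ha : 1 ≤ a) (h : a ≤ b) : MM a + b ≤ MM b + a := by
  have key : ∀ n, 1 ≤ n → MM n + 1 ≤ MM (n + 1) := by
    intro n hn
    induction n using Nat.strong_induction_on with
    | _ n ih =>
      rcases Nat.lt_or_ge n 5 with h5 | h5
      · interval_cases n <;> simp [MM]
      · have h1 := ih (n - 3) (by omega) (by omega)
        have e1 : MM n = 3 * MM (n - 3) := by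
          rw [← MM_rec3 (by omega)]; congr 1; omega
        have e2 : MM (n + 1) = 3 * MM (n - 3 + 1) := by
          rw [← MM_rec3 (by omega)]; congr 1; omega
        omega
  induction b, h using Nat.le_induction with
  | base => exact le_rfl
  | succ n hn ih =>
    have := key n (by omega)
    omega

/-- graphs of maximum degree at most two -/
lemma refined_cap {V : Type*} (G : SimpleGraph V) (A : Finset V) (hA3 : 3 ≤ A.card)
    (hmin : ∀ z ∈ A, A.card - 3 ≤ dg Gᶜ A z) {N : ℕ} (he : e2 Gᶜ A = 2 * N) :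
    (mm A.card ≤ N ∧ (MI G A).card ≤ MM A.card) ∨
    (A.card % 3 = 2 ∧ N + 1 = mm A.card ∧ 9 * (MI G A).card ≤ 8 * MM A.card) := by
  have hsum : A.card * (A.card - 3) ≤ e2 Gᶜ A := by
    calc A.card * (A.card - 3) = ∑ z ∈ A, (A.card - 3) := by simp
      _ ≤ _ := Finset.sum_le_sum hmin
  have hMM := MI_le_MM G A
  obtain ⟨k, hk⟩ := mod_cases hA3
  rcases hk with hk | hk | hk
  · left
    refine ⟨?_, hMM⟩
    have h1 := two_mm0 k
    rw [hk] at hsum ⊢
    simp only [Nat.add_sub_cancel] at hsum
    have : (3 * k + 3) * (3 * k) = 9 * k * k + 9 * k := by ring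
    omega
  · left
    refine ⟨?_, hMM⟩
    have h1 := two_mm1 k
    rw [hk] at hsum ⊢
    have e1 : 3 * k + 4 - 3 = 3 * k + 1 := by omega
    rw [e1] at hsum
    have : (3 * k + 4) * (3 * k + 1) = 9 * k * k + 15 * k + 4 := by ring
    omega
  · have h1 := two_mm2 k
    have e1 : A.card - 3 = 3 * k + 2 := by omega
    have e2' : A.card * (A.card - 3) = 9 * k * k + 21 * k + 10 := by rw [e1, hk]; ring
    rcases Nat.lt_or_ge N (mm A.card) with h2 | h2
    · right
      have h3 : N + 1 = mm A.card := by rw [hk] at h2 ⊢; omega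
      refine ⟨by omega, h3, ?_⟩
      have h4 : e2 Gᶜ A = A.card * (A.card - 3) := by
        rw [he, e2']; rw [hk] at h3; omega
      have h5 : ∀ z ∈ A, A.card - 3 = dg Gᶜ A z := by
        have h6 : ∑ z ∈ A, (A.card - 3) = ∑ z ∈ A, dg Gᶜ A z := by
          rw [Finset.sum_const, smul_eq_mul, ← h4]; rfl
        exact (Finset.sum_eq_sum_iff_of_le hmin).1 h6
      rw [← MM_eq]
      apply Pool.Agent.Helper432.MISExtra.two_regular_bound G A
      · intro x hx
        have h6 := card_away G hx
        rw [← dg_compl, ← h5 x hx] at h6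
        omega
      · omega
    · left
      exact ⟨h2, hMM⟩

/-- the table bound -/
lemma le_T2 {V : Type*} (G : SimpleGraph V) (A : Finset V) (hA : A.Nonempty) :
    ∀ N : ℕ, N < 594 → e2 Gᶜ A = 2 * N → (MI G A).card ≤ A.card + T2 N := by
  induction A using Finset.strongInduction with
  | H A ih =>
    intro N hN594 hN
    obtain ⟨x, hx, hmin⟩ := exists_min_dg Gᶜ hA
    have hdx := dg_compl G (A := A) x
    set d := dg Gᶜ A x with hd
    have hc := card_away G hx
    have h1 := rec2 G hx
    have h2 : (MI G (away G A x)).card ≤ MM d := by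
      rw [hdx]; exact MI_le_MM G _
    have h2' := MI_le_MM G A
    have hAc : 1 ≤ A.card := Finset.card_pos.2 hA
    have hsum : A.card * d ≤ e2 Gᶜ A := by
      calc A.card * d = ∑ z ∈ A, d := by simp
        _ ≤ _ := Finset.sum_le_sum (fun z hz => hmin z hz)
    rw [hN] at hsum
    rcases Nat.lt_or_ge (d + 3) A.card with hd4 | hd4
    · have he : (A.erase x).Nonempty := by
        rw [← Finset.card_pos, Finset.card_erase_of_mem hx]
        omega
      have hcard : (A.erase x).card = A.card - 1 := Finset.card_erase_of_mem hx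
      have he2 := e2_erase Gᶜ hx
      have h3 := ih _ (Finset.erase_ssubset hx) he (N - d) (by omega) (by omega)
      rcases Nat.eq_zero_or_pos d with h0 | h0
      · rw [h0] at h2 h3
        simp only [Nat.sub_zero] at h3
        have : MM 0 = 1 := by simp [MM]
        omega
      · have h4 : d * (d + 4) ≤ 2 * N := by
          have : (d + 4) * d ≤ A.card * d := Nat.mul_le_mul_right d hd4
          rw [mul_comm (d + 4) d] at this
          exact this.trans hsum
        have h5 := T2_step hN594 h0 h4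
        omega
    · rcases Nat.lt_or_ge A.card 3 with h3 | h3
      · have h4 : MM A.card ≤ A.card := by
          interval_cases A.card <;> simp [MM]
        omega
      · have hA36 : A.card < 36 := by
          by_contra h
          push Not at h
          have : 36 * 33 ≤ A.card * d := Nat.mul_le_mul h (by omega)
          omega
        rcases refined_cap G A h3 (fun z hz => (by omega : A.card - 3 ≤ d).trans (hmin z hz)) hN
          with ⟨h4, h5⟩ | ⟨h4, h5, h6⟩
        · have := T2_cap hN594 h3 hA36 h4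
          omega
        · have h7 := T2_cap2 A.card hA36 h4 (by omega)
          have e1 : mm A.card - 1 = N := by omega
          rw [e1, ← MM_eq_Mg2 _ hA36] at h7
          omega

/-- the table is below the block formula on the last block before 594 -/
lemma T2_le_Ub {j : ℕ} (hj : j < 33) : (T2 (561 + j) : ℝ) ≤ Ub 8 2 j := by
  rcases Nat.lt_or_ge j 15 with h | h
  · have h1 := T2_blockA j h
    rw [Ub_A (by omega)]
    rw [← MM_eq_Mg2 35 (by norm_num), ← MM_eq_Mg2 j (by omega)] at h1
    have h2 : ((T2 (561 + j) : ℕ) : ℝ) + 36 ≤ MM 35 + MM j := by exact_mod_cast h1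
    have e : (3 * 8 + 9 + 2 : ℕ) = 35 := by norm_num
    rw [e]
    push_cast
    linarith
  · have h1 := T2_blockB j hj h
    rw [Ub_B (by omega)]
    have hL : Lb 8 2 = 33 := by simp [Lb]
    have e : j - (3 * 8 + 7) / 2 = j - 15 := by omega
    rw [hL, e, lam2]
    rw [← MM_eq_Mg2 (j - 15) (by omega)] at h1
    have h2 : (10 : ℝ) * ((T2 (561 + j) : ℕ) + 35) ≤
        ((if 33 - j ≤ 6 then 725 else if 33 - j ≤ 12 then 639 else 610 : ℕ) : ℝ) * 6561 +
          10 * MM (j - 15) := by exact_mod_cast h1
    split_ifs at h2 ⊢ <;> push_cast at h2 ⊢ <;> linarith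

end Pool.Agent.Helper432.MISNum
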