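import Mathlib
import Pool.Agent.Helper432.MIS.HalfMain

namespace Pool.Agent.Helper432.MISNum

open Finset Pool.Agent.Helper432.MISBase

attribute [local instance] Classical.propDecidable

/-- twice the first count of each block -/
lemma two_mm_n0 (p : ℕ) : 2 * mm (3 * p + 9) = 9 * p * p + 45 * p + 54 := by
  have h := two_mm0 (p + 2)
  have e : 3 * (p + 2) + 3 = 3 * p + 9 := by ring
  rw [e] at h
  rw [h]; ring

lemma two_mm_n1 (p : ℕ) : 2 * mm (3 * p + 10) = 9 * p * p + 51 * p + 66 := by
  have h := two_mm1 (p + 2)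
  have e : 3 * (p + 2) + 4 = 3 * p + 10 := by ring
  rw [e] at h
  rw [h]; ring

lemma two_mm_n2 (p : ℕ) : 2 * mm (3 * p + 11) = 9 * p * p + 57 * p + 90 := by
  have h := two_mm2 (p + 2)
  have e : 3 * (p + 2) + 5 = 3 * p + 11 := by ring
  rw [e] at h
  rw [h]; ring

/-- consecutive Moon-Moser counts differ by the block length -/
lemma mm_next {p r : ℕ} (hr : r < 3) : mm (3 * p + 9 + r + 1) = mm (3 * p + 9 + r) + Lb p r := by
  have h0 := two_mm_n0 p
  have h1 := two_mm_n1 p
  have h2 := two_mm_n2 p
  have h3 := two_mm_n0 (p + 1)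
  have e : 9 * (p + 1) * (p + 1) + 45 * (p + 1) + 54 = 9 * p * p + 63 * p + 108 := by ring
  rw [e] at h3
  have e3 : 3 * (p + 1) + 9 = 3 * p + 12 := by ring
  rw [e3] at h3
  have hr' : r = 0 ∨ r = 1 ∨ r = 2 := by omega
  rcases hr' with rfl | rfl | rfl
  · have hL : Lb p 0 = 3 * p + 6 := by simp [Lb]
    rw [hL]
    show mm (3 * p + 10) = mm (3 * p + 9) + (3 * p + 6)
    omega
  · have hL : Lb p 1 = 3 * p + 12 := by simp [Lb]
    rw [hL]
    show mm (3 * p + 11) = mm (3 * p + 10) + (3 * p + 12)
    omega
  · have hL : Lb p 2 = 3 * p + 9 := by simp [Lb]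
    rw [hL]
    show mm (3 * p + 12) = mm (3 * p + 11) + (3 * p + 9)
    omega

/-- the potential of a block is at least the value at its start -/
lemma Ub_ge {p r j : ℕ} (hr : r < 3) : (MM (3 * p + 9 + r) : ℝ) - (3 * p + 9 + r) ≤ Ub p r j := by
  obtain ⟨m2, m3, m4, m5, m6, m7, m8, m9, m10, m11, m12⟩ := MMv p
  have hY : (0 : ℝ) < 3 ^ p := by positivity
  rcases Nat.lt_or_ge (2 * j) (3 * p + 6) with hA | hB
  · rw [Ub_A hA]
    have hj1 : (1 : ℝ) ≤ MM j := by exact_mod_cast MM_pos j
    linarith
  · rw [Ub_B hB]
    have hg : (0 : ℝ) ≤ MM (j - (3 * p + 7) / 2) := Nat.cast_nonneg _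
    have hr' : r = 0 ∨ r = 1 ∨ r = 2 := by omega
    rcases hr' with rfl | rfl | rfl
    · have e : (MM (3 * p + 9 + 0) : ℝ) = 27 * 3 ^ p := m9
      rw [e]
      obtain ⟨-, -, -, w, -⟩ := lam0_b (Lb p 0 - j)
      have := mul_le_mul_of_nonneg_right w hY.le
      linarith
    · have e : (MM (3 * p + 9 + 1) : ℝ) = 36 * 3 ^ p := m10
      rw [e]
      obtain ⟨-, -, -, -, w, -⟩ := lam1_b (Lb p 1 - j)
      have := mul_le_mul_of_nonneg_right w hY.le
      linarith
    · have e : (MM (3 * p + 9 + 2) : ℝ) = 54 * 3 ^ p := m11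
      rw [e]
      obtain ⟨-, -, -, w, -⟩ := lam2_b (Lb p 2 - j)
      have := mul_le_mul_of_nonneg_right w hY.le
      linarith

/-- degree bounds -/
lemma deg_bounds {p r j d : ℕ} (hr : r < 3) (hj : j < Lb p r)
    (hdd : d * (d + 4) ≤ 2 * (mm (3 * p + 9 + r) + j)) :
    d ≤ 3 * p + 8 ∧ (r = 0 → d ≤ 3 * p + 6) ∧ (r = 1 → d ≤ 3 * p + 7) := by
  have h0 := two_mm_n0 p
  have h1 := two_mm_n1 p
  have h2 := two_mm_n2 p
  have hr' : r = 0 ∨ r = 1 ∨ r = 2 := by omega
  rcases hr' with rfl | rfl | rfl
  · have hj' : j < 3 * p + 6 := by simpa [Lb] using hj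
    have e : mm (3 * p + 9 + 0) = mm (3 * p + 9) := by rfl
    rw [e] at hdd
    have : d ≤ 3 * p + 6 := by
      by_contra h
      push Not at h
      have h3 := Nat.mul_le_mul (show 3 * p + 7 ≤ d by omega)
        (show 3 * p + 11 ≤ d + 4 by omega)
      have h4 : (3 * p + 7) * (3 * p + 11) = 9 * p * p + 54 * p + 77 := by ring
      omega
    refine ⟨by omega, fun _ => this, fun h => by omega⟩
  · have hj' : j < 3 * p + 12 := by simpa [Lb] using hj
    have e : mm (3 * p + 9 + 1) = mm (3 * p + 10) := by rfl
    rw [e] at hdd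
    have : d ≤ 3 * p + 7 := by
      by_contra h
      push Not at h
      have h3 := Nat.mul_le_mul (show 3 * p + 8 ≤ d by omega)
        (show 3 * p + 12 ≤ d + 4 by omega)
      have h4 : (3 * p + 8) * (3 * p + 12) = 9 * p * p + 60 * p + 96 := by ring
      omega
    refine ⟨by omega, fun h => by omega, fun _ => this⟩
  · have hj' : j < 3 * p + 9 := by simpa [Lb] using hj
    have e : mm (3 * p + 9 + 2) = mm (3 * p + 11) := by rfl
    rw [e] at hdd
    have : d ≤ 3 * p + 8 := by
      by_contra h
      push Not at h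
      have h3 := Nat.mul_le_mul (show 3 * p + 9 ≤ d by omega)
        (show 3 * p + 13 ≤ d + 4 by omega)
      have h4 : (3 * p + 9) * (3 * p + 13) = 9 * p * p + 66 * p + 117 := by ring
      omega
    exact ⟨this, fun h => by omega, fun h => by omega⟩

lemma mm_next_lt {p r : ℕ} (hr : r < 3) :
    mm (3 * p + 9 + r + 1) < mm (3 * p + 9 + r + 1 + 1) := by
  have hr' : r = 0 ∨ r = 1 ∨ r = 2 := by omega
  rcases hr' with rfl | rfl | rfl
  · have := mm_next (p := p) (r := 1) (by omega)
    have e : Lb p 1 = 3 * p + 12 := by simp [Lb]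
    rw [e] at this
    show mm (3 * p + 9 + 1) < mm (3 * p + 9 + 1 + 1)
    omega
  · have := mm_next (p := p) (r := 2) (by omega)
    have e : Lb p 2 = 3 * p + 9 := by simp [Lb]
    rw [e] at this
    show mm (3 * p + 9 + 2) < mm (3 * p + 9 + 2 + 1)
    omega
  · have := mm_next (p := p + 1) (r := 0) (by omega)
    have e : Lb (p + 1) 0 = 3 * p + 9 := by simp [Lb]; ring
    rw [e] at this
    have e1 : 3 * (p + 1) + 9 + 0 + 1 = 3 * p + 9 + 2 + 1 + 1 := by ring
    have e2' : 3 * (p + 1) + 9 + 0 = 3 * p + 9 + 2 + 1 := by ring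
    rw [e1, e2'] at this
    omega

/-- the upper bound in block coordinates -/
lemma le_block {V : Type*} (G : SimpleGraph V) (A : Finset V) : ∀ p r j : ℕ, 9 ≤ p → r < 3 →
    j < Lb p r → e2 Gᶜ A = 2 * (mm (3 * p + 9 + r) + j) →
    ((MI G A).card : ℝ) ≤ A.card + Ub p r j := by
  induction A using Finset.strongInduction with
  | H A ih =>
    intro p r j hp hr hj hN
    have h0 := two_mm_n0 p
    have h1 := two_mm_n1 p
    have h2 := two_mm_n2 p
    have hmono : mm (3 * p + 9) ≤ mm (3 * p + 9 + r) := mm_mono (by omega) (by omega)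
    have hA3 : 3 ≤ A.card := by
      by_contra h
      have h3 : e2 Gᶜ A ≤ A.card * A.card := by
        calc e2 Gᶜ A ≤ ∑ z ∈ A, A.card :=
              Finset.sum_le_sum (fun z hz => by
                have h5 := card_nb Gᶜ hz
                have h6 := Finset.card_le_card (nb_subset Gᶜ A z)
                omega)
          _ = _ := by simp
      have h4 : A.card * A.card ≤ 2 * 2 := Nat.mul_le_mul (by omega) (by omega)
      omega
    have hA : A.Nonempty := Finset.card_pos.1 (by omega)
    obtain ⟨x, hx, hmin⟩ := exists_min_dg Gᶜ hA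
    have hdx := dg_compl G (A := A) x
    set d := dg Gᶜ A x with hd
    have hc := card_away G hx
    have hrec := rec2 G hx
    have haw : (MI G (away G A x)).card ≤ MM d := by
      rw [hdx]; exact MI_le_MM G _
    have hsum : A.card * d ≤ e2 Gᶜ A := by
      calc A.card * d = ∑ z ∈ A, d := by simp
        _ ≤ _ := Finset.sum_le_sum (fun z hz => hmin z hz)
    rw [hN] at hsum
    have hrecR : ((MI G A).card : ℝ) ≤ (MI G (A.erase x)).card + MM d := by
      exact_mod_cast hrec.trans (Nat.add_le_add_left haw _)
    have hcard : (A.erase x).card = A.card - 1 := Finset.card_erase_of_mem hx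
    have hcardR : ((A.erase x).card : ℝ) = A.card - 1 := by
      rw [hcard, Nat.cast_sub (by omega)]; simp
    have he2 := e2_erase Gᶜ hx
    rw [← hd, hN] at he2
    have hss := Finset.erase_ssubset hx
    rcases Nat.lt_or_ge (d + 3) A.card with hd4 | hd4
    · have hdd : d * (d + 4) ≤ 2 * (mm (3 * p + 9 + r) + j) := by
        have : (d + 4) * d ≤ A.card * d := Nat.mul_le_mul_right d hd4
        rw [mul_comm (d + 4) d] at this
        exact this.trans hsum
      rcases Nat.lt_or_ge j d with hdj | hdj
      · -- the previous block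
        have hr' : r = 0 ∨ r = 1 ∨ r = 2 := by omega
        rcases hr' with rfl | rfl | rfl
        · obtain ⟨p', rfl⟩ : ∃ p', p = p' + 1 := ⟨p - 1, by omega⟩
          have hj' : j < 3 * p' + 9 := by
            have : Lb (p' + 1) 0 = 3 * (p' + 1) + 6 := by simp [Lb]
            omega
          have e : mm (3 * (p' + 1) + 9 + 0) = mm (3 * (p' + 1) + 9) := by rfl
          rw [e] at hdd he2
          obtain ⟨s1, s2⟩ := step_prev0 (p' := p') (by omega) hj' (by omega) hdj
          have h5 := two_mm_n2 p'
          have h6 := mm_next (p := p') (r := 2) (by omega)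
          have e6 : Lb p' 2 = 3 * p' + 9 := by simp [Lb]
          rw [e6] at h6
          have e7 : mm (3 * p' + 9 + 2 + 1) = mm (3 * (p' + 1) + 9) := by congr 1
          rw [e7] at h6
          have h7 : e2 Gᶜ (A.erase x) = 2 * (mm (3 * p' + 9 + 2) + (3 * p' + 9 + j - d)) := by
            omega
          have h8 : ((MI G (A.erase x)).card : ℝ) ≤ (A.erase x).card +
              Ub p' 2 (3 * p' + 9 + j - d) := by
            rcases Nat.lt_or_ge p' 9 with h9 | h9
            · have hp8 : p' = 8 := by omega
              subst hp8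
              have he : (A.erase x).Nonempty := Finset.card_pos.1 (by omega)
              have e8 : mm (3 * 8 + 9 + 2) = 561 := by decide
              rw [e8] at h7
              have h10 := le_T2 G (A.erase x) he _ (by omega) h7
              have h11 := T2_le_Ub (j := 3 * 8 + 9 + j - d) (by omega)
              have h12 : ((MI G (A.erase x)).card : ℝ) ≤ (A.erase x).card +
                (T2 (561 + (3 * 8 + 9 + j - d)) : ℝ) := by exact_mod_cast h10
              linarith
            · exact ih _ hss p' 2 _ h9 (by omega) (by rw [e6]; omega) h7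
          linarith
        · have hj' : j < 3 * p + 12 := by
            have : Lb p 1 = 3 * p + 12 := by simp [Lb]
            omega
          have e : mm (3 * p + 9 + 1) = mm (3 * p + 10) := by rfl
          rw [e] at hdd he2
          obtain ⟨s1, s2⟩ := step_prev1 hp hj' (by omega) hdj
          have e6 : Lb p 0 = 3 * p + 6 := by simp [Lb]
          have h7 : e2 Gᶜ (A.erase x) = 2 * (mm (3 * p + 9 + 0) + (3 * p + 6 + j - d)) := by
            have : mm (3 * p + 9 + 0) = mm (3 * p + 9) := by rfl
            omega
          have h8 := ih _ hss p 0 _ hp (by omega) (by rw [e6]; omega) h7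
          linarith
        · have hj' : j < 3 * p + 9 := by
            have : Lb p 2 = 3 * p + 9 := by simp [Lb]
            omega
          have e : mm (3 * p + 9 + 2) = mm (3 * p + 11) := by rfl
          rw [e] at hdd he2
          obtain ⟨s1, s2⟩ := step_prev2 hp hj' (by omega) hdj
          have e6 : Lb p 1 = 3 * p + 12 := by simp [Lb]
          have h7 : e2 Gᶜ (A.erase x) = 2 * (mm (3 * p + 9 + 1) + (3 * p + 12 + j - d)) := by
            have : mm (3 * p + 9 + 1) = mm (3 * p + 10) := by rfl
            omega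
          have h8 := ih _ hss p 1 _ hp (by omega) (by rw [e6]; omega) h7
          linarith
      · have h7 : e2 Gᶜ (A.erase x) = 2 * (mm (3 * p + 9 + r) + (j - d)) := by omega
        have h8 := ih _ hss p r _ hp hr (by omega) h7
        rcases Nat.eq_zero_or_pos d with hd0 | hd0
        · rw [hd0] at h8 hrecR
          have e : (MM 0 : ℝ) = 1 := by simp [MM]
          rw [e] at hrecR
          simp only [Nat.sub_zero] at h8
          linarith
        · obtain ⟨b3, b0, b1⟩ := deg_bounds hr hj hdd
          have h9 := step_same hp hr hj hd0 b3 b0 b1 hdj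
          linarith
    · have hnx := mm_next (p := p) hr
      have hcap : ∀ a, 1 ≤ a → a ≤ 3 * p + 9 + r → (MM a : ℝ) ≤ a + Ub p r j := by
        intro a ha1 ha2
        have h3 := MM_sub_mono ha1 ha2
        have h4 : (MM a : ℝ) + ((3 * p + 9 + r : ℕ) : ℝ) ≤ MM (3 * p + 9 + r) + a := by
          exact_mod_cast h3
        have h5 := Ub_ge (p := p) (r := r) (j := j) hr
        push_cast at h4
        linarith
      rcases refined_cap G A hA3 (fun z hz => (by omega : A.card - 3 ≤ d).trans (hmin z hz)) hN
        with ⟨h4, h5⟩ | ⟨h4, h5, h6⟩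
      · have hle : A.card ≤ 3 * p + 9 + r := by
          by_contra h
          push Not at h
          have := mm_mono (a := 3 * p + 9 + r + 1) (by omega) (show 3 * p + 9 + r + 1 ≤ A.card from h)
          omega
        have h6 := hcap A.card (by omega) hle
        have h7 : ((MI G A).card : ℝ) ≤ MM A.card := by exact_mod_cast h5
        linarith
      · have hle : A.card ≤ 3 * p + 9 + r + 1 := by
          by_contra h
          push Not at h
          have h7 := mm_mono (a := 3 * p + 9 + r + 1 + 1) (by omega)
            (show 3 * p + 9 + r + 1 + 1 ≤ A.card from h)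
          have h8 := mm_next_lt (p := p) hr
          omega
        rcases Nat.lt_or_ge (3 * p + 9 + r) A.card with h7 | h7
        · have h8 : A.card = 3 * p + 9 + r + 1 := by omega
          have hr1 : r = 1 := by omega
          subst hr1
          have hL1 : Lb p 1 = 3 * p + 12 := by simp [Lb]
          rw [h8] at h5
          have hj11 : j = 3 * p + 11 := by omega
          subst hj11
          rw [Ub_B (by omega), hL1]
          have e : 3 * p + 12 - (3 * p + 11) = 1 := by omega
          rw [e]
          have hlam : lam 1 1 = 48.5 := by rw [lam1]; norm_num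
          rw [hlam]
          obtain ⟨m2, m3, m4, m5, m6, m7, m8, m9, m10, m11, m12⟩ := MMv p
          have h9 : (9 : ℝ) * (MI G A).card ≤ 8 * MM A.card := by exact_mod_cast h6
          have e3 : (MM A.card : ℝ) = 54 * 3 ^ p := by rw [h8]; exact m11
          rw [e3] at h9
          have hg : (0 : ℝ) ≤ MM (3 * p + 11 - (3 * p + 7) / 2) := Nat.cast_nonneg _
          have hY : (0 : ℝ) < 3 ^ p := by positivity
          have e4 : (A.card : ℝ) = 3 * p + 11 := by rw [h8]; push_cast; ring
          rw [e4]
          push_cast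
          linarith
        · have h8 := hcap A.card (by omega) h7
          have h9 := MI_le_MM G A
          have h10 : ((MI G A).card : ℝ) ≤ MM A.card := by exact_mod_cast h9
          linarith

end Pool.Agent.Helper432.MISNum
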