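import Mathlib
import Pool.Agent.Helper432.MIS.Attach
import Pool.Agent.Helper432.MIS.Lower

namespace Pool.Agent.Helper432.MISNum

open Finset Pool.Agent.Helper432.MISBase

attribute [local instance] Classical.propDecidable

lemma lh_ch0 (k : ℕ) : (3 * (k + 1)).choose 2 = 3 * (k + 1) + mm (3 * (k + 1)) := by
  rw [Nat.choose_two_right, mm, if_pos (by omega)]
  have e1 : 3 * (k + 1) - 1 = 3 * k + 2 := by omega
  have e2 : 3 * (k + 1) - 3 = 3 * k := by omega
  rw [e1, e2]
  have e3 : 3 * (k + 1) * (3 * k + 2) = 3 * (k + 1) * (3 * k) + 2 * (3 * (k + 1)) := by ring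
  rw [e3, Nat.add_mul_div_left _ _ two_pos]
  ring

lemma lh_ch1 (q : ℕ) : (3 * q + 4).choose 2 = 3 * q + 6 + mm (3 * q + 4) := by
  rw [Nat.choose_two_right, mm, if_neg (by omega), if_pos (by omega)]
  have e1 : 3 * q + 4 - 1 = 3 * q + 3 := by omega
  have e2 : 3 * q + 4 - 4 = 3 * q := by omega
  rw [e1, e2]
  have e3 : (3 * q + 4) * (3 * q + 3) = 3 * q * (3 * q + 4 + 1) + 2 * (3 * q + 6) := by ring
  rw [e3, Nat.add_mul_div_left _ _ two_pos]
  ring

lemma lh_ch2 (q : ℕ) : (3 * q + 2).choose 2 = 3 * q + 1 + mm (3 * q + 2) := by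
  rw [Nat.choose_two_right, mm, if_neg (by omega), if_neg (by omega)]
  have e1 : 3 * q + 2 - 1 = 3 * q + 1 := by omega
  have e2 : 3 * q + 2 - 2 = 3 * q := by omega
  rw [e1, e2]
  have e3 : (3 * q + 2) * (3 * q + 1) = (3 * q + 1) * (3 * q) + 2 * (3 * q + 1) := by ring
  rw [e3, Nat.add_mul_div_left _ _ two_pos]
  ring

lemma lh_cons (q : ℕ) (c m j M : ℕ) (hc : c ≤ 3) (hc0 : 1 ≤ c)
    (h : ∃ r : Fin q → ℕ, (∀ i, r i ≤ 3) ∧ (∀ i, m ≤ i.val → r i = 0) ∧ ∑ i, r i = j ∧
      ∏ i, max 1 (r i) = M) :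
    ∃ r : Fin (q + 1) → ℕ, (∀ i, r i ≤ 3) ∧ (∀ i, m + 1 ≤ i.val → r i = 0) ∧ ∑ i, r i = j + c ∧
      ∏ i, max 1 (r i) = c * M := by
  obtain ⟨r, h1, h2, h3, h4⟩ := h
  refine ⟨Fin.cons c r, ?_, ?_, ?_, ?_⟩
  · intro i
    refine Fin.cases ?_ (fun i => ?_) i
    · simpa using hc
    · simpa using h1 i
  · intro i
    refine Fin.cases ?_ (fun i => ?_) i
    · intro hi; simp at hi
    · intro hi
      simp only [Fin.val_succ] at hi
      simpa using h2 i (by omega)
  · rw [Fin.sum_univ_succ]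
    simp only [Fin.cons_zero, Fin.cons_succ]
    rw [h3]; ring
  · rw [Fin.prod_univ_succ]
    simp only [Fin.cons_zero, Fin.cons_succ]
    rw [h4, max_eq_right hc0]

lemma lh_zero (q m : ℕ) : ∃ r : Fin q → ℕ, (∀ i, r i ≤ 3) ∧ (∀ i, m ≤ i.val → r i = 0) ∧ ∑ i, r i = 0 ∧
      ∏ i, max 1 (r i) = 1 :=
  ⟨fun _ => 0, by simp, by simp, by simp, by simp⟩

lemma lh_r (j : ℕ) : ∀ q, (j + 2) / 3 ≤ q → ∃ r : Fin q → ℕ, (∀ i, r i ≤ 3) ∧
    (∀ i, (j + 2) / 3 ≤ i.val → r i = 0) ∧ ∑ i, r i = j ∧ ∏ i, max 1 (r i) = MM j := by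
  induction j using Nat.strong_induction_on with
  | _ j ih =>
    intro q hq
    rcases Nat.lt_or_ge j 5 with h5 | h5
    · interval_cases j
      · exact lh_zero q _
      · obtain ⟨p, rfl⟩ : ∃ p, q = p + 1 := ⟨q - 1, by omega⟩
        have e : MM 1 = 1 := by decide
        rw [e]
        exact lh_cons p 1 0 0 1 (by norm_num) (by norm_num) (lh_zero p 0)
      · obtain ⟨p, rfl⟩ : ∃ p, q = p + 1 := ⟨q - 1, by omega⟩
        have e : MM 2 = 2 := by decide
        rw [e]
        exact lh_cons p 2 0 0 1 (by norm_num) (by norm_num) (lh_zero p 0)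
      · obtain ⟨p, rfl⟩ : ∃ p, q = p + 1 := ⟨q - 1, by omega⟩
        have e : MM 3 = 3 := by decide
        rw [e]
        exact lh_cons p 3 0 0 1 (by norm_num) (by norm_num) (lh_zero p 0)
      · obtain ⟨p, rfl⟩ : ∃ p, q = p + 1 + 1 := ⟨q - 2, by omega⟩
        have e : MM 4 = 4 := by decide
        rw [e]
        exact lh_cons (p + 1) 2 1 2 2 (by norm_num) (by norm_num)
          (lh_cons p 2 0 0 1 (by norm_num) (by norm_num) (lh_zero p 0))
    · obtain ⟨i, rfl⟩ : ∃ i, j = i + 5 := ⟨j - 5, by omega⟩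
      have e : (i + 5 + 2) / 3 = (i + 2 + 2) / 3 + 1 := by omega
      rw [e] at hq ⊢
      obtain ⟨p, rfl⟩ : ∃ p, q = p + 1 := ⟨q - 1, by omega⟩
      have := lh_cons p 3 _ _ _ (by norm_num) (by norm_num) (ih (i + 2) (by omega) p (by omega))
      rw [MM_rec]
      exact this

/-- a vertex attached to the Moon-Moser graph -/
lemma lower_att {n v j : ℕ} (hn : 9 ≤ n) (hj : j + 4 ≤ n) (h : n + 1 ≤ v) :
    MM n + MM j + (v - n) ≤ mu v (v.choose 2 - (mm n + j)) + 1 := by
  have hcv : n.choose 2 ≤ v.choose 2 := Nat.choose_le_choose 2 (by omega)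
  have hmod : n % 3 = 0 ∨ n % 3 = 1 ∨ n % 3 = 2 := by omega
  rcases hmod with h3 | h3 | h3
  · obtain ⟨k, rfl⟩ : ∃ k, n = 3 * (k + 1) := ⟨n / 3 - 1, by omega⟩
    obtain ⟨r, h1, h2, hs, hp⟩ := lh_r j (k + 1) (by omega)
    have key := Pool.Agent.Helper432.MISExtra.attach_core (v := v) (ι := Fin (k + 1)) (fun _ => 3) r h1 (Fin.last k)
      (h2 _ (by simp only [Fin.val_last]; omega)) (by norm_num)
      (by simp only [Finset.sum_const, Finset.card_univ, Fintype.card_fin, smul_eq_mul]; omega)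
    simp only [Finset.sum_const, Finset.card_univ, Fintype.card_fin, smul_eq_mul,
      Finset.prod_const] at key
    rw [hs, hp] at key
    have e1 : (k + 1) * 3 = 3 * (k + 1) := by ring
    rw [e1] at key
    have e2 : (k + 1) * Nat.choose 3 2 = 3 * (k + 1) := by
      have : Nat.choose 3 2 = 3 := by decide
      rw [this]; ring
    rw [e2] at key
    have e3 := lh_ch0 k
    have e4 : 3 * (k + 1) + (v.choose 2 - (3 * (k + 1)).choose 2) - j =
        v.choose 2 - (mm (3 * (k + 1)) + j) := by omega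
    rw [e4] at key
    rw [MM_three_mul]
    omega
  · obtain ⟨q, rfl⟩ : ∃ q, n = 3 * q + 4 := ⟨(n - 4) / 3, by omega⟩
    obtain ⟨r, h1, h2, hs, hp⟩ := lh_r j q (by omega)
    have key := Pool.Agent.Helper432.MISExtra.attach_core (v := v) (ι := Option (Fin q)) (fun o => o.elim 4 (fun _ => 3))
      (fun o => o.elim 0 r)
      (by
        intro o
        cases o with
        | none => simp
        | some i => simpa using h1 i) none rfl (by simp)
      (by
        rw [Fintype.sum_option]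
        simp only [Option.elim, Finset.sum_const, Finset.card_univ, Fintype.card_fin, smul_eq_mul]
        omega)
    simp only [Fintype.sum_option, Fintype.prod_option, Option.elim, Finset.sum_const,
      Finset.card_univ, Fintype.card_fin, smul_eq_mul, Finset.prod_const] at key
    rw [hs, hp] at key
    have e1 : 4 + q * 3 = 3 * q + 4 := by ring
    rw [e1] at key
    have e2 : Nat.choose 4 2 + q * Nat.choose 3 2 = 3 * q + 6 := by
      have h1 : Nat.choose 3 2 = 3 := by decide
      have h2 : Nat.choose 4 2 = 6 := by decide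
      rw [h1, h2]; ring
    rw [e2] at key
    have e3 := lh_ch1 q
    have e4 : 3 * q + 6 + (v.choose 2 - (3 * q + 4).choose 2) - j =
        v.choose 2 - (mm (3 * q + 4) + j) := by omega
    rw [MM_three_mul_add_four]
    have e5 : max 1 0 * MM j = MM j := by simp
    rw [e5] at key
    simp only [zero_add] at key
    rw [e4] at key
    omega
  · obtain ⟨q, rfl⟩ : ∃ q, n = 3 * q + 2 := ⟨(n - 2) / 3, by omega⟩
    obtain ⟨r, h1, h2, hs, hp⟩ := lh_r j q (by omega)
    have key := Pool.Agent.Helper432.MISExtra.attach_core (v := v) (ι := Option (Fin q)) (fun o => o.elim 2 (fun _ => 3))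
      (fun o => o.elim 0 r)
      (by
        intro o
        cases o with
        | none => simp
        | some i => simpa using h1 i) none rfl (by simp)
      (by
        rw [Fintype.sum_option]
        simp only [Option.elim, Finset.sum_const, Finset.card_univ, Fintype.card_fin, smul_eq_mul]
        omega)
    simp only [Fintype.sum_option, Fintype.prod_option, Option.elim, Finset.sum_const,
      Finset.card_univ, Fintype.card_fin, smul_eq_mul, Finset.prod_const] at key
    rw [hs, hp] at key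
    have e1 : 2 + q * 3 = 3 * q + 2 := by ring
    rw [e1] at key
    have e2 : Nat.choose 2 2 + q * Nat.choose 3 2 = 3 * q + 1 := by
      have h1 : Nat.choose 3 2 = 3 := by decide
      have h2 : Nat.choose 2 2 = 1 := by decide
      rw [h1, h2]; ring
    rw [e2] at key
    have e3 := lh_ch2 q
    have e4 : 3 * q + 1 + (v.choose 2 - (3 * q + 2).choose 2) - j =
        v.choose 2 - (mm (3 * q + 2) + j) := by omega
    rw [MM_three_mul_add_two]
    have e5 : max 1 0 * MM j = MM j := by simp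
    rw [e5] at key
    simp only [zero_add] at key
    rw [e4] at key
    omega


end Pool.Agent.Helper432.MISNum
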