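import Mathlib
import Pool.Agent.Helper432.MIS.HalfInd
import Pool.Agent.Helper432.MIS.HalfLow

namespace Pool.Agent.Helper432.MISNum

open Finset Pool.Agent.Helper432.MISBase

attribute [local instance] Classical.propDecidable

lemma upper_half {n v j : ℕ} (hn : 24 ≤ n) (hj : 2 * j < 3 * (n / 3 - 1)) (hv : n ≤ v)
    (hN : mm n + j ≤ v.choose 2) :
    mu v (v.choose 2 - (mm n + j)) + 1 ≤ MM n + MM j + (v - n) := by
  obtain ⟨G, hG, hmu⟩ := exists_attain (v := v) (e := v.choose 2 - (mm n + j)) (Nat.sub_le _ _)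
  rw [← hmu, misCount_eq]
  have he : e2 Gᶜ Finset.univ = 2 * (mm n + j) := by
    rw [e2_compl_univ, hG, Nat.sub_sub_self hN]
  have hcard : (Finset.univ : Finset (Fin v)).card = v := by
    rw [Finset.card_univ, Fintype.card_fin]
  rcases Nat.lt_or_ge n 36 with h | h
  · have hj17 : j < 17 := by omega
    have h1 := T2_exact n h hn j hj17 hj
    rw [← MM_eq_Mg2 n h, ← MM_eq_Mg2 j (by omega)] at h1
    have hmm : mm n ≤ mm 35 := mm_mono (by omega) (by omega)
    have h35 : mm 35 = 561 := by decide
    have hne : (Finset.univ : Finset (Fin v)).Nonempty := Finset.card_pos.1 (by omega)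
    have h2 := le_T2 G Finset.univ hne (mm n + j) (by omega) he
    rw [hcard] at h2
    omega
  · obtain ⟨p, r, hr, hnp⟩ : ∃ p r, r < 3 ∧ n = 3 * p + 9 + r :=
      ⟨n / 3 - 3, n % 3, by omega, by omega⟩
    have hp : 9 ≤ p := by omega
    have hj' : 2 * j < 3 * p + 6 := by omega
    have hL : j < Lb p r := by
      unfold Lb
      split_ifs <;> omega
    rw [hnp] at he
    have h2 := le_block G Finset.univ p r j hp hr hL he
    rw [hcard, Ub_A hj'] at h2
    have h3 : ((MI G (Finset.univ : Finset (Fin v))).card : ℝ) + (n + 1 : ℕ) ≤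
        ((v + MM n + MM j : ℕ) : ℝ) := by
      rw [hnp]
      push_cast
      linarith
    have h4 : (MI G (Finset.univ : Finset (Fin v))).card + (n + 1) ≤ v + MM n + MM j := by
      exact_mod_cast h3
    omega

/-- the exact value in the first half of each block -/
lemma mu_half {n v j : ℕ} (hn : 24 ≤ n) (hj : 2 * j < 3 * (n / 3 - 1)) (hv : n + 1 ≤ v) :
    mu v (v.choose 2 - (mm n + j)) + 1 = MM n + MM j + (v - n) := by
  have hN : mm n + j ≤ v.choose 2 := by
    refine le_trans ?_ (Nat.choose_le_choose 2 hv)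
    have h1 := two_choose (n + 1)
    simp only [Nat.add_sub_cancel] at h1
    obtain ⟨k, hk | hk | hk⟩ := mod_cases (show 3 ≤ n by omega)
    · have := two_mm0 k
      rw [hk] at h1 ⊢
      have e : (3 * k + 3 + 1) * (3 * k + 3) = 9 * k * k + 21 * k + 12 := by ring
      omega
    · have := two_mm1 k
      rw [hk] at h1 ⊢
      have e : (3 * k + 4 + 1) * (3 * k + 4) = 9 * k * k + 27 * k + 20 := by ring
      omega
    · have := two_mm2 k
      rw [hk] at h1 ⊢
      have e : (3 * k + 5 + 1) * (3 * k + 5) = 9 * k * k + 33 * k + 30 := by ring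
      omega
  exact le_antisymm (upper_half hn hj (by omega) hN) (lower_att (by omega) (by omega) hv)

end Pool.Agent.Helper432.MISNum
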