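import Mathlib
import Pool.Agent.Helper432.MIS.HalfFinal
import Pool.Agent.Helper432.MIS.Cubic

namespace Pool.Agent.Helper432.MISNum

open Finset Pool.Agent.Helper432.MISBase

attribute [local instance] Classical.propDecidable

lemma e2_add_compl {V : Type*} (G : SimpleGraph V) (A : Finset V) :
    e2 G A + e2 Gᶜ A + A.card = A.card * A.card := by
  have h : ∀ z ∈ A, dg G A z + dg Gᶜ A z + 1 = A.card := by
    intro z hz
    have h1 := dg_compl G (A := A) z
    have h2 := card_away G hz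
    omega
  have h2 : ∑ z ∈ A, (dg G A z + dg Gᶜ A z + 1) = ∑ z ∈ A, A.card :=
    Finset.sum_congr rfl h
  rw [Finset.sum_add_distrib, Finset.sum_add_distrib] at h2
  simp only [Finset.sum_const, smul_eq_mul, mul_one] at h2
  exact h2

lemma cubic_use {V : Type*} (G : SimpleGraph V) (A : Finset V) {m : ℕ}
    (h3 : ∀ x ∈ A, dg G A x ≤ 3) (he : 2 * A.card + 2 * m ≤ e2 G A) :
    ((MI G A).card : ℝ) ≤ t3 ^ A.card * (397 / 400) ^ (2 * m) := by
  have h := Pool.Agent.Helper432.MISExtra.cubic_bound G t3_pos t3_cube A h3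
  have hs : (0 : ℝ) < (397 / 400) ^ (2 * A.card) := by positivity
  have h1 : (397 / 400 : ℝ) ^ (e2 G A) ≤ (397 / 400) ^ (2 * A.card + 2 * m) :=
    pow_le_pow_of_le_one (by norm_num) (by norm_num) he
  have ht : (0 : ℝ) ≤ t3 ^ A.card := by have := t3_pos; positivity
  have h2 : ((MI G A).card : ℝ) * (397 / 400) ^ (2 * A.card) ≤
      t3 ^ A.card * (397 / 400) ^ (2 * m) * (397 / 400) ^ (2 * A.card) := by
    calc _ ≤ _ := h
      _ ≤ t3 ^ A.card * (397 / 400) ^ (2 * A.card + 2 * m) := mul_le_mul_of_nonneg_left h1 ht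
      _ = _ := by rw [pow_add]; ring
  exact le_of_mul_le_mul_right h2 hs

/-- the number of excluded positions at the end of a block -/
def aex (r : ℕ) : ℕ := if r = 0 then 26 else 29

/-- the exact potential -/
noncomputable def Va (p r j : ℕ) : ℝ := (MM (3 * p + 9 + r) : ℝ) - (3 * p + 9 + r) + MM j - 1

/-- graphs of maximum degree three on `n + 1` vertices -/
lemma cubic_case {V : Type*} (G : SimpleGraph V) (A : Finset V) {p r j : ℕ} (hr : r < 3)
    (hj : j + aex r ≤ 3 * p + 9 + r) (hN : e2 Gᶜ A = 2 * (mm (3 * p + 9 + r) + j))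
    (hA : A.card = 3 * p + 9 + r + 1) (h3 : ∀ x ∈ A, dg G A x ≤ 3) :
    ((MI G A).card : ℝ) ≤ MM (3 * p + 9 + r) := by
  obtain ⟨m2, m3, m4, m5, m6, m7, m8, m9, m10, m11, m12⟩ := MMv p
  have hY : (0 : ℝ) < 3 ^ p := by positivity
  have h := e2_add_compl G A
  have h0 := two_mm_n0 p
  have h1 := two_mm_n1 p
  have h2 := two_mm_n2 p
  have ht0 := t3_pos
  have htu := t3_ub
  have htc := t3_cube
  have hr' : r = 0 ∨ r = 1 ∨ r = 2 := by omega
  rcases hr' with rfl | rfl | rfl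
  · have e : mm (3 * p + 9 + 0) = mm (3 * p + 9) := by rfl
    have ea : aex 0 = 26 := by simp [aex]
    rw [e] at hN
    rw [ea] at hj
    have h4 : A.card * A.card = 9 * p * p + 60 * p + 100 := by rw [hA]; ring
    have h5 := cubic_use G A (m := 25) h3 (by omega)
    have e1 : (MM (3 * p + 9 + 0) : ℝ) = 27 * 3 ^ p := m9
    rw [e1]
    have e2' : t3 ^ A.card = 27 * 3 ^ p * t3 := by
      rw [hA]
      have : 3 * p + 9 + 0 + 1 = 3 * (p + 3) + 1 := by ring
      rw [this, pow_succ, pow_mul, t3_cube, pow_add]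
      ring
    rw [e2'] at h5
    refine h5.trans ?_
    have e3 : (397 / 400 : ℝ) ^ (2 * 25) ≤ 0.6864 := by norm_num
    have e4 : (0 : ℝ) ≤ 27 * 3 ^ p * t3 := by positivity
    calc 27 * 3 ^ p * t3 * (397 / 400 : ℝ) ^ (2 * 25) ≤ 27 * 3 ^ p * t3 * 0.6864 :=
          mul_le_mul_of_nonneg_left e3 e4
      _ ≤ 27 * 3 ^ p := by nlinarith
  · have e : mm (3 * p + 9 + 1) = mm (3 * p + 10) := by rfl
    have ea : aex 1 = 29 := by simp [aex]
    rw [e] at hN
    rw [ea] at hj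
    have h4 : A.card * A.card = 9 * p * p + 66 * p + 121 := by rw [hA]; ring
    have h5 := cubic_use G A (m := 30) h3 (by omega)
    have e1 : (MM (3 * p + 9 + 1) : ℝ) = 36 * 3 ^ p := m10
    rw [e1]
    have e2' : t3 ^ A.card = 27 * 3 ^ p * t3 ^ 2 := by
      rw [hA]
      have : 3 * p + 9 + 1 + 1 = 3 * (p + 3) + 2 := by ring
      rw [this, pow_add, pow_mul, t3_cube, pow_add]
      ring
    rw [e2'] at h5
    refine h5.trans ?_
    have e3 : (397 / 400 : ℝ) ^ (2 * 30) ≤ 0.6366 := by norm_num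
    have e5 : t3 ^ 2 ≤ 2.0803 := by nlinarith
    have e4 : (0 : ℝ) ≤ 27 * 3 ^ p * t3 ^ 2 := by positivity
    calc 27 * 3 ^ p * t3 ^ 2 * (397 / 400 : ℝ) ^ (2 * 30) ≤ 27 * 3 ^ p * t3 ^ 2 * 0.6366 :=
          mul_le_mul_of_nonneg_left e3 e4
      _ ≤ 36 * 3 ^ p := by nlinarith
  · have e : mm (3 * p + 9 + 2) = mm (3 * p + 11) := by rfl
    have ea : aex 2 = 29 := by simp [aex]
    rw [e] at hN
    rw [ea] at hj
    have h4 : A.card * A.card = 9 * p * p + 72 * p + 144 := by rw [hA]; ring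
    have h5 := cubic_use G A (m := 27) h3 (by omega)
    have e1 : (MM (3 * p + 9 + 2) : ℝ) = 54 * 3 ^ p := m11
    rw [e1]
    have e2' : t3 ^ A.card = 81 * 3 ^ p := by
      rw [hA]
      have : 3 * p + 9 + 2 + 1 = 3 * (p + 4) := by ring
      rw [this, pow_mul, t3_cube, pow_add]
      ring
    rw [e2'] at h5
    refine h5.trans ?_
    have e3 : (397 / 400 : ℝ) ^ (2 * 27) ≤ 0.6666 := by norm_num
    have e4 : (0 : ℝ) ≤ 81 * 3 ^ p := by positivity
    calc 81 * 3 ^ p * (397 / 400 : ℝ) ^ (2 * 27) ≤ 81 * 3 ^ p * 0.6666 :=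
          mul_le_mul_of_nonneg_left e3 e4
      _ ≤ 54 * 3 ^ p := by nlinarith

/-- degree bound -/
lemma deg_bound5 {p r j d : ℕ} (hr : r < 3) (hj : j + aex r ≤ 3 * p + 9 + r)
    (hdd : d * (d + 5) ≤ 2 * (mm (3 * p + 9 + r) + j)) : d ≤ 3 * p + 5 + r := by
  have h0 := two_mm_n0 p
  have h1 := two_mm_n1 p
  have h2 := two_mm_n2 p
  by_contra h
  push Not at h
  have hr' : r = 0 ∨ r = 1 ∨ r = 2 := by omega
  rcases hr' with rfl | rfl | rfl
  · have ea : aex 0 = 26 := by simp [aex]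
    rw [ea] at hj
    have e : mm (3 * p + 9 + 0) = mm (3 * p + 9) := by rfl
    rw [e] at hdd
    have h3 := Nat.mul_le_mul (show 3 * p + 6 ≤ d by omega) (show 3 * p + 11 ≤ d + 5 by omega)
    have h4 : (3 * p + 6) * (3 * p + 11) = 9 * p * p + 51 * p + 66 := by ring
    omega
  · have ea : aex 1 = 29 := by simp [aex]
    rw [ea] at hj
    have e : mm (3 * p + 9 + 1) = mm (3 * p + 10) := by rfl
    rw [e] at hdd
    have h3 := Nat.mul_le_mul (show 3 * p + 7 ≤ d by omega) (show 3 * p + 12 ≤ d + 5 by omega)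
    have h4 : (3 * p + 7) * (3 * p + 12) = 9 * p * p + 57 * p + 84 := by ring
    omega
  · have ea : aex 2 = 29 := by simp [aex]
    rw [ea] at hj
    have e : mm (3 * p + 9 + 2) = mm (3 * p + 11) := by rfl
    rw [e] at hdd
    have h3 := Nat.mul_le_mul (show 3 * p + 8 ≤ d by omega) (show 3 * p + 13 ≤ d + 5 by omega)
    have h4 : (3 * p + 8) * (3 * p + 13) = 9 * p * p + 63 * p + 104 := by ring
    omega

/-- step into the previous block, residue zero -/
lemma near_prev0 {p' j d : ℕ} (hp : 9 ≤ p') (hj : j + 26 ≤ 3 * p' + 12)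
    (hjh : 3 * p' + 9 ≤ 2 * j) (hd : d ≤ 3 * p' + 8) (hdj : j < d) :
    Va p' 2 (3 * p' + 9 + j - d) + MM d ≤ Va (p' + 1) 0 j + 1 ∧
    (¬ (3 * p' + 9 + j - d + 29 ≤ 3 * p' + 11) →
      Ub p' 2 (3 * p' + 9 + j - d) + MM d ≤ Va (p' + 1) 0 j + 1) := by
  obtain ⟨m2, m3, m4, m5, m6, m7, m8, m9, m10, m11, m12⟩ := MMv (p' + 1)
  have hY : (0 : ℝ) < 3 ^ (p' + 1) := by positivity
  have hY' : (3 : ℝ) ^ p' = 3 ^ (p' + 1) / 3 := by rw [pow_succ]; ring
  have hn' : (MM (3 * p' + 9 + 2) : ℝ) = 18 * 3 ^ (p' + 1) := m8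
  have hn6 : (MM (3 * p' + 9) : ℝ) = 9 * 3 ^ (p' + 1) := m6
  have e0 : (MM (3 * (p' + 1) + 9 + 0) : ℝ) = 27 * 3 ^ (p' + 1) := m9
  have hj1 : (1 : ℝ) ≤ MM j := by exact_mod_cast MM_pos j
  constructor
  · unfold Va
    rw [hn', e0]
    have h2 := MM_conv _ j (3 * p' + 9 - d) (d - j) rfl
    have e2 : j + (3 * p' + 9 - d) = 3 * p' + 9 + j - d := by omega
    have e3 : j + (d - j) = d := by omega
    have e4 : 3 * p' + 9 + j - d + (d - j) = 3 * p' + 9 := by omega
    rw [e2, e3, e4] at h2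
    have h3 : (MM (3 * p' + 9 + j - d) : ℝ) + MM d ≤ MM j + MM (3 * p' + 9) := by
      exact_mod_cast h2
    rw [hn6] at h3
    push_cast
    linarith
  · intro hneg
    have hL2 : Lb p' 2 = 3 * p' + 9 := by simp [Lb]
    have e5 : 3 * p' + 9 - (3 * p' + 9 + j - d) = d - j := by omega
    obtain ⟨u1, u2, u3, -⟩ := lam2_b (d - j)
    have v1 := mul_le_mul_of_nonneg_right u1 hY.le
    have ht := MM_tiny (show 9 ≤ p' + 1 by omega)
      (k := 3 * p' + 9 + j - d - (3 * p' + 7) / 2) (by omega)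
    unfold Va
    rw [Ub_B (by omega), hL2, hY', e5, e0]
    push_cast
    rcases Nat.lt_or_ge d (3 * p' + 6) with h5 | h5
    · have h6 := MM_le_of (show d ≤ 3 * (p' + 1) + 2 by omega) m2
      linarith
    · have h6 := MM_le_of (show d ≤ 3 * (p' + 1) + 5 by omega) m5
      have v3 := mul_le_mul_of_nonneg_right (u3 (by omega)) hY.le
      linarith

/-- step into the previous block, residue one -/
lemma near_prev1 {p j d : ℕ} (hp : 9 ≤ p) (hj : j + 29 ≤ 3 * p + 10)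
    (hjh : 3 * p + 6 ≤ 2 * j) (hd : d ≤ 3 * p + 6) (hdj : j < d) :
    Va p 0 (3 * p + 6 + j - d) + MM d ≤ Va p 1 j + 1 ∧
    (¬ (3 * p + 6 + j - d + 26 ≤ 3 * p + 9) →
      Ub p 0 (3 * p + 6 + j - d) + MM d ≤ Va p 1 j + 1) := by
  obtain ⟨m2, m3, m4, m5, m6, m7, m8, m9, m10, m11, m12⟩ := MMv p
  have hY : (0 : ℝ) < 3 ^ p := by positivity
  have e1 : (MM (3 * p + 9 + 1) : ℝ) = 36 * 3 ^ p := m10
  have e0 : (MM (3 * p + 9 + 0) : ℝ) = 27 * 3 ^ p := m9
  have hj1 : (1 : ℝ) ≤ MM j := by exact_mod_cast MM_pos j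
  constructor
  · unfold Va
    rw [e1, e0]
    have h2 := MM_conv _ j (3 * p + 6 - d) (d - j) rfl
    have e2 : j + (3 * p + 6 - d) = 3 * p + 6 + j - d := by omega
    have e3 : j + (d - j) = d := by omega
    have e4 : 3 * p + 6 + j - d + (d - j) = 3 * p + 6 := by omega
    rw [e2, e3, e4] at h2
    have h3 : (MM (3 * p + 6 + j - d) : ℝ) + MM d ≤ MM j + MM (3 * p + 6) := by
      exact_mod_cast h2
    rw [m6] at h3
    push_cast
    linarith
  · intro hneg
    have hL0 : Lb p 0 = 3 * p + 6 := by simp [Lb]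
    have e5 : 3 * p + 6 - (3 * p + 6 + j - d) = d - j := by omega
    obtain ⟨u1, u2, u3, -⟩ := lam0_b (d - j)
    have v1 := mul_le_mul_of_nonneg_right u1 hY.le
    have ht := MM_tiny hp (k := 3 * p + 6 + j - d - (3 * p + 7) / 2) (by omega)
    unfold Va
    rw [Ub_B (by omega), hL0, e5, e1]
    push_cast
    rcases Nat.lt_or_ge d (3 * p + 3) with h5 | h5
    · have h6 := MM_le_of (show d ≤ 3 * p + 2 by omega) m2
      linarith
    · have h6 := MM_le_of (show d ≤ 3 * p + 5 by omega) m5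
      have v3 := mul_le_mul_of_nonneg_right (u3 (by omega)) hY.le
      linarith

/-- step into the previous block, residue two -/
lemma near_prev2 {p j d : ℕ} (hp : 9 ≤ p) (hj : j + 29 ≤ 3 * p + 11)
    (hjh : 3 * p + 6 ≤ 2 * j) (hd : d ≤ 3 * p + 7) (hdj : j < d) :
    (3 * p + 12 + j - d + 29 ≤ 3 * p + 10 →
      Va p 1 (3 * p + 12 + j - d) + MM d ≤ Va p 2 j + 1) ∧
    (¬ (3 * p + 12 + j - d + 29 ≤ 3 * p + 10) →
      Ub p 1 (3 * p + 12 + j - d) + MM d ≤ Va p 2 j + 1) := by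
  obtain ⟨m2, m3, m4, m5, m6, m7, m8, m9, m10, m11, m12⟩ := MMv p
  have hY : (0 : ℝ) < 3 ^ p := by positivity
  have e2 : (MM (3 * p + 9 + 2) : ℝ) = 54 * 3 ^ p := m11
  have e1 : (MM (3 * p + 9 + 1) : ℝ) = 36 * 3 ^ p := m10
  have hj1 : (1 : ℝ) ≤ MM j := by exact_mod_cast MM_pos j
  constructor
  · intro hpos
    unfold Va
    rw [e1, e2]
    have h3 := MM_le_of (show 3 * p + 12 + j - d ≤ 3 * p + 5 by omega) m5
    have h4 := MM_le_of hd m7
    push_cast
    linarith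
  · intro hneg
    have hL1 : Lb p 1 = 3 * p + 12 := by simp [Lb]
    have e5 : 3 * p + 12 - (3 * p + 12 + j - d) = d - j := by omega
    obtain ⟨u1, u2, u3, u4, -⟩ := lam1_b (d - j)
    have v1 := mul_le_mul_of_nonneg_right u1 hY.le
    have ht := MM_tiny hp (k := 3 * p + 12 + j - d - (3 * p + 7) / 2) (by omega)
    unfold Va
    rw [Ub_B (by omega), hL1, e5, e2]
    push_cast
    rcases Nat.lt_or_ge d (3 * p + 3) with h5 | h5
    · have h6 := MM_le_of (show d ≤ 3 * p + 2 by omega) m2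
      linarith
    · have h6 := MM_le_of hd m7
      have v4 := mul_le_mul_of_nonneg_right (u4 (by omega)) hY.le
      linarith

end Pool.Agent.Helper432.MISNum
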