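import Mathlib
import Pool.Agent.Helper432.MIS.Near

namespace Pool.Agent.Helper432.MISNum

open Finset Pool.Agent.Helper432.MISBase

attribute [local instance] Classical.propDecidable

lemma aex_ge {r : ℕ} : 26 ≤ aex r := by unfold aex; split_ifs <;> norm_num

lemma aex_le {r : ℕ} : aex r ≤ 29 := by unfold aex; split_ifs <;> norm_num

lemma aex_lt {p r j : ℕ} (hr : r < 3) (hj : j + aex r ≤ 3 * p + 9 + r) : j + 1 < Lb p r := by
  have h := aex_ge (r := r)
  unfold Lb
  split_ifs <;> omega

lemma le_near_cap {p r a j : ℕ} (ha1 : 1 ≤ a) (ha2 : a ≤ 3 * p + 9 + r) :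
    (MM a : ℝ) ≤ a + Va p r j := by
  have h3 := MM_sub_mono ha1 ha2
  have h4 : (MM a : ℝ) + ((3 * p + 9 + r : ℕ) : ℝ) ≤ MM (3 * p + 9 + r) + a := by
    exact_mod_cast h3
  have hj1 : (1 : ℝ) ≤ MM j := by exact_mod_cast MM_pos j
  unfold Va
  push_cast at h4
  linarith

/-- the case of small complementary degree -/
lemma near_cap {V : Type*} (G : SimpleGraph V) (A : Finset V) {p r j : ℕ} (hr : r < 3)
    (hj : j + aex r ≤ 3 * p + 9 + r) (hA3 : 3 ≤ A.card)
    (hmin : ∀ z ∈ A, A.card - 3 ≤ dg Gᶜ A z)
    (hN : e2 Gᶜ A = 2 * (mm (3 * p + 9 + r) + j)) : ((MI G A).card : ℝ) ≤ A.card + Va p r j := by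
  have hLb := aex_lt hr hj
  have hnx := mm_next (p := p) hr
  have hM := MI_le_MM G A
  have hMr : ((MI G A).card : ℝ) ≤ MM A.card := by exact_mod_cast hM
  have hle : A.card ≤ 3 * p + 9 + r := by
    by_contra h
    push Not at h
    have h1 := mm_mono (a := 3 * p + 9 + r + 1) (by omega)
      (show 3 * p + 9 + r + 1 ≤ A.card from h)
    rcases refined_cap G A hA3 hmin hN with ⟨h4, -⟩ | ⟨-, h5, -⟩
    · omega
    · omega
  exact hMr.trans (le_near_cap (by omega) hle)

/-- the case of maximum degree at most three -/
lemma near_cubic {V : Type*} (G : SimpleGraph V) (A : Finset V) {p r j : ℕ} (hp : 9 ≤ p)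
    (hr : r < 3) (hj : j + aex r ≤ 3 * p + 9 + r) (hA3 : 4 ≤ A.card)
    (hmin : ∀ z ∈ A, A.card - 4 ≤ dg Gᶜ A z)
    (hN : e2 Gᶜ A = 2 * (mm (3 * p + 9 + r) + j)) : ((MI G A).card : ℝ) ≤ A.card + Va p r j := by
  have hM := MI_le_MM G A
  have hMr : ((MI G A).card : ℝ) ≤ MM A.card := by exact_mod_cast hM
  rcases Nat.lt_or_ge (3 * p + 9 + r) A.card with h | h
  · have hsum : A.card * (A.card - 4) ≤ e2 Gᶜ A := by
      calc A.card * (A.card - 4) = ∑ z ∈ A, (A.card - 4) := by simp
        _ ≤ _ := Finset.sum_le_sum hmin
    rw [hN] at hsum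
    have h0 := two_mm_n0 p
    have h1 := two_mm_n1 p
    have h2 := two_mm_n2 p
    have hle : A.card ≤ 3 * p + 9 + r + 1 := by
      by_contra h5
      push Not at h5
      have h6 := Nat.mul_le_mul (show 3 * p + 9 + r + 2 ≤ A.card by omega)
        (show 3 * p + 7 + r ≤ A.card - 4 by omega)
      have hr' : r = 0 ∨ r = 1 ∨ r = 2 := by omega
      rcases hr' with rfl | rfl | rfl
      · have ea : aex 0 = 26 := by simp [aex]
        rw [ea] at hj
        have e : mm (3 * p + 9 + 0) = mm (3 * p + 9) := by rfl
        rw [e] at hsum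
        have h7 : (3 * p + 9 + 0 + 2) * (3 * p + 7 + 0) = 9 * p * p + 54 * p + 77 := by ring
        omega
      · have ea : aex 1 = 29 := by simp [aex]
        rw [ea] at hj
        have e : mm (3 * p + 9 + 1) = mm (3 * p + 10) := by rfl
        rw [e] at hsum
        have h7 : (3 * p + 9 + 1 + 2) * (3 * p + 7 + 1) = 9 * p * p + 60 * p + 96 := by ring
        omega
      · have ea : aex 2 = 29 := by simp [aex]
        rw [ea] at hj
        have e : mm (3 * p + 9 + 2) = mm (3 * p + 11) := by rfl
        rw [e] at hsum
        have h7 : (3 * p + 9 + 2 + 2) * (3 * p + 7 + 2) = 9 * p * p + 66 * p + 117 := by ring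
        omega
    have hcard : A.card = 3 * p + 9 + r + 1 := by omega
    have h3 : ∀ x ∈ A, dg G A x ≤ 3 := by
      intro x hx
      have h4 := hmin x hx
      have h5 := dg_compl G (A := A) x
      have h6 := card_away G hx
      omega
    have h4 := cubic_case G A hr hj hN hcard h3
    have h5 := le_near_cap (p := p) (r := r) (a := 3 * p + 9 + r) (j := j) (by omega) le_rfl
    have h6 : ((3 * p + 9 + r : ℕ) : ℝ) ≤ A.card := by
      exact_mod_cast (show 3 * p + 9 + r ≤ A.card by omega)
    linarith
  · exact hMr.trans (le_near_cap (by omega) h)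

/-- the exact upper bound away from the end of the blocks -/
lemma le_near {V : Type*} (G : SimpleGraph V) (A : Finset V) : ∀ p r j : ℕ, 9 ≤ p → r < 3 →
    j + aex r ≤ 3 * p + 9 + r → e2 Gᶜ A = 2 * (mm (3 * p + 9 + r) + j) →
    ((MI G A).card : ℝ) ≤ A.card + Va p r j := by
  induction A using Finset.strongInduction with
  | H A ih =>
    intro p r j hp hr hj hN
    have hLb := aex_lt hr hj
    have hge := aex_ge (r := r)
    have hle29 := aex_le (r := r)
    rcases Nat.lt_or_ge (2 * j) (3 * p + 6) with hhalf | hhalf
    · have := le_block G A p r j hp hr (by omega) hN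
      rw [Ub_A hhalf] at this
      exact this
    have h0 := two_mm_n0 p
    have h1 := two_mm_n1 p
    have h2 := two_mm_n2 p
    have hmono : mm (3 * p + 9) ≤ mm (3 * p + 9 + r) := mm_mono (by omega) (by omega)
    have hA4 : 4 ≤ A.card := by
      by_contra h
      have h3 := e2_add_compl G A
      have h4 : A.card * A.card ≤ 3 * 3 := Nat.mul_le_mul (by omega) (by omega)
      omega
    have hA : A.Nonempty := Finset.card_pos.1 (by omega)
    obtain ⟨x, hx, hmin⟩ := exists_min_dg Gᶜ hA
    have hdx := dg_compl G (A := A) x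
    set d := dg Gᶜ A x with hd
    have hc := card_away G hx
    rcases Nat.lt_or_ge (d + 4) A.card with hd5 | hd5
    · have hrec := rec2 G hx
      have haw : (MI G (away G A x)).card ≤ MM d := by
        rw [hdx]; exact MI_le_MM G _
      have hsum : A.card * d ≤ e2 Gᶜ A := by
        calc A.card * d = ∑ z ∈ A, d := by simp
          _ ≤ _ := Finset.sum_le_sum (fun z hz => hmin z hz)
      rw [hN] at hsum
      have hrecR : ((MI G A).card : ℝ) ≤ (MI G (A.erase x)).card + MM d := by
        exact_mod_cast hrec.trans (Nat.add_le_add_left haw _)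
      have hcard : (A.erase x).card = A.card - 1 := Finset.card_erase_of_mem hx
      have hcardR : ((A.erase x).card : ℝ) = A.card - 1 := by
        rw [hcard, Nat.cast_sub (by omega)]; simp
      have he2 := e2_erase Gᶜ hx
      rw [← hd, hN] at he2
      have hss := Finset.erase_ssubset hx
      have hdd : d * (d + 5) ≤ 2 * (mm (3 * p + 9 + r) + j) := by
        have : (d + 5) * d ≤ A.card * d := Nat.mul_le_mul_right d hd5
        rw [mul_comm (d + 5) d] at this
        exact this.trans hsum
      have hdb := deg_bound5 hr hj hdd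
      rcases Nat.lt_or_ge j d with hdj | hdj
      · -- the previous block
        have hr' : r = 0 ∨ r = 1 ∨ r = 2 := by omega
        rcases hr' with rfl | rfl | rfl
        · have ea : aex 0 = 26 := by simp [aex]
          rw [ea] at hj
          obtain ⟨p', rfl⟩ : ∃ p', p = p' + 1 := ⟨p - 1, by omega⟩
          have e : mm (3 * (p' + 1) + 9 + 0) = mm (3 * (p' + 1) + 9) := by rfl
          rw [e] at he2
          obtain ⟨s1, s2⟩ := near_prev0 (p' := p') (j := j) (d := d) (by omega) (by omega)
            (by omega) (by omega) hdj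
          have h6 := mm_next (p := p') (r := 2) (by omega)
          have e6 : Lb p' 2 = 3 * p' + 9 := by simp [Lb]
          rw [e6] at h6
          have e7 : mm (3 * p' + 9 + 2 + 1) = mm (3 * (p' + 1) + 9) := by congr 1
          rw [e7] at h6
          have h7 : e2 Gᶜ (A.erase x) = 2 * (mm (3 * p' + 9 + 2) + (3 * p' + 9 + j - d)) := by
            omega
          by_cases hz : 3 * p' + 9 + j - d + 29 ≤ 3 * p' + 11
          · have h8 := ih _ hss p' 2 _ (by omega) (by omega)
              (by rw [show aex 2 = 29 by simp [aex]]; omega) h7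
            linarith
          · have h8 := le_block G (A.erase x) p' 2 _ (by omega) (by omega)
              (by rw [e6]; omega) h7
            have h9 := s2 hz
            linarith
        · have ea : aex 1 = 29 := by simp [aex]
          rw [ea] at hj
          have e : mm (3 * p + 9 + 1) = mm (3 * p + 10) := by rfl
          rw [e] at he2
          obtain ⟨s1, s2⟩ := near_prev1 (p := p) (j := j) (d := d) hp (by omega)
            (by omega) (by omega) hdj
          have e6 : Lb p 0 = 3 * p + 6 := by simp [Lb]
          have h7 : e2 Gᶜ (A.erase x) = 2 * (mm (3 * p + 9 + 0) + (3 * p + 6 + j - d)) := by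
            have : mm (3 * p + 9 + 0) = mm (3 * p + 9) := by rfl
            omega
          by_cases hz : 3 * p + 6 + j - d + 26 ≤ 3 * p + 9
          · have h8 := ih _ hss p 0 _ (by omega) (by omega)
              (by rw [show aex 0 = 26 by simp [aex]]; omega) h7
            linarith
          · have h8 := le_block G (A.erase x) p 0 _ (by omega) (by omega)
              (by rw [e6]; omega) h7
            have h9 := s2 hz
            linarith
        · have ea : aex 2 = 29 := by simp [aex]
          rw [ea] at hj
          have e : mm (3 * p + 9 + 2) = mm (3 * p + 11) := by rfl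
          rw [e] at he2
          obtain ⟨s1, s2⟩ := near_prev2 (p := p) (j := j) (d := d) hp (by omega)
            (by omega) (by omega) hdj
          have e6 : Lb p 1 = 3 * p + 12 := by simp [Lb]
          have h7 : e2 Gᶜ (A.erase x) = 2 * (mm (3 * p + 9 + 1) + (3 * p + 12 + j - d)) := by
            have : mm (3 * p + 9 + 1) = mm (3 * p + 10) := by rfl
            omega
          by_cases hz : 3 * p + 12 + j - d + 29 ≤ 3 * p + 10
          · have h8 := ih _ hss p 1 _ (by omega) (by omega)
              (by rw [show aex 1 = 29 by simp [aex]]; omega) h7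
            have h9 := s1 hz
            linarith
          · have h8 := le_block G (A.erase x) p 1 _ (by omega) (by omega)
              (by rw [e6]; omega) h7
            have h9 := s2 hz
            linarith
      · have h7 : e2 Gᶜ (A.erase x) = 2 * (mm (3 * p + 9 + r) + (j - d)) := by omega
        have h8 := ih _ hss p r _ hp hr (by omega) h7
        have h9 := MM_super (j - d) d
        rw [Nat.sub_add_cancel hdj] at h9
        have h10 : (MM (j - d) : ℝ) + MM d ≤ MM j + 1 := by exact_mod_cast h9
        unfold Va at h8 ⊢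
        linarith
    · rcases Nat.lt_or_ge (d + 3) A.card with hd6 | hd6
      · exact near_cubic G A hp hr hj hA4
          (fun z hz => (by omega : A.card - 4 ≤ d).trans (hmin z hz)) hN
      · exact near_cap G A hr hj (by omega)
          (fun z hz => (by omega : A.card - 3 ≤ d).trans (hmin z hz)) hN

end Pool.Agent.Helper432.MISNum
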