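import Mathlib
import Pool.Agent.Helper432.MIS.NearInd

namespace Pool.Agent.Helper432.MISNum

open Finset Pool.Agent.Helper432.MISBase

attribute [local instance] Classical.propDecidable

lemma mm_le_choose {n v : ℕ} (hn : 3 ≤ n) (hv : n + 1 ≤ v) : mm n + n ≤ v.choose 2 := by
  refine le_trans ?_ (Nat.choose_le_choose 2 hv)
  have h1 := two_choose (n + 1)
  simp only [Nat.add_sub_cancel] at h1
  obtain ⟨k, hk | hk | hk⟩ := mod_cases hn
  · have := two_mm0 k
    rw [hk] at h1 ⊢
    have e : (3 * k + 3 + 1) * (3 * k + 3) = 9 * k * k + 21 * k + 12 := by ring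
    omega
  · have := two_mm1 k
    rw [hk] at h1 ⊢
    have e : (3 * k + 4 + 1) * (3 * k + 4) = 9 * k * k + 27 * k + 20 := by ring
    omega
  · have := two_mm2 k
    rw [hk] at h1 ⊢
    have e : (3 * k + 5 + 1) * (3 * k + 5) = 9 * k * k + 33 * k + 30 := by ring
    omega

/-- the exact value away from the end of each block -/
lemma mu_near {n v j : ℕ} (hn : 24 ≤ n) (hj : j + 29 ≤ n ∨ 2 * j < 3 * (n / 3 - 1))
    (hv : n + 1 ≤ v) :
    mu v (v.choose 2 - (mm n + j)) + 1 = MM n + MM j + (v - n) := by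
  by_cases hh : 2 * j < 3 * (n / 3 - 1)
  · exact mu_half hn hh hv
  have hj' : j + 29 ≤ n := by
    rcases hj with h | h
    · exact h
    · exact absurd h hh
  have hN : mm n + j ≤ v.choose 2 := by
    have := mm_le_choose (show 3 ≤ n by omega) hv
    omega
  refine le_antisymm ?_ (lower_att (by omega) (by omega) hv)
  obtain ⟨G, hG, hmu⟩ := exists_attain (v := v) (e := v.choose 2 - (mm n + j)) (Nat.sub_le _ _)
  rw [← hmu, misCount_eq]
  have he : e2 Gᶜ Finset.univ = 2 * (mm n + j) := by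
    rw [e2_compl_univ, hG, Nat.sub_sub_self hN]
  have hcard : (Finset.univ : Finset (Fin v)).card = v := by
    rw [Finset.card_univ, Fintype.card_fin]
  obtain ⟨p, r, hr, hnp⟩ : ∃ p r, r < 3 ∧ n = 3 * p + 9 + r :=
    ⟨n / 3 - 3, n % 3, by omega, by omega⟩
  have hp : 9 ≤ p := by omega
  rw [hnp] at he
  have h29 := aex_le (r := r)
  have h2 := le_near G Finset.univ p r j hp hr (by omega) he
  rw [hcard, Va] at h2
  have h3 : ((MI G (Finset.univ : Finset (Fin v))).card : ℝ) + (n + 1 : ℕ) ≤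
      ((v + MM n + MM j : ℕ) : ℝ) := by
    rw [hnp]
    push_cast
    linarith
  have h4 : (MI G (Finset.univ : Finset (Fin v))).card + (n + 1) ≤ v + MM n + MM j := by
    exact_mod_cast h3
  omega

end Pool.Agent.Helper432.MISNum
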